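import Pool.Agent.Helper579.Beps.ChainD
import Pool.Agent.Helper579.Beps.Stage

noncomputable section

namespace Pool.Agent.Helper579.Beps

/-- The abstract theorem. -/
theorem abs_main : ∃ R : ℕ → ℕ, ∀ (X : Type) [NormedAddCommGroup X] [NormedSpace ℝ X],
    IsSlow X R → QStar X 215 :=
  Pool.Agent.H570.Beps.abs_main_of Pool.Agent.Helper149.Beps.stage_ok

end Pool.Agent.Helper579.Beps
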