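import Pool.Agent.Helper579.Beps.ChainA

set_option maxHeartbeats 4000000

open scoped InnerProductSpace
open Finset Module

noncomputable section

namespace Pool.Agent.H570.Beps

open Pool.Agent.Helper579.Beps

variable {X : Type} [NormedAddCommGroup X] [NormedSpace ℝ X]

/-- The chain of subspaces obtained by iterating the stages. -/
lemma chain {R : ℕ → ℕ} (hS : IsSlow X R) {N M : ℕ → ℕ} {t : ℕ → ℝ}
    (hst : ∀ l, 1 ≤ l → StageOK l (t l) (N l) (M l)) (hN : ∀ l, N l ≤ R l)
    {n : ℕ} (V : EuclideanSpace ℝ (Fin n) →ₗ[ℝ] X) :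
    ∀ (L : ℕ) (T : Submodule ℝ (EuclideanSpace ℝ (Fin n))) (c : ℝ), c ≤ 1 → HasCost V T c →
    ∃ (G : ℕ → Submodule ℝ (EuclideanSpace ℝ (Fin n))) (S : ℕ → ℝ),
      G 0 = ⊥ ∧ (∀ l, G l ≤ G (l + 1)) ∧ (∀ l, L < l → G l = T) ∧
      (∀ l, 1 ≤ l → l ≤ L → finrank ℝ (G l) ≤ M l) ∧
      (∀ l, 1 ≤ l → ∀ f ∈ G (l + 1), f ∈ (G l)ᗮ → ‖V f‖ ≤ t l * ‖f‖) ∧
      (∀ l, 0 ≤ S l) ∧ (∀ l, L < l → S l = 0) ∧ (∀ l, HSle V (G (l + 1)) (G l) (S l)) ∧
      3 / 10 * ∑ l ∈ range (L + 1), S l ≤ c := by
  classical
  intro L
  induction L with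
  | zero =>
    intro T c hc1 hc
    have hc0 : 0 ≤ c := hasCost_nonneg hc
    refine ⟨fun l => if l = 0 then ⊥ else T, fun l => if l = 0 then c else 0, by simp, ?_, ?_, ?_, ?_, ?_, ?_, ?_, ?_⟩
    · intro l
      by_cases h : l = 0 <;> simp [h]
    · intro l hl
      have : l ≠ 0 := by omega
      simp [this]
    · intro l h1 h2; omega
    · intro l hl f hf hf2
      have h0 : l ≠ 0 := by omega
      simp only [h0, if_false, Nat.succ_ne_zero] at hf hf2
      have : f = 0 := by
        have := (Submodule.mem_orthogonal _ _).1 hf2 f hf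
        exact inner_self_eq_zero.1 this
      simp [this]
    · intro l
      by_cases h : l = 0 <;> simp [h, hc0]
    · intro l hl
      have h0 : l ≠ 0 := by omega
      simp [h0]
    · intro l
      by_cases h : l = 0
      · subst h
        simpa using hsle_of_cost hc
      · intro m w hw
        simp [h]
    · simp
      linarith
  | succ L ih =>
    intro T c hc1 hc
    obtain ⟨T', hTT', hfr, hsm, c', s, hs0, hcost', hcs, hHS⟩ :=
      hst (L + 1) (by omega) X R hS (hN _) n V T c hc1 hc
    obtain ⟨G, S, g0, g1, g2, g3, g4, g5, g5', g6, g7⟩ := ih T' c' (by linarith) hcost'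
    have hGL : G (L + 1) = T' := g2 _ (by omega)
    refine ⟨fun l => if l ≤ L + 1 then G l else T,
      fun l => if l ≤ L then S l else if l = L + 1 then s else 0, ?_, ?_, ?_, ?_, ?_, ?_, ?_, ?_, ?_⟩
    · simp [g0]
    · intro l
      by_cases h : l ≤ L
      · have h' : l ≤ L + 1 := by omega
        have h'' : l + 1 ≤ L + 1 := by omega
        simp only [h', h'', if_true]
        exact g1 l
      · by_cases h2 : l = L + 1
        · subst h2
          simp only [le_refl, if_true, Nat.not_succ_le_self, if_false]
          simp only [hGL]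
          exact hTT'
        · have h' : ¬ l ≤ L + 1 := by omega
          have h'' : ¬ l + 1 ≤ L + 1 := by omega
          simp only [h', h'', if_false]
          exact le_rfl
    · intro l hl
      have h' : ¬ l ≤ L + 1 := by omega
      simp [h']
    · intro l h1 h2
      have haux : ∀ (A B : Submodule ℝ (EuclideanSpace ℝ (Fin n))), A = B →
          finrank ℝ A ≤ M l → finrank ℝ B ≤ M l := by
        intro A B hAB hA; subst hAB; exact hA
      refine haux (G l) _ (if_pos h2).symm ?_
      by_cases h3 : l ≤ L
      · exact g3 l h1 h3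
      · have : l = L + 1 := by omega
        subst this
        exact haux T' _ hGL.symm hfr
    · intro l hl f hf hf2
      by_cases h : l ≤ L
      · have h' : l ≤ L + 1 := by omega
        have h'' : l + 1 ≤ L + 1 := by omega
        simp only [h', h'', if_true] at hf hf2
        exact g4 l hl f hf hf2
      · by_cases h2 : l = L + 1
        · subst h2
          have h3 : ¬ (L + 1 + 1 ≤ L + 1) := by omega
          simp only [h3, le_refl, if_true, if_false, hGL] at hf hf2
          exact hsm f hf hf2
        · have h' : ¬ l ≤ L + 1 := by omega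
          have h'' : ¬ l + 1 ≤ L + 1 := by omega
          simp only [h', h'', if_false] at hf hf2
          have : f = 0 := by
            have := (Submodule.mem_orthogonal _ _).1 hf2 f hf
            exact inner_self_eq_zero.1 this
          simp [this]
    · intro l
      by_cases h : l ≤ L
      · simp only [h, if_true]; exact g5 l
      · by_cases h2 : l = L + 1
        · subst h2
          simp [hs0]
        · simp [h, h2]
    · intro l hl
      have h1 : ¬ (l ≤ L) := by omega
      have h2 : l ≠ L + 1 := by omega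
      simp [h1, h2]
    · intro l
      by_cases h : l ≤ L
      · have h' : l ≤ L + 1 := by omega
        have h'' : l + 1 ≤ L + 1 := by omega
        simp only [h', h'', if_true, h]
        exact g6 l
      · by_cases h2 : l = L + 1
        · subst h2
          have h3 : ¬ (L + 1 + 1 ≤ L + 1) := by omega
          have h4 : ¬ (L + 1 ≤ L) := by omega
          simp only [h3, h4, le_refl, if_true, if_false, hGL]
          exact hHS
        · have h' : ¬ l ≤ L + 1 := by omega
          have h'' : ¬ l + 1 ≤ L + 1 := by omega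
          simp only [h', h'', if_false, h, h2]
          intro m w hw
          simp
    · rw [sum_range_succ]
      have e1 : ∑ l ∈ range (L + 1), (if l ≤ L then S l else if l = L + 1 then s else 0)
          = ∑ l ∈ range (L + 1), S l := by
        refine sum_congr rfl fun l hl => ?_
        have : l ≤ L := by simpa [Nat.lt_succ_iff] using hl
        simp [this]
      rw [e1]
      have h4 : ¬ (L + 1 ≤ L) := by omega
      simp only [h4, if_false, if_true]
      linarith

/-- tails of the chain -/
lemma chain_tail {n : ℕ} (V : EuclideanSpace ℝ (Fin n) →ₗ[ℝ] X) {t : ℕ → ℝ}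
    (ht0 : ∀ l, 0 ≤ t l) (ht : ∀ l, 2 * t (l + 1) ≤ t l)
    {G : ℕ → Submodule ℝ (EuclideanSpace ℝ (Fin n))} (hmono : ∀ l, G l ≤ G (l + 1))
    {L : ℕ} (htop : ∀ l, L < l → G l = ⊤)
    (hsm : ∀ l, 1 ≤ l → ∀ f ∈ G (l + 1), f ∈ (G l)ᗮ → ‖V f‖ ≤ t l * ‖f‖) :
    ∀ j k, 1 ≤ k → L + 1 ≤ k + j → ∀ f ∈ (G k)ᗮ, ‖V f‖ ≤ 2 * t k * ‖f‖ := by
  intro j
  induction j with
  | zero =>
    intro k hk hkL f hf
    rw [htop k (by omega)] at hf
    have : f = 0 := by simpa using hf
    simp [this]
  | succ j ih =>
    intro k hk hkL f hf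
    have hdec : f = (G (k + 1)).starProjection f + (f - (G (k + 1)).starProjection f) := by abel
    have h1 : f - (G (k + 1)).starProjection f ∈ (G (k + 1))ᗮ :=
      Submodule.sub_starProjection_mem_orthogonal f
    have h2 : (G (k + 1)).starProjection f ∈ G (k + 1) := Submodule.starProjection_apply_mem _ _
    have h3 : (G (k + 1)).starProjection f ∈ (G k)ᗮ := by
      have : (G (k + 1)).starProjection f = f - (f - (G (k + 1)).starProjection f) := by abel
      rw [this]
      exact Submodule.sub_mem _ hf (Submodule.orthogonal_le (hmono k) h1)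
    have h4 := hsm k hk _ h2 h3
    have h5 := ih (k + 1) (by omega) (by omega) _ h1
    have n1 : ‖(G (k + 1)).starProjection f‖ ≤ ‖f‖ := Submodule.norm_starProjection_apply_le _ _
    have n2 : ‖f - (G (k + 1)).starProjection f‖ ≤ ‖f‖ := by
      rw [← Submodule.starProjection_orthogonal_val]
      exact Submodule.norm_starProjection_apply_le _ _
    calc ‖V f‖ = ‖V ((G (k + 1)).starProjection f) + V (f - (G (k + 1)).starProjection f)‖ := by
          rw [← map_add, ← hdec]
      _ ≤ ‖V ((G (k + 1)).starProjection f)‖ + ‖V (f - (G (k + 1)).starProjection f)‖ :=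
          norm_add_le _ _
      _ ≤ t k * ‖f‖ + 2 * t (k + 1) * ‖f‖ := by
          have a1 : t k * ‖(G (k + 1)).starProjection f‖ ≤ t k * ‖f‖ :=
            mul_le_mul_of_nonneg_left n1 (ht0 k)
          have a2 : 2 * t (k + 1) * ‖f - (G (k + 1)).starProjection f‖ ≤ 2 * t (k + 1) * ‖f‖ :=
            mul_le_mul_of_nonneg_left n2 (by have := ht0 (k + 1); positivity)
          linarith
      _ ≤ t k * ‖f‖ + t k * ‖f‖ := by
          have := mul_le_mul_of_nonneg_right (ht k) (norm_nonneg f)
          linarith
      _ = 2 * t k * ‖f‖ := by ring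

end Pool.Agent.H570.Beps
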