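import Pool.Agent.Helper579.Beps.ChainC

set_option maxHeartbeats 4000000

open scoped InnerProductSpace
open Finset Module

noncomputable section

namespace Pool.Agent.H570.Beps

open Pool.Agent.Helper579.Beps

variable {X : Type} [NormedAddCommGroup X] [NormedSpace ℝ X]

lemma geom_quarter (L : ℕ) : ∑ k ∈ range L, (1 / 4 : ℝ) ^ (k + 1) ≤ 1 / 3 := by
  have h : ∀ L : ℕ, ∑ k ∈ range L, (1 / 4 : ℝ) ^ (k + 1) = (1 - (1 / 4) ^ L) / 3 := by
    intro L
    induction L with
    | zero => simp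
    | succ L ih => rw [sum_range_succ, ih]; ring
  rw [h]
  have : (0 : ℝ) ≤ (1 / 4) ^ L := by positivity
  linarith

/-- the case of cost at most one -/
lemma main_unit {R B N M : ℕ → ℕ} (hB1 : ∀ l, 1 ≤ B l) (hBm : ∀ l, B l ≤ B (l + 1))
    (hst : ∀ l, StageOK (l + 1) ((1 / 2) ^ (l + 1) / Real.sqrt (B l)) (N (l + 1)) (M (l + 1)) ∧
        M (l + 1) + 3 * (l + 1) ≤ B (l + 1))
    (hRN : ∀ l, N l ≤ R l) (hRB : ∀ l, B (l + 1) ≤ R l) (hS : IsSlow X R)
    {n : ℕ} (V : EuclideanSpace ℝ (Fin n) →ₗ[ℝ] X) (T : Submodule ℝ (EuclideanSpace ℝ (Fin n)))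
    (hc : HasCost V ⊤ 1) : HasCost V T 215 := by
  classical
  let t : ℕ → ℝ := fun l => (1 / 2) ^ l / Real.sqrt (B (l - 1))
  have hBpos : ∀ l, (0 : ℝ) < B l := fun l => by exact_mod_cast hB1 l
  have hsq : ∀ l, 0 < Real.sqrt (B l) := fun l => Real.sqrt_pos.2 (hBpos l)
  have ht0 : ∀ l, 0 ≤ t l := fun l => by
    have := hsq (l - 1)
    simp only [t]; positivity
  have ht : ∀ l, 2 * t (l + 1) ≤ t l := by
    intro l
    simp only [t, Nat.add_sub_cancel]
    have h1 : Real.sqrt (B (l - 1)) ≤ Real.sqrt (B l) := by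
      apply Real.sqrt_le_sqrt
      rcases l with _ | l
      · simp
      · simp only [Nat.add_sub_cancel]; exact_mod_cast hBm l
    have h2 : 2 * ((1 / 2 : ℝ) ^ (l + 1) / Real.sqrt (B l)) = (1 / 2) ^ l / Real.sqrt (B l) := by
      rw [pow_succ]; ring
    rw [h2]
    exact div_le_div_of_nonneg_left (by positivity) (hsq _) h1
  have hst' : ∀ l, 1 ≤ l → StageOK l (t l) (N l) (M l) := by
    intro l hl
    obtain ⟨l, rfl⟩ : ∃ l', l = l' + 1 := ⟨l - 1, by omega⟩
    simpa [t] using (hst l).1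
  obtain ⟨G, S, g0, g1, g2, g3, g4, g5, g5', g6, g7⟩ := chain hS hst' hRN V n ⊤ 1 le_rfl hc
  obtain ⟨⟨P, hP1, hP2, hP3, hP4, hP5⟩, -⟩ := hS
  have hfr : ∀ K, K ≤ n → finrank ℝ (G (K + 1)) + 2 * (K + 1) ≤ B (K + 1) := by
    intro K hK
    have hb := (hst K).2
    by_cases h : K + 1 ≤ n
    · have := g3 (K + 1) (by omega) h
      omega
    · have hKn : K = n := by omega
      have : finrank ℝ (G (K + 1)) ≤ n := by
        have := Submodule.finrank_le (G (K + 1))
        simpa using this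
      omega
  -- the blocks
  have hblock : ∀ K, K ≤ n → HasCost V (TT V P G T K ⊓ (TT V P G T (K + 1))ᗮ)
      (32 * (S K + S (K + 1)) + 2 * (1 / 4) ^ (K + 1)) := by
    intro K hK
    refine block (R := R) V P hP1 hP3 hP4 hP5 T g6 K (B (K + 1)) (hfr K hK) (hRB K)
      (2 * t (K + 2)) (by have := ht0 (K + 2); positivity) ?_ ?_
    · exact chain_tail V ht0 ht g1 g2 g4 (n + 1) (K + 2) (by omega) (by omega)
    · simp only [t]
      have e : K + 2 - 1 = K + 1 := by omega
      rw [e, mul_pow, div_pow, Real.sq_sqrt (hBpos _).le]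
      have h0 := (hBpos (K + 1)).ne'
      rw [← pow_mul, pow_mul']
      have : ((1 / 2 : ℝ) ^ 2) = 1 / 4 := by norm_num
      rw [this]
      have e2 : (B (K + 1) : ℝ) * (2 ^ 2 * ((1 / 4) ^ (K + 2) / B (K + 1))) = 4 * (1 / 4) ^ (K + 2) := by
        field_simp
        ring
      rw [e2, pow_succ]
      linarith
  have hanti : ∀ K, TT V P G T (K + 1) ≤ TT V P G T K := by
    intro K f hf
    rw [mem_TT] at hf ⊢
    exact ⟨hf.1, Submodule.orthogonal_le (g1 K) hf.2.1, hP2 K _ hf.2.2⟩
  have hlast : TT V P G T (n + 1) = ⊥ := by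
    rw [eq_bot_iff]
    intro f hf
    rw [mem_TT, g2 (n + 1) (by omega)] at hf
    simpa using hf.2.1
  have hfirst : TT V P G T 0 = T := by
    ext f
    rw [mem_TT, g0]
    constructor
    · exact fun h => h.1
    · intro h
      refine ⟨h, by simp, ?_⟩
      obtain ⟨W, hWf, hWr, hW⟩ := hP4 0
      have hW0 : W = ⊥ := by
        apply Submodule.finrank_eq_zero.1
        omega
      have := hW (V f)
      rw [hW0, Submodule.mem_bot, sub_eq_zero] at this
      exact this.symm
  have hind : ∀ j K, K + j = n + 1 →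
      HasCost V (TT V P G T K) (∑ k ∈ Ico K (n + 1), (32 * (S k + S (k + 1)) + 2 * (1 / 4) ^ (k + 1))) := by
    intro j
    induction j with
    | zero =>
      intro K hK
      have : K = n + 1 := by omega
      subst this
      rw [hlast]; simpa using hasCost_bot V
    | succ j ih =>
      intro K hK
      have h1 := ih (K + 1) (by omega)
      have h2 := hblock K (by omega)
      have h3 := hasCost_sup h1 h2 (by exact inf_le_right)
      have h4 : TT V P G T (K + 1) ⊔ TT V P G T K ⊓ (TT V P G T (K + 1))ᗮ = TT V P G T K := by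
        rw [inf_comm]
        exact Submodule.sup_orthogonal_inf_of_hasOrthogonalProjection (hanti K)
      rw [h4] at h3
      rw [Finset.sum_eq_sum_Ico_succ_bot (by omega : K < n + 1), add_comm]
      exact h3
  have hfin := hind (n + 1) 0 (by omega)
  rw [hfirst] at hfin
  refine hasCost_mono hfin ?_
  rw [← Finset.range_eq_Ico, Finset.sum_add_distrib, ← Finset.mul_sum, ← Finset.mul_sum,
    Finset.sum_add_distrib]
  have hs1 : ∑ k ∈ range (n + 1), S (k + 1) ≤ ∑ k ∈ range (n + 1), S k := by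
    rw [Finset.sum_range_succ, Finset.sum_range_succ', g5' (n + 1) (by omega)]
    have := g5 0
    linarith
  have hs2 := geom_quarter (n + 1)
  linarith

/-- The abstract theorem, from the single stage. -/
theorem abs_main_of (stage : ∀ (l : ℕ) (t : ℝ), 0 < t → ∃ N M : ℕ, StageOK l t N M) :
    ∃ R : ℕ → ℕ, ∀ (X : Type) [NormedAddCommGroup X] [NormedSpace ℝ X],
      IsSlow X R → QStar X 215 := by
  obtain ⟨B, N, M, hB1, hBm, hst⟩ := seqs stage
  refine ⟨fun K => B (K + 1) + N K, ?_⟩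
  intro X _ _ hS n V T
  have hQ : ∀ (V : EuclideanSpace ℝ (Fin n) →ₗ[ℝ] X), HasCost V ⊤ 1 → HasCost V T 215 :=
    fun V hc => main_unit hB1 hBm hst (fun l => by omega) (fun l => by omega) hS V T hc
  set c : ℝ := ∑ j, ‖V (EuclideanSpace.single j 1)‖ ^ 2 with hc
  have hc0 : 0 ≤ c := Finset.sum_nonneg fun i _ => by positivity
  rcases hc0.eq_or_lt with h0 | hpos
  · have hz := hQ V (hasCost_mono (hasCost_top V) (by rw [← hc, ← h0]; norm_num))
    obtain ⟨m, f, h1, h2, h3⟩ := hz
    refine ⟨m, f, h1, h2, ?_⟩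
    have hV : ∀ x, V x = 0 := by
      intro x
      rw [← expand_single x, map_sum]
      refine Finset.sum_eq_zero fun j _ => ?_
      have : ‖V (EuclideanSpace.single j 1)‖ ^ 2 = 0 := by
        have := (Finset.sum_eq_zero_iff_of_nonneg (fun i _ => by positivity)).1 h0.symm j
          (Finset.mem_univ j)
        exact this
      have h2 : V (EuclideanSpace.single j 1) = 0 := by
        have := pow_eq_zero_iff (two_ne_zero) |>.1 this
        exact norm_eq_zero.1 this
      rw [map_smul, h2, smul_zero]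
    simp only [hV]
    simp only [norm_zero]
    rw [← h0]
    simp
  · have hsq : 0 < Real.sqrt c := Real.sqrt_pos.2 hpos
    let V' : EuclideanSpace ℝ (Fin n) →ₗ[ℝ] X := (Real.sqrt c)⁻¹ • V
    have hn : ∀ x, ‖V' x‖ ^ 2 = c⁻¹ * ‖V x‖ ^ 2 := by
      intro x
      simp only [V', LinearMap.smul_apply, norm_smul, norm_inv, Real.norm_eq_abs,
        abs_of_pos hsq, mul_pow, inv_pow, Real.sq_sqrt hc0]
    have h1 : HasCost V' ⊤ 1 := by
      refine hasCost_mono (hasCost_top V') ?_
      simp only [hn]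
      rw [← Finset.mul_sum, ← hc, inv_mul_cancel₀ hpos.ne']
    obtain ⟨m, f, f1, f2, f3⟩ := hQ V' h1
    refine ⟨m, f, f1, f2, ?_⟩
    simp only [hn] at f3
    rw [← Finset.mul_sum, inv_mul_le_iff₀ hpos] at f3
    linarith

end Pool.Agent.H570.Beps
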