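import Mathlib

set_option maxHeartbeats 4000000

open Finset

noncomputable section

namespace Pool.Agent.Helper579.Beps

/-- Closure conditions on a set of weight sequences. -/
structure Good (g : ℕ → ℕ) (S : Set (ℕ → ℝ)) : Prop where
  closed : IsClosed S
  conv : Convex ℝ S
  box : ∀ d ∈ S, ∀ i, 0 ≤ d i ∧ d i ≤ 1
  solid : ∀ d ∈ S, ∀ e : ℕ → ℝ, (∀ i, 0 ≤ e i ∧ e i ≤ d i) → e ∈ S
  unit : ∀ i, (Pi.single i 1 : ℕ → ℝ) ∈ S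
  sup : ∀ (N : ℕ) (s : Finset (ℕ → ℝ)), s.card ≤ g N →
    (∀ d ∈ s, d ∈ S ∧ ∀ i < N, d i = 0) →
    ∀ e : ℕ → ℝ, (∀ i, 0 ≤ e i ∧ ∃ d ∈ s, 2 * e i ≤ d i) → e ∈ S

/-- The smallest good set. -/
def BG (g : ℕ → ℕ) : Set (ℕ → ℝ) := {d | ∀ S, Good g S → d ∈ S}

/-- Finitely supported sequences, to be normed by `g`. -/
def X0 (_g : ℕ → ℕ) : Type := ℕ →₀ ℝ

instance (g : ℕ → ℕ) : AddCommGroup (X0 g) := inferInstanceAs (AddCommGroup (ℕ →₀ ℝ))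
instance (g : ℕ → ℕ) : Module ℝ (X0 g) := inferInstanceAs (Module ℝ (ℕ →₀ ℝ))

/-- coordinates -/
def co {g : ℕ → ℕ} (x : X0 g) (i : ℕ) : ℝ := (show ℕ →₀ ℝ from x) i
/-- support -/
def su {g : ℕ → ℕ} (x : X0 g) : Finset ℕ := (show ℕ →₀ ℝ from x).support
/-- unit vectors -/
def ee (g : ℕ → ℕ) (i : ℕ) (t : ℝ) : X0 g := (Finsupp.single i t : ℕ →₀ ℝ)
/-- the part of `x` beyond `K` -/
def tl {g : ℕ → ℕ} (K : ℕ) (x : X0 g) : X0 g :=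
  (Finsupp.filter (fun i => K ≤ i) (show ℕ →₀ ℝ from x) : ℕ →₀ ℝ)

/-- weighted square sum -/
def phi {g : ℕ → ℕ} (d : ℕ → ℝ) (x : X0 g) : ℝ := ∑ i ∈ su x, co x i ^ 2 / Real.sqrt (d i)

/-- admissible weights for `x` -/
def Adm {g : ℕ → ℕ} (x : X0 g) : Set (ℕ → ℝ) := {d | d ∈ BG g ∧ ∀ i ∈ su x, 0 < d i}

/-- the square of the norm -/
def Nsq {g : ℕ → ℕ} (x : X0 g) : ℝ := sInf ((fun d => phi d x) '' Adm x)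

/-- Abstract hypotheses for a normed space. -/
def IsSlow (X : Type) [NormedAddCommGroup X] [NormedSpace ℝ X] (R : ℕ → ℕ) : Prop :=
  (∃ P : ℕ → X →ₗ[ℝ] X, (∀ K x, ‖P K x‖ ≤ ‖x‖) ∧ (∀ K x, P (K + 1) x = x → P K x = x) ∧
    (∀ K x, P K (P K x) = P K x) ∧
    (∀ K, ∃ W : Submodule ℝ X, FiniteDimensional ℝ W ∧ Module.finrank ℝ W ≤ 2 * K ∧
      ∀ x, x - P K x ∈ W) ∧
    (∀ K (H : Submodule ℝ X), FiniteDimensional ℝ H → (∀ h ∈ H, P K h = h) →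
      Module.finrank ℝ H ≤ R K →
      ∃ (m : ℕ) (u : X →ₗ[ℝ] EuclideanSpace ℝ (Fin m)), (∀ x, ‖u x‖ ≤ ‖x‖) ∧
        ∀ h ∈ H, ‖h‖ ^ 2 ≤ 8 * ‖u h‖ ^ 2)) ∧
  (∀ (ι : Type) (s : Finset ι) (x : ι → X) (a : ι → ℝ), ∑ j ∈ s, a j ^ 2 = 1 →
    ‖∑ j ∈ s, a j • x j‖ ^ 2 + 3 / 10 * ∑ j ∈ s, ‖x j - a j • ∑ k ∈ s, a k • x k‖ ^ 2
      ≤ ∑ j ∈ s, ‖x j‖ ^ 2)

/-- every restriction of an operator has an orthonormal basis of small cost -/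
def QStar (X : Type) [NormedAddCommGroup X] [NormedSpace ℝ X] (C : ℝ) : Prop :=
  ∀ (n : ℕ) (V : EuclideanSpace ℝ (Fin n) →ₗ[ℝ] X) (T : Submodule ℝ (EuclideanSpace ℝ (Fin n))),
    ∃ (m : ℕ) (f : Fin m → EuclideanSpace ℝ (Fin n)), Orthonormal ℝ f ∧
      Submodule.span ℝ (Set.range f) = T ∧
      ∑ i, ‖V (f i)‖ ^ 2 ≤ C * ∑ j, ‖V (EuclideanSpace.single j 1)‖ ^ 2

/-- `T` has an orthonormal basis of cost at most `c` -/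
def HasCost {X : Type} [NormedAddCommGroup X] [NormedSpace ℝ X] {n : ℕ}
    (V : EuclideanSpace ℝ (Fin n) →ₗ[ℝ] X) (T : Submodule ℝ (EuclideanSpace ℝ (Fin n)))
    (c : ℝ) : Prop :=
  ∃ (m : ℕ) (f : Fin m → EuclideanSpace ℝ (Fin n)), Orthonormal ℝ f ∧
      Submodule.span ℝ (Set.range f) = T ∧ ∑ i, ‖V (f i)‖ ^ 2 ≤ c

/-- Hilbert-Schmidt bound for contractions composed with `V (P_T - P_T')` -/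
def HSle {X : Type} [NormedAddCommGroup X] [NormedSpace ℝ X] {n : ℕ}
    (V : EuclideanSpace ℝ (Fin n) →ₗ[ℝ] X) (T T' : Submodule ℝ (EuclideanSpace ℝ (Fin n)))
    (s : ℝ) : Prop :=
  ∀ (m : ℕ) (w : X →ₗ[ℝ] EuclideanSpace ℝ (Fin m)), (∀ x, ‖w x‖ ≤ ‖x‖) →
    ∑ j, ‖w (V (T.starProjection (EuclideanSpace.single j 1)
      - T'.starProjection (EuclideanSpace.single j 1)))‖ ^ 2 ≤ s

/-- one stage of the decomposition works with the numbers `l, t, N, M` -/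
def StageOK (l : ℕ) (t : ℝ) (N M : ℕ) : Prop :=
  ∀ (X : Type) [NormedAddCommGroup X] [NormedSpace ℝ X] (R : ℕ → ℕ), IsSlow X R → N ≤ R l →
    ∀ (n : ℕ) (V : EuclideanSpace ℝ (Fin n) →ₗ[ℝ] X)
      (T : Submodule ℝ (EuclideanSpace ℝ (Fin n))) (c : ℝ), c ≤ 1 → HasCost V T c →
      ∃ T' : Submodule ℝ (EuclideanSpace ℝ (Fin n)), T' ≤ T ∧ Module.finrank ℝ T' ≤ M ∧
        (∀ f ∈ T, f ∈ T'ᗮ → ‖V f‖ ≤ t * ‖f‖) ∧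
        ∃ c' s : ℝ, 0 ≤ s ∧ HasCost V T' c' ∧ c' + 3 / 10 * s ≤ c ∧ HSle V T T' s

/-- generators of the set `BG g` -/
def IsGen (g : ℕ → ℕ) (e : ℕ → ℝ) : Prop :=
  (∃ i, e = Pi.single i 1) ∨
  ∃ (N : ℕ) (s : Finset (ℕ → ℝ)), s.card ≤ g N ∧ (∀ d ∈ s, d ∈ BG g ∧ ∀ i < N, d i = 0) ∧
    ∀ i, 0 ≤ e i ∧ ∃ d ∈ s, 2 * e i ≤ d i

/-- averages far out that are small on maxima of few elements of `BG g` -/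
def ClaimAt (g : ℕ → ℕ) (a : ℝ) : Prop :=
  ∀ (m : ℕ) (ε : ℝ), 0 < ε → ∀ N : ℕ, ∃ c : ℕ →₀ ℝ, (∀ i, 0 ≤ c i) ∧ (∀ i < N, c i = 0) ∧
    ∑ i ∈ c.support, c i = 1 ∧
    ∀ D : Fin (m + 1) → ℕ → ℝ, (∀ j, D j ∈ BG g) → ∀ e : ℕ → ℝ, (∀ i, ∃ j, e i ≤ D j i) →
      ∑ i ∈ c.support, c i * e i ≤ a + ε

/-- a strong failure of type 2 -/
def FarFromTwo (X : Type) [NormedAddCommGroup X] [NormedSpace ℝ X] : Prop :=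
  ∀ C : ℝ, ∃ (s : Finset ℕ) (x : ℕ → X), ∑ i ∈ s, ‖x i‖ ^ 2 ≤ 1 ∧
    ∀ ε : ℕ → ℝ, (∀ i, ε i = 1 ∨ ε i = -1) → C ≤ ‖∑ i ∈ s, ε i • x i‖ ^ 2

/-- As `IsSlow`, with projections of corank at most `K`. -/
def IsSlow1 (X : Type) [NormedAddCommGroup X] [NormedSpace ℝ X] (R : ℕ → ℕ) : Prop :=
  (∃ P : ℕ → X →ₗ[ℝ] X, (∀ K x, ‖P K x‖ ≤ ‖x‖) ∧ (∀ K x, P (K + 1) x = x → P K x = x) ∧
    (∀ K x, P K (P K x) = P K x) ∧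
    (∀ K, ∃ W : Submodule ℝ X, FiniteDimensional ℝ W ∧ Module.finrank ℝ W ≤ K ∧
      ∀ x, x - P K x ∈ W) ∧
    (∀ K (H : Submodule ℝ X), FiniteDimensional ℝ H → (∀ h ∈ H, P K h = h) →
      Module.finrank ℝ H ≤ R K →
      ∃ (m : ℕ) (u : X →ₗ[ℝ] EuclideanSpace ℝ (Fin m)), (∀ x, ‖u x‖ ≤ ‖x‖) ∧
        ∀ h ∈ H, ‖h‖ ^ 2 ≤ 8 * ‖u h‖ ^ 2)) ∧
  (∀ (ι : Type) (s : Finset ι) (x : ι → X) (a : ι → ℝ), ∑ j ∈ s, a j ^ 2 = 1 →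
    ‖∑ j ∈ s, a j • x j‖ ^ 2 + 3 / 10 * ∑ j ∈ s, ‖x j - a j • ∑ k ∈ s, a k • x k‖ ^ 2
      ≤ ∑ j ∈ s, ‖x j‖ ^ 2)

end Pool.Agent.Helper579.Beps
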