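import Mathlib
import Pool.Agent.Helper579.Beps.Defs

set_option maxHeartbeats 4000000

noncomputable section

namespace Pool.Agent.Helper965.Beps

open scoped RealInnerProductSpace

/-- Hahn-Banach for an atomic gauge. -/
theorem atomic_hb {G : Type*} {ι : Type*} [AddCommGroup G] [Module ℝ G] (c : ι → G) (w : ι → ℝ)
    (hw : ∀ i, 0 ≤ w i)
    (hs : ∀ (r : ℝ) (i : ι), ∃ i', c i' = r • c i ∧ w i' = |r| * w i)
    (hspan : ∀ g : G, ∃ l : List ι, (l.map c).sum = g)
    (D : Submodule ℝ G) (L : D →ₗ[ℝ] ℝ)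
    (hL : ∀ (d : D) (l : List ι), (l.map c).sum = (d : G) → L d ≤ (l.map w).sum) :
    ∃ g : G →ₗ[ℝ] ℝ, (∀ d : D, g d = L d) ∧ ∀ i, g (c i) ≤ w i := by
  classical
  set S : G → Set ℝ := fun x => {r | ∃ l : List ι, (l.map c).sum = x ∧ (l.map w).sum = r} with hS
  have hSn : ∀ x, (S x).Nonempty := by
    intro x
    obtain ⟨l, hl⟩ := hspan x
    exact ⟨_, l, hl, rfl⟩
  have hS0 : ∀ x, ∀ r ∈ S x, 0 ≤ r := by
    rintro x r ⟨l, -, rfl⟩
    apply List.sum_nonneg
    intro a ha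
    simp only [List.mem_map] at ha
    obtain ⟨i, -, rfl⟩ := ha
    exact hw i
  have hSb : ∀ x, BddBelow (S x) := fun x => ⟨0, fun r hr => hS0 x r hr⟩
  -- scaling
  have hsc : ∀ (r : ℝ) (l : List ι), ∃ l' : List ι, (l'.map c).sum = r • (l.map c).sum ∧
      (l'.map w).sum = |r| * (l.map w).sum := by
    intro r l
    induction l with
    | nil => exact ⟨[], by simp, by simp⟩
    | cons a l ih =>
      obtain ⟨l', h1, h2⟩ := ih
      obtain ⟨i', h3, h4⟩ := hs r a
      refine ⟨i' :: l', ?_, ?_⟩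
      · simp [h1, h3, smul_add]
      · simp [h2, h4, mul_add]
  have hle : ∀ (r : ℝ), 0 < r → ∀ x, sInf (S (r • x)) ≤ r * sInf (S x) := by
    intro r hr x
    rw [← div_le_iff₀' hr]
    apply le_csInf (hSn x)
    rintro s ⟨l, hl, rfl⟩
    rw [div_le_iff₀' hr]
    obtain ⟨l', h1, h2⟩ := hsc r l
    apply csInf_le (hSb _)
    refine ⟨l', by rw [h1, hl], ?_⟩
    rw [h2, abs_of_pos hr]
  have hhom : ∀ (r : ℝ), 0 < r → ∀ x, sInf (S (r • x)) = r * sInf (S x) := by
    intro r hr x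
    apply le_antisymm (hle r hr x)
    have h := hle r⁻¹ (inv_pos.mpr hr) (r • x)
    rw [smul_smul, inv_mul_cancel₀ hr.ne', one_smul] at h
    rw [← div_eq_inv_mul, le_div_iff₀' hr] at h
    exact h
  have hadd : ∀ x y, sInf (S (x + y)) ≤ sInf (S x) + sInf (S y) := by
    intro x y
    rw [← sub_le_iff_le_add]
    apply le_csInf (hSn x)
    rintro s ⟨l, hl, rfl⟩
    rw [sub_le_iff_le_add, ← sub_le_iff_le_add']
    apply le_csInf (hSn y)
    rintro s ⟨l', hl', rfl⟩
    rw [sub_le_iff_le_add']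
    apply csInf_le (hSb _)
    refine ⟨l ++ l', ?_, ?_⟩
    · rw [List.map_append, List.sum_append, hl, hl']
    · rw [List.map_append, List.sum_append]
  obtain ⟨g, hg1, hg2⟩ := exists_extension_of_le_sublinear ⟨D, L⟩ (fun x => sInf (S x)) hhom hadd
    (by
      intro d
      apply le_csInf (hSn _)
      rintro s ⟨l, hl, rfl⟩
      exact hL d l hl)
  refine ⟨g, fun d => hg1 d, fun i => ?_⟩
  refine (hg2 (c i)).trans ?_
  apply csInf_le (hSb _)
  exact ⟨[i], by simp, by simp⟩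

variable {X₁ X₂ : Type*} [NormedAddCommGroup X₁] [NormedSpace ℝ X₁] [NormedAddCommGroup X₂]
  [NormedSpace ℝ X₂]

/-- `x₁ ⊗ x₂` in coordinates with respect to a basis of `X₂` -/
def tens {M X₂ ι : Type*} [AddCommGroup M] [Module ℝ M] [AddCommGroup X₂] [Module ℝ X₂]
    (b : Module.Basis ι ℝ X₂) : M →ₗ[ℝ] X₂ →ₗ[ℝ] (ι →₀ M) :=
  LinearMap.mk₂ ℝ (fun x y => (b.repr y).mapRange (fun c => c • x) (zero_smul ℝ x))
    (by intro x x' y; ext i; simp [smul_add])
    (by intro c x y; ext i; simp only [Finsupp.mapRange_apply, Finsupp.smul_apply]; rw [smul_comm])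
    (by intro x y y'; ext i; simp [add_smul])
    (by intro c x y; ext i; simp [smul_smul])

theorem tens_apply {M X₂ ι : Type*} [AddCommGroup M] [Module ℝ M] [AddCommGroup X₂] [Module ℝ X₂]
    (b : Module.Basis ι ℝ X₂) (x : M) (y : X₂) (i : ι) : tens b x y i = (b.repr y i) • x := by
  simp [tens]

theorem tens_basis {M X₂ ι : Type*} [AddCommGroup M] [Module ℝ M] [AddCommGroup X₂] [Module ℝ X₂]
    (b : Module.Basis ι ℝ X₂) (x : M) (i : ι) : tens b x (b i) = Finsupp.single i x := by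
  classical
  ext j
  rw [tens_apply]
  by_cases h : i = j
  · subst h; simp
  · simp [h]

theorem span_expand {E : Type*} [NormedAddCommGroup E] [InnerProductSpace ℝ E] {m : ℕ}
    {f : Fin m → E} (hf : Orthonormal ℝ f) {w : E} (hw : w ∈ Submodule.span ℝ (Set.range f)) :
    ∑ k, inner ℝ (f k) w • f k = w := by
  classical
  induction hw using Submodule.span_induction with
  | mem x hx =>
    obtain ⟨j, rfl⟩ := hx
    have := orthonormal_iff_ite.mp hf
    simp [this]
  | zero => simp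
  | add x y _ _ hx hy =>
    conv_rhs => rw [← hx, ← hy]
    rw [← Finset.sum_add_distrib]
    exact Finset.sum_congr rfl fun k _ => by rw [inner_add_right, add_smul]
  | smul a x _ hx =>
    conv_rhs => rw [← hx]
    rw [Finset.smul_sum]
    exact Finset.sum_congr rfl fun k _ => by rw [inner_smul_right, smul_smul]

/-- one-sided extension, pure Hahn-Banach part -/
theorem hb_ext {X₁ X₂ : Type*} [NormedAddCommGroup X₁] [NormedSpace ℝ X₁] [NormedAddCommGroup X₂]
    [NormedSpace ℝ X₂] (Y : Submodule ℝ X₁) (B : Y →ₗ[ℝ] X₂ →ₗ[ℝ] ℝ) (K : ℝ) (hK : 0 ≤ K)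
    (h : ∀ (n : ℕ) (V : EuclideanSpace ℝ (Fin n) →ₗ[ℝ] X₁) (W : EuclideanSpace ℝ (Fin n) →ₗ[ℝ] X₂),
      ∃ (m : ℕ) (f : Fin m → EuclideanSpace ℝ (Fin n)), Orthonormal ℝ f ∧
        Submodule.span ℝ (Set.range f) = Y.comap V ∧
        ∀ y : Fin m → Y, (∀ i, (y i : X₁) = V (f i)) →
        ∑ i, B (y i) (W (f i)) ≤ K / 2 * (∑ j, ‖V (EuclideanSpace.single j 1)‖ ^ 2
          + ∑ j, ‖W (EuclideanSpace.single j 1)‖ ^ 2)) :
    ∃ B' : X₁ →ₗ[ℝ] X₂ →ₗ[ℝ] ℝ, (∀ (y : Y) x, B' y x = B y x) ∧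
      ∀ x₁ x₂, |B' x₁ x₂| ≤ K * ‖x₁‖ * ‖x₂‖ := by
  classical
  let b := Module.Basis.ofVectorSpace ℝ X₂
  let g0 : (Module.Basis.ofVectorSpaceIndex ℝ X₂ →₀ Y) →ₗ[ℝ]
    (Module.Basis.ofVectorSpaceIndex ℝ X₂ →₀ X₁) := Finsupp.mapRange.linearMap Y.subtype
  have hg0 : Function.Injective g0 := by
    intro x y hxy
    ext i
    have := DFunLike.congr_fun hxy i
    simpa [g0] using this
  let Λ : (Module.Basis.ofVectorSpaceIndex ℝ X₂ →₀ Y) →ₗ[ℝ] ℝ :=
    Finsupp.lsum ℝ (fun i => B.flip (b i))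
  have hΛ : ∀ (y : Y) (x : X₂), Λ (tens b y x) = B y x := by
    intro y x
    have : Λ ∘ₗ (tens b y) = B y := by
      apply b.ext
      intro i
      simp only [LinearMap.comp_apply]
      rw [tens_basis]
      simp [Λ]
    exact LinearMap.congr_fun this x
  let D := LinearMap.range g0
  let e := LinearEquiv.ofInjective g0 hg0
  let L : D →ₗ[ℝ] ℝ := Λ ∘ₗ (e.symm : D →ₗ[ℝ] _)
  have hLg : ∀ z (hz : g0 z ∈ D), L ⟨g0 z, hz⟩ = Λ z := by
    intro z hz
    have : (⟨g0 z, hz⟩ : D) = e z := by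
      ext1; simp [e]
    simp only [L, LinearMap.comp_apply, LinearEquiv.coe_coe]
    rw [this, LinearEquiv.symm_apply_apply]
  obtain ⟨g, hg1, hg2⟩ := atomic_hb (fun p : X₁ × X₂ => tens b p.1 p.2)
    (fun p => K / 2 * (‖p.1‖ ^ 2 + ‖p.2‖ ^ 2)) (fun p => by positivity)
    (by
      intro r p
      rcases le_or_gt 0 r with hr | hr
      · refine ⟨(√r • p.1, √r • p.2), ?_, ?_⟩
        · simp only [map_smul, LinearMap.smul_apply, smul_smul, Real.mul_self_sqrt hr]
        · simp only [norm_smul, mul_pow, Real.norm_eq_abs, sq_abs, Real.sq_sqrt hr, abs_of_nonneg hr]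
          ring
      · have hr' : 0 ≤ -r := by linarith
        refine ⟨(-√(-r) • p.1, √(-r) • p.2), ?_, ?_⟩
        · simp only [map_smul, LinearMap.smul_apply, smul_smul]
          congr 1
          have := Real.mul_self_sqrt hr'
          linarith
        · simp only [norm_smul, mul_pow, Real.norm_eq_abs, sq_abs, abs_neg, neg_sq, Real.sq_sqrt hr',
            abs_of_neg hr]
          ring)
    (by
      intro z
      refine ⟨(z.support.toList).map (fun i => (z i, b i)), ?_⟩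
      rw [List.map_map]
      have : ((fun p : X₁ × X₂ => tens b p.1 p.2) ∘ fun i => (z i, b i))
          = fun i => Finsupp.single i (z i) := by
        funext i
        simp only [Function.comp]
        exact tens_basis b (z i) i
      rw [this, Finset.sum_map_toList]
      exact Finsupp.sum_single z)
    D L
    (by
      rintro ⟨d, z, rfl⟩ l hl
      rw [hLg]
      simp only at hl
      set n := l.length with hn
      let V : EuclideanSpace ℝ (Fin n) →ₗ[ℝ] X₁ :=
        (EuclideanSpace.basisFun (Fin n) ℝ).toBasis.constr ℝ (fun j => (l.get j).1)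
      let W : EuclideanSpace ℝ (Fin n) →ₗ[ℝ] X₂ :=
        (EuclideanSpace.basisFun (Fin n) ℝ).toBasis.constr ℝ (fun j => (l.get j).2)
      have hV : ∀ j, V (EuclideanSpace.single j 1) = (l.get j).1 := by
        intro j
        have := (EuclideanSpace.basisFun (Fin n) ℝ).toBasis.constr_basis ℝ (fun j => (l.get j).1) j
        simpa [V] using this
      have hW : ∀ j, W (EuclideanSpace.single j 1) = (l.get j).2 := by
        intro j
        have := (EuclideanSpace.basisFun (Fin n) ℝ).toBasis.constr_basis ℝ (fun j => (l.get j).2) j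
        simpa [W] using this
      obtain ⟨m, f, hf, hsp, hB⟩ := h n V W
      have hfY : ∀ i, V (f i) ∈ Y := by
        intro i
        have : f i ∈ Y.comap V := by
          rw [← hsp]; exact Submodule.subset_span ⟨i, rfl⟩
        exact this
      -- the vectors w_i
      let wv : Module.Basis.ofVectorSpaceIndex ℝ X₂ → EuclideanSpace ℝ (Fin n) := fun i =>
        ∑ j, (b.repr (l.get j).2 i) • EuclideanSpace.single j (1 : ℝ)
      have hVw : ∀ i, V (wv i) = (z i : X₁) := by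
        intro i
        have h1 : (z i : X₁) = (g0 z) i := by simp [g0]
        rw [h1, ← hl]
        simp only [wv, map_sum, map_smul, hV]
        have h2 : (l.map (fun p : X₁ × X₂ => tens b p.1 p.2)).sum
            = ∑ j : Fin n, tens b (l.get j).1 (l.get j).2 := by
          rw [← List.sum_ofFn]
          congr 1
          conv_lhs => rw [← List.ofFn_get l]
          rw [List.map_ofFn]
          rfl
        rw [h2, Finset.sum_apply']
        simp only [tens_apply]
        rfl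
      have hwY : ∀ i, wv i ∈ Submodule.span ℝ (Set.range f) := by
        intro i
        rw [hsp, Submodule.mem_comap, hVw]
        exact (z i).2
      have hWf : ∀ (i) (v : EuclideanSpace ℝ (Fin n)), b.repr (W v) i = inner ℝ v (wv i) := by
        intro i v
        have h1 : v = ∑ j, v j • EuclideanSpace.single j (1 : ℝ) := by
          have := (EuclideanSpace.basisFun (Fin n) ℝ).sum_repr v
          simpa using this.symm
        conv_lhs => rw [h1]
        simp only [map_sum, map_smul, hW, wv, inner_sum, inner_smul_right]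
        rw [Finset.sum_apply']
        apply Finset.sum_congr rfl
        intro j _
        simp [EuclideanSpace.inner_single_right, mul_comm]
      have key : z = ∑ k, tens b (⟨V (f k), hfY k⟩ : Y) (W (f k)) := by
        ext i
        rw [Finset.sum_apply']
        simp only [tens_apply]
        rw [← hVw i]
        conv_lhs => rw [← span_expand hf (hwY i)]
        simp [map_sum, hWf]
      have hfin := hB (fun k => ⟨V (f k), hfY k⟩) (fun k => rfl)
      have h3 : Λ z = ∑ k, B (⟨V (f k), hfY k⟩ : Y) (W (f k)) := by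
        conv_lhs => rw [key]
        rw [map_sum]
        exact Finset.sum_congr rfl fun k _ => hΛ _ _
      rw [h3]
      refine hfin.trans (le_of_eq ?_)
      simp only [hV, hW]
      rw [← Finset.sum_add_distrib, Finset.mul_sum]
      conv_rhs => rw [← List.ofFn_get l]
      rw [List.map_ofFn, List.sum_ofFn]
      rfl)
  refine ⟨(tens b : X₁ →ₗ[ℝ] X₂ →ₗ[ℝ] _).compr₂ g, ?_, ?_⟩
  · intro y x
    simp only [LinearMap.compr₂_apply]
    have h1 : tens b (y : X₁) x = g0 (tens b y x) := by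
      ext i
      simp [g0, tens_apply]
    rw [h1]
    have h2 := hg1 ⟨g0 (tens b y x), ⟨_, rfl⟩⟩
    rw [h2, hLg, hΛ]
  · have hle : ∀ x₁ x₂, g (tens b x₁ x₂) ≤ K * ‖x₁‖ * ‖x₂‖ := by
      intro x₁ x₂
      by_cases h1 : x₁ = 0
      · simp [h1]
      by_cases h2 : x₂ = 0
      · simp [h2]
      have n1 : 0 < ‖x₁‖ := norm_pos_iff.mpr h1
      have n2 : 0 < ‖x₂‖ := norm_pos_iff.mpr h2
      have h3 := hg2 (‖x₂‖ • x₁, ‖x₁‖ • x₂)
      simp only [map_smul, LinearMap.smul_apply, smul_eq_mul, norm_smul, norm_norm] at h3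
      have h4 : ‖x₂‖ * (‖x₁‖ * g (tens b x₁ x₂)) ≤ ‖x₂‖ * (‖x₁‖ * (K * ‖x₁‖ * ‖x₂‖)) := by
        refine le_trans (le_of_eq ?_) (h3.trans (le_of_eq ?_)) <;> ring
      exact le_of_mul_le_mul_left (le_of_mul_le_mul_left h4 n2) n1
    intro x₁ x₂
    simp only [LinearMap.compr₂_apply]
    rw [abs_le]
    constructor
    · have := hle (-x₁) x₂
      simp only [map_neg, LinearMap.neg_apply, norm_neg] at this
      linarith
    · exact hle x₁ x₂

/-- Hilbert-Schmidt sums only decrease on an orthonormal family -/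
theorem hs_bessel {H : Type*} [NormedAddCommGroup H] [InnerProductSpace ℝ H] {n m : ℕ}
    (W : EuclideanSpace ℝ (Fin n) →ₗ[ℝ] H) (f : Fin m → EuclideanSpace ℝ (Fin n))
    (hf : Orthonormal ℝ f) :
    ∑ i, ‖W (f i)‖ ^ 2 ≤ ∑ j, ‖W (EuclideanSpace.single j 1)‖ ^ 2 := by
  classical
  let R := LinearMap.range W
  let W' : EuclideanSpace ℝ (Fin n) →ₗ[ℝ] R := W.rangeRestrict
  let u := stdOrthonormalBasis ℝ R
  have h1 : ∀ v, ‖W v‖ ^ 2 = ∑ k, ‖inner ℝ (LinearMap.adjoint W' (u k)) v‖ ^ 2 := by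
    intro v
    have h2 : ‖W v‖ = ‖W' v‖ := rfl
    rw [h2, ← u.sum_sq_norm_inner_right (W' v)]
    apply Finset.sum_congr rfl
    intro k _
    rw [LinearMap.adjoint_inner_left]
  simp only [h1]
  rw [Finset.sum_comm]
  conv_rhs => rw [Finset.sum_comm]
  apply Finset.sum_le_sum
  intro k _
  have h3 := (EuclideanSpace.basisFun (Fin n) ℝ).sum_sq_norm_inner_left (LinearMap.adjoint W' (u k))
  simp only [EuclideanSpace.basisFun_apply] at h3
  rw [h3]
  have h4 := hf.sum_inner_products_le (s := Finset.univ) (LinearMap.adjoint W' (u k))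
  refine le_trans (le_of_eq ?_) h4
  apply Finset.sum_congr rfl
  intro i _
  rw [norm_inner_symm]


/-- pairs of operators have an orthonormal basis of small total cost on every subspace -/
def PairQ (X₁ X₂ : Type*) [NormedAddCommGroup X₁] [NormedSpace ℝ X₁] [NormedAddCommGroup X₂]
    [NormedSpace ℝ X₂] (C : ℝ) : Prop :=
  ∀ (n : ℕ) (V : EuclideanSpace ℝ (Fin n) →ₗ[ℝ] X₁) (W : EuclideanSpace ℝ (Fin n) →ₗ[ℝ] X₂)
    (T : Submodule ℝ (EuclideanSpace ℝ (Fin n))),
    ∃ (m : ℕ) (f : Fin m → EuclideanSpace ℝ (Fin n)), Orthonormal ℝ f ∧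
      Submodule.span ℝ (Set.range f) = T ∧
      ∑ i, (‖V (f i)‖ ^ 2 + ‖W (f i)‖ ^ 2) ≤ C * (∑ j, ‖V (EuclideanSpace.single j 1)‖ ^ 2
          + ∑ j, ‖W (EuclideanSpace.single j 1)‖ ^ 2)

/-- one-sided extension of bilinear forms -/
theorem one_sided {X₁ X₂ : Type*} [NormedAddCommGroup X₁] [NormedSpace ℝ X₁]
    [NormedAddCommGroup X₂] [NormedSpace ℝ X₂] (C : ℝ) (hC : 0 ≤ C) (hP : PairQ X₁ X₂ C)
    (Y : Submodule ℝ X₁) (B : Y →ₗ[ℝ] X₂ →ₗ[ℝ] ℝ) (b : ℝ) (hb : 0 ≤ b)
    (hB : ∀ (y : Y) x, |B y x| ≤ b * ‖(y : X₁)‖ * ‖x‖) :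
    ∃ B' : X₁ →ₗ[ℝ] X₂ →ₗ[ℝ] ℝ, (∀ (y : Y) x, B' y x = B y x) ∧
      ∀ x₁ x₂, |B' x₁ x₂| ≤ (b * C) * ‖x₁‖ * ‖x₂‖ := by
  apply hb_ext Y B (b * C) (mul_nonneg hb hC)
  intro n V W
  obtain ⟨m, f, hf, hsp, hle⟩ := hP n V W (Y.comap V)
  refine ⟨m, f, hf, hsp, ?_⟩
  intro y hy
  calc ∑ i, B (y i) (W (f i)) ≤ ∑ i, b / 2 * (‖V (f i)‖ ^ 2 + ‖W (f i)‖ ^ 2) := by
        apply Finset.sum_le_sum
        intro i _
        refine (le_abs_self _).trans ((hB _ _).trans ?_)
        rw [hy i]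
        nlinarith [sq_nonneg (‖V (f i)‖ - ‖W (f i)‖), hb,
          mul_nonneg hb (sq_nonneg (‖V (f i)‖ - ‖W (f i)‖))]
    _ = b / 2 * ∑ i, (‖V (f i)‖ ^ 2 + ‖W (f i)‖ ^ 2) := by rw [Finset.mul_sum]
    _ ≤ b / 2 * (C * (∑ j, ‖V (EuclideanSpace.single j 1)‖ ^ 2
          + ∑ j, ‖W (EuclideanSpace.single j 1)‖ ^ 2)) :=
        mul_le_mul_of_nonneg_left hle (by positivity)
    _ = b * C / 2 * (∑ j, ‖V (EuclideanSpace.single j 1)‖ ^ 2
          + ∑ j, ‖W (EuclideanSpace.single j 1)‖ ^ 2) := by ring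

open Pool.Agent.Helper579.Beps in
/-- `QStar` implies the extension property for Hilbert space. -/
theorem ep_of_qstar {X : Type} [NormedAddCommGroup X] [NormedSpace ℝ X] (C : ℝ)
    (hQ : QStar X C) {H : Type*} [NormedAddCommGroup H] [InnerProductSpace ℝ H] [CompleteSpace H]
    (Y : Submodule ℝ X) (g : Y →L[ℝ] H) : ∃ f : X →L[ℝ] H, ∀ y : Y, f y = g y := by
  have hP : PairQ X H (max C 1) := by
    intro n V W T
    obtain ⟨m, f, hf, hsp, hle⟩ := hQ n V T
    refine ⟨m, f, hf, hsp, ?_⟩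
    have h1 := hs_bessel W f hf
    have h2 : 0 ≤ ∑ j, ‖V (EuclideanSpace.single j 1)‖ ^ 2 :=
      Finset.sum_nonneg fun _ _ => by positivity
    have h3 : 0 ≤ ∑ j, ‖W (EuclideanSpace.single j 1)‖ ^ 2 :=
      Finset.sum_nonneg fun _ _ => by positivity
    rw [Finset.sum_add_distrib, mul_add]
    refine add_le_add (hle.trans ?_) (h1.trans ?_)
    · exact mul_le_mul_of_nonneg_right (le_max_left _ _) h2
    · nlinarith [le_max_right C 1]
  let B : Y →ₗ[ℝ] H →ₗ[ℝ] ℝ := (innerₗ H).comp (g : Y →ₗ[ℝ] H)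
  have hB : ∀ y x, B y x = inner ℝ (g y) x := by
    intro y x
    simp [B]
  obtain ⟨B', hB1, hB2⟩ := one_sided (max C 1) (le_trans zero_le_one (le_max_right _ _)) hP Y B ‖g‖
    g.opNorm_nonneg (by
      intro y x
      rw [hB]
      refine (abs_real_inner_le_norm _ _).trans ?_
      exact mul_le_mul_of_nonneg_right (g.le_opNorm y) (norm_nonneg _))
  let B'' : X →L[ℝ] H →L[ℝ] ℝ := B'.mkContinuous₂ (‖g‖ * max C 1) (by
    intro x y
    rw [Real.norm_eq_abs]
    exact hB2 x y)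
  let f0 : X →ₗ[ℝ] H :=
    { toFun := fun x => (InnerProductSpace.toDual ℝ H).symm (B'' x)
      map_add' := by intro x y; rw [map_add, map_add]
      map_smul' := by
        intro c x
        rw [map_smul, LinearIsometryEquiv.map_smulₛₗ]
        simp }
  refine ⟨f0.mkContinuous ‖B''‖ (by
    intro x
    change ‖(InnerProductSpace.toDual ℝ H).symm (B'' x)‖ ≤ _
    rw [LinearIsometryEquiv.norm_map]
    exact B''.le_opNorm x), ?_⟩
  intro y
  apply ext_inner_right ℝ
  intro v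
  have h1 : inner ℝ ((InnerProductSpace.toDual ℝ H).symm (B'' (y : X))) v = B'' (y : X) v :=
    InnerProductSpace.toDual_symm_apply
  have h2 : B'' (y : X) v = inner ℝ (g y) v := by
    rw [← hB, ← hB1 y v]
    rfl
  exact h1.trans h2

open Pool.Agent.Helper579.Beps in
/-- `QStar` of `X ⊕₂ X` gives the pair property of `X` and subspaces. -/
theorem pair_of_qstar {X : Type} [NormedAddCommGroup X] [NormedSpace ℝ X] (C : ℝ)
    (hQ : QStar (WithLp 2 (X × X)) C) {X₂ : Type*} [NormedAddCommGroup X₂] [NormedSpace ℝ X₂]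
    (ι : X₂ →ₗ[ℝ] X) (hι : ∀ x, ‖ι x‖ = ‖x‖) : PairQ X X₂ C := by
  intro n V W T
  let U : EuclideanSpace ℝ (Fin n) →ₗ[ℝ] WithLp 2 (X × X) :=
    ((WithLp.linearEquiv 2 ℝ (X × X)).symm : (X × X) →ₗ[ℝ] WithLp 2 (X × X)).comp
      (V.prod (ι.comp W))
  have hU : ∀ v, ‖U v‖ ^ 2 = ‖V v‖ ^ 2 + ‖W v‖ ^ 2 := by
    intro v
    rw [WithLp.prod_norm_sq_eq_of_L2]
    have h1 : (U v).fst = V v := rfl
    have h2 : (U v).snd = ι (W v) := rfl
    rw [h1, h2, hι]
  obtain ⟨m, f, hf, hsp, hle⟩ := hQ n U T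
  refine ⟨m, f, hf, hsp, ?_⟩
  simp only [hU] at hle
  rw [← Finset.sum_add_distrib]
  exact hle

open Pool.Agent.Helper579.Beps in
/-- `QStar` of `X ⊕₂ X` implies the bilinear extension property for subspaces. -/
theorem beps_of_qstar {X : Type} [NormedAddCommGroup X] [NormedSpace ℝ X] (C : ℝ)
    (hQ : QStar (WithLp 2 (X × X)) C) (Y : Submodule ℝ X) (B : Y →ₗ[ℝ] Y →ₗ[ℝ] ℝ)
    (b : ℝ) (hB : ∀ y z : Y, |B y z| ≤ b * ‖y‖ * ‖z‖) :
    ∃ B' : X →L[ℝ] X →L[ℝ] ℝ, ∀ y z : Y, B' y z = B y z := by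
  have hQ' : QStar (WithLp 2 (X × X)) (max C 0) := by
    intro n V T
    obtain ⟨m, f, hf, hsp, hle⟩ := hQ n V T
    refine ⟨m, f, hf, hsp, hle.trans ?_⟩
    exact mul_le_mul_of_nonneg_right (le_max_left _ _)
      (Finset.sum_nonneg fun _ _ => by positivity)
  have hC : 0 ≤ max C 0 := le_max_right _ _
  have hb' : 0 ≤ max b 0 := le_max_right _ _
  have hPY : PairQ X Y (max C 0) := pair_of_qstar _ hQ' Y.subtype (fun x => rfl)
  have hPX : PairQ X X (max C 0) := pair_of_qstar _ hQ' LinearMap.id (fun x => rfl)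
  obtain ⟨B1, h11, h12⟩ := one_sided (max C 0) hC hPY Y B (max b 0) hb' (by
    intro y z
    refine (hB y z).trans ?_
    have h1 : ‖(y : X)‖ = ‖y‖ := rfl
    rw [h1]
    exact mul_le_mul_of_nonneg_right (mul_le_mul_of_nonneg_right (le_max_left _ _)
      (norm_nonneg _)) (norm_nonneg _))
  obtain ⟨B2, h21, h22⟩ := one_sided (max C 0) hC hPX Y B1.flip (max b 0 * max C 0)
    (mul_nonneg hb' hC) (by
    intro y z
    simp only [LinearMap.flip_apply]
    refine (h12 z y).trans (le_of_eq ?_)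
    have : ‖(y : X)‖ = ‖y‖ := rfl
    rw [this]
    ring)
  refine ⟨(B2.flip).mkContinuous₂ (max b 0 * max C 0 * max C 0) (by
    intro x z
    rw [Real.norm_eq_abs, LinearMap.flip_apply]
    refine (h22 z x).trans (le_of_eq ?_)
    ring), ?_⟩
  intro y z
  rw [LinearMap.mkContinuous₂_apply, LinearMap.flip_apply, h21, LinearMap.flip_apply, h11]

end Pool.Agent.Helper965.Beps
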