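import Pool.Agent.Helper579.Beps.Defs

set_option maxHeartbeats 4000000

open Finset

noncomputable section

namespace Pool.Agent.Helper579.Beps



theorem dense_prod (X : Type) [NormedAddCommGroup X] [NormedSpace ℝ X] :
    ∃ J : WithLp 2 (X × X) →ₗᵢ[ℝ] WithLp 2 (UniformSpace.Completion X × UniformSpace.Completion X),
      DenseRange J := by
  let c : X →ₗᵢ[ℝ] UniformSpace.Completion X := UniformSpace.Completion.toComplₗᵢ
  let J0 : WithLp 2 (X × X) →ₗ[ℝ] WithLp 2 (UniformSpace.Completion X × UniformSpace.Completion X) :=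
    (WithLp.linearEquiv 2 ℝ (UniformSpace.Completion X × UniformSpace.Completion X)).symm.toLinearMap ∘ₗ
      (c.toLinearMap.prodMap c.toLinearMap) ∘ₗ (WithLp.linearEquiv 2 ℝ (X × X)).toLinearMap
  refine ⟨⟨J0, ?_⟩, ?_⟩
  · intro v
    rw [WithLp.prod_norm_eq_of_L2, WithLp.prod_norm_eq_of_L2]
    have h1 : ‖(J0 v).fst‖ = ‖v.fst‖ := c.norm_map _
    have h2 : ‖(J0 v).snd‖ = ‖v.snd‖ := c.norm_map _
    rw [h1, h2]
  · have hd : DenseRange (Prod.map c c) :=
      DenseRange.prodMap UniformSpace.Completion.denseRange_coe UniformSpace.Completion.denseRange_coe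
    have he : DenseRange (WithLp.prodContinuousLinearEquiv 2 ℝ (UniformSpace.Completion X) (UniformSpace.Completion X)).symm :=
      (WithLp.prodContinuousLinearEquiv 2 ℝ (UniformSpace.Completion X) (UniformSpace.Completion X)).symm.surjective.denseRange
    have h3 : DenseRange ((WithLp.prodContinuousLinearEquiv 2 ℝ (UniformSpace.Completion X) (UniformSpace.Completion X)).symm ∘ Prod.map c c) :=
      he.comp hd (WithLp.prodContinuousLinearEquiv 2 ℝ (UniformSpace.Completion X) (UniformSpace.Completion X)).symm.continuous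
    have h4 : DenseRange (((WithLp.prodContinuousLinearEquiv 2 ℝ (UniformSpace.Completion X) (UniformSpace.Completion X)).symm ∘ Prod.map c c) ∘ (WithLp.prodContinuousLinearEquiv 2 ℝ X X)) := by
      have hs : Function.Surjective (WithLp.prodContinuousLinearEquiv 2 ℝ X X) := (WithLp.prodContinuousLinearEquiv 2 ℝ X X).surjective
      unfold DenseRange at h3 ⊢
      rwa [hs.range_comp]
    exact h4

end Pool.Agent.Helper579.Beps
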