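import Pool.Agent.Helper579.Beps.Defs

set_option maxHeartbeats 4000000

open Finset

noncomputable section

namespace Pool.Agent.Helper579.Beps



theorem qstar_dense {X X' : Type} [NormedAddCommGroup X] [NormedSpace ℝ X]
    [NormedAddCommGroup X'] [NormedSpace ℝ X'] (J : X →ₗᵢ[ℝ] X') (hJ : DenseRange J)
    (C : ℝ) (hC : 0 ≤ C) (h : QStar X C) : QStar X' (4 * C + 1) := by
  intro n V T
  obtain ⟨A, hA⟩ : ∃ A, A = ∑ j, ‖V (EuclideanSpace.single j 1)‖ ^ 2 := ⟨_, rfl⟩
  rw [← hA]
  have hA0 : 0 ≤ A := by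
    rw [hA]
    exact Finset.sum_nonneg fun j _ => by positivity
  have hexp : ∀ f : EuclideanSpace ℝ (Fin n),
      f = ∑ j, f j • (EuclideanSpace.single j 1 : EuclideanSpace ℝ (Fin n)) := by
    intro f
    ext i
    simp [Finset.sum_apply, Pi.single_apply]
  obtain ⟨D, hD⟩ : ∃ D : ℝ, D = 4 * C * n + 2 * (n:ℝ) ^ 3 + 1 := ⟨_, rfl⟩
  have hD0 : 0 < D := by rw [hD]; positivity
  rcases hA0.eq_or_lt with hA1 | hA1
  · -- V = 0
    have hV0 : ∀ j, V (EuclideanSpace.single j 1) = 0 := by
      intro j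
      have h1 : ∑ j, ‖V (EuclideanSpace.single j 1)‖ ^ 2 = 0 := by rw [← hA, ← hA1]
      rw [Finset.sum_eq_zero_iff_of_nonneg (fun j _ => by positivity)] at h1
      have h2 := h1 j (Finset.mem_univ j)
      exact norm_eq_zero.mp (pow_eq_zero_iff (two_ne_zero) |>.mp h2)
    have hV : ∀ f, V f = 0 := by
      intro f
      rw [hexp f, map_sum]
      apply Finset.sum_eq_zero
      intro j _
      rw [map_smul, hV0 j, smul_zero]
    obtain ⟨m, f, hf1, hf2, -⟩ := h n 0 T
    refine ⟨m, f, hf1, hf2, ?_⟩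
    rw [← hA1, mul_zero]
    apply le_of_eq
    apply Finset.sum_eq_zero
    intro i _
    rw [hV]
    simp
  · obtain ⟨η, hη⟩ : ∃ η, η = Real.sqrt (A / D) := ⟨_, rfl⟩
    have hη0 : 0 < η := by rw [hη]; positivity
    have hη2 : η ^ 2 * D = A := by
      rw [hη, Real.sq_sqrt (by positivity)]
      field_simp
    have hx : ∀ j : Fin n, ∃ x : X, ‖V (EuclideanSpace.single j 1) - J x‖ < η := by
      intro j
      obtain ⟨x, hx⟩ := hJ.exists_dist_lt (V (EuclideanSpace.single j 1)) hη0
      exact ⟨x, by rwa [← dist_eq_norm]⟩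
    choose x hx using hx
    obtain ⟨V', hV'⟩ : ∃ V' : EuclideanSpace ℝ (Fin n) →ₗ[ℝ] X, ∀ f, V' f = ∑ j, f j • x j := by
      refine ⟨{ toFun := fun f => ∑ j, f j • x j
                map_add' := ?_
                map_smul' := ?_ }, fun f => rfl⟩
      · intro f g
        rw [← Finset.sum_add_distrib]
        apply Finset.sum_congr rfl
        intro j _
        rw [← add_smul]
        rfl
      · intro c f
        rw [RingHom.id_apply, Finset.smul_sum]
        apply Finset.sum_congr rfl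
        intro j _
        rw [smul_smul]
        rfl
    have hV'e : ∀ j, V' (EuclideanSpace.single j 1) = x j := by
      intro j
      rw [hV']
      rw [Finset.sum_eq_single j]
      · simp
      · intro i _ hij
        simp [hij]
      · intro hj
        exact absurd (Finset.mem_univ j) hj
    obtain ⟨m, f, hf1, hf2, hf3⟩ := h n V' T
    refine ⟨m, f, hf1, hf2, ?_⟩
    have hm : m ≤ n := by
      have := hf1.linearIndependent.fintype_card_le_finrank
      simpa using this
    have hxj : ∀ j, ‖x j‖ ^ 2 ≤ 2 * ‖V (EuclideanSpace.single j 1)‖ ^ 2 + 2 * η ^ 2 := by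
      intro j
      have h1 : ‖x j‖ ≤ ‖V (EuclideanSpace.single j 1)‖ + η := by
        rw [← J.norm_map (x j)]
        have h2 : J (x j) = V (EuclideanSpace.single j 1) -
            (V (EuclideanSpace.single j 1) - J (x j)) := by abel
        rw [h2]
        exact (norm_sub_le _ _).trans (by linarith [hx j])
      have h3 := norm_nonneg (x j)
      have h4 := norm_nonneg (V (EuclideanSpace.single j 1))
      nlinarith [sq_nonneg (‖V (EuclideanSpace.single j 1)‖ - η)]
    have hdiff : ∀ i, ‖V (f i) - J (V' (f i))‖ ≤ n * η := by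
      intro i
      have h1 : V (f i) - J (V' (f i)) = ∑ j, f i j • (V (EuclideanSpace.single j 1) - J (x j)) := by
        have hVfi : V (f i) = ∑ j, f i j • V (EuclideanSpace.single j 1) := by
          conv_lhs => rw [hexp (f i), map_sum]
          apply Finset.sum_congr rfl
          intro j _
          rw [map_smul]
        have hJV : J (V' (f i)) = ∑ j, f i j • J (x j) := by
          rw [hV' (f i), map_sum]
          apply Finset.sum_congr rfl
          intro j _
          rw [map_smul]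
        rw [hVfi, hJV, ← Finset.sum_sub_distrib]
        apply Finset.sum_congr rfl
        intro j _
        rw [smul_sub]
      rw [h1]
      calc ‖∑ j, f i j • (V (EuclideanSpace.single j 1) - J (x j))‖
          ≤ ∑ j, ‖f i j • (V (EuclideanSpace.single j 1) - J (x j))‖ := norm_sum_le _ _
        _ ≤ ∑ _j : Fin n, η := by
            apply Finset.sum_le_sum
            intro j _
            rw [norm_smul]
            have h2 : ‖f i j‖ ≤ 1 := by
              rw [← hf1.1 i]
              exact PiLp.norm_apply_le (f i) j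
            calc ‖f i j‖ * ‖V (EuclideanSpace.single j 1) - J (x j)‖ ≤ 1 * η :=
                  mul_le_mul h2 (hx j).le (norm_nonneg _) one_pos.le
              _ = η := one_mul _
        _ = n * η := by simp
    have hVf : ∀ i, ‖V (f i)‖ ^ 2 ≤ 2 * ‖V' (f i)‖ ^ 2 + 2 * (n * η) ^ 2 := by
      intro i
      have h1 : ‖V (f i)‖ ≤ ‖V' (f i)‖ + n * η := by
        rw [← J.norm_map (V' (f i))]
        have h2 : V (f i) = J (V' (f i)) + (V (f i) - J (V' (f i))) := by abel
        calc ‖V (f i)‖ = ‖J (V' (f i)) + (V (f i) - J (V' (f i)))‖ := by rw [← h2]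
          _ ≤ ‖J (V' (f i))‖ + ‖V (f i) - J (V' (f i))‖ := norm_add_le _ _
          _ ≤ _ := by linarith [hdiff i]
      have h3 := norm_nonneg (V (f i))
      have h4 := norm_nonneg (V' (f i))
      nlinarith [sq_nonneg (‖V' (f i)‖ - n * η)]
    have hS1 : ∑ i, ‖V (f i)‖ ^ 2 ≤ 2 * ∑ i, ‖V' (f i)‖ ^ 2 + m * (2 * (n * η) ^ 2) := by
      calc ∑ i, ‖V (f i)‖ ^ 2 ≤ ∑ i, (2 * ‖V' (f i)‖ ^ 2 + 2 * (n * η) ^ 2) :=
            Finset.sum_le_sum fun i _ => hVf i
        _ = _ := by
            rw [Finset.sum_add_distrib, ← Finset.mul_sum]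
            simp
    have hS2 : ∑ j, ‖V' (EuclideanSpace.single j 1)‖ ^ 2 ≤ 2 * A + n * (2 * η ^ 2) := by
      calc ∑ j, ‖V' (EuclideanSpace.single j 1)‖ ^ 2
          ≤ ∑ j, (2 * ‖V (EuclideanSpace.single j 1)‖ ^ 2 + 2 * η ^ 2) :=
            Finset.sum_le_sum fun j _ => by rw [hV'e]; exact hxj j
        _ = _ := by
            rw [Finset.sum_add_distrib, ← Finset.mul_sum, ← hA]
            simp
    have hmn : (m:ℝ) ≤ n := by exact_mod_cast hm
    have hS3 : (m:ℝ) * (2 * (n * η) ^ 2) ≤ n * (2 * (n * η) ^ 2) :=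
      mul_le_mul_of_nonneg_right hmn (by positivity)
    have hS4 : C * ∑ j, ‖V' (EuclideanSpace.single j 1)‖ ^ 2 ≤ C * (2 * A + n * (2 * η ^ 2)) :=
      mul_le_mul_of_nonneg_left hS2 hC
    have hfin : (4 * C * n + 2 * (n:ℝ) ^ 3) * η ^ 2 ≤ A := by
      rw [← hη2, hD]
      nlinarith [sq_nonneg η]
    calc ∑ i, ‖V (f i)‖ ^ 2 ≤ 2 * ∑ i, ‖V' (f i)‖ ^ 2 + m * (2 * (n * η) ^ 2) := hS1
      _ ≤ 2 * (C * (2 * A + n * (2 * η ^ 2))) + n * (2 * (n * η) ^ 2) := by linarith
      _ = 4 * C * A + (4 * C * n + 2 * (n:ℝ) ^ 3) * η ^ 2 := by ring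
      _ ≤ 4 * C * A + A := by linarith
      _ = (4 * C + 1) * A := by ring

end Pool.Agent.Helper579.Beps
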