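import Pool.Agent.Helper579.Beps.Defs

set_option maxHeartbeats 4000000

open Finset

noncomputable section

namespace Pool.Agent.Helper579.Beps



/-- first coordinate -/
def spF (X : Type) [NormedAddCommGroup X] [NormedSpace ℝ X] : WithLp 2 (X × X) →ₗ[ℝ] X :=
  LinearMap.fst ℝ X X ∘ₗ (WithLp.linearEquiv 2 ℝ (X × X)).toLinearMap

/-- second coordinate -/
def spS (X : Type) [NormedAddCommGroup X] [NormedSpace ℝ X] : WithLp 2 (X × X) →ₗ[ℝ] X :=
  LinearMap.snd ℝ X X ∘ₗ (WithLp.linearEquiv 2 ℝ (X × X)).toLinearMap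

lemma spF_apply {X : Type} [NormedAddCommGroup X] [NormedSpace ℝ X] (z : WithLp 2 (X × X)) :
    spF X z = z.fst := rfl

lemma spS_apply {X : Type} [NormedAddCommGroup X] [NormedSpace ℝ X] (z : WithLp 2 (X × X)) :
    spS X z = z.snd := rfl

/-- the product of two maps -/
def spP {X : Type} [NormedAddCommGroup X] [NormedSpace ℝ X] (p : X →ₗ[ℝ] X) :
    WithLp 2 (X × X) →ₗ[ℝ] WithLp 2 (X × X) :=
  (WithLp.linearEquiv 2 ℝ (X × X)).symm.toLinearMap ∘ₗ (p.prodMap p) ∘ₗ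
    (WithLp.linearEquiv 2 ℝ (X × X)).toLinearMap

lemma spP_fst {X : Type} [NormedAddCommGroup X] [NormedSpace ℝ X] (p : X →ₗ[ℝ] X)
    (z : WithLp 2 (X × X)) : (spP p z).fst = p z.fst := rfl

lemma spP_snd {X : Type} [NormedAddCommGroup X] [NormedSpace ℝ X] (p : X →ₗ[ℝ] X)
    (z : WithLp 2 (X × X)) : (spP p z).snd = p z.snd := rfl

lemma sp_ext {X : Type} [NormedAddCommGroup X] [NormedSpace ℝ X] {z w : WithLp 2 (X × X)}
    (h1 : z.fst = w.fst) (h2 : z.snd = w.snd) : z = w := by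
  apply (WithLp.linearEquiv 2 ℝ (X × X)).injective
  exact Prod.ext h1 h2

lemma sp_norm {X : Type} [NormedAddCommGroup X] [NormedSpace ℝ X] (z : WithLp 2 (X × X)) :
    ‖z‖ ^ 2 = ‖z.fst‖ ^ 2 + ‖z.snd‖ ^ 2 := WithLp.prod_norm_sq_eq_of_L2 z

/-- the map into the product Euclidean space -/
def spU {X : Type} [NormedAddCommGroup X] [NormedSpace ℝ X] {m1 m2 : ℕ}
    (u1 : X →ₗ[ℝ] EuclideanSpace ℝ (Fin m1)) (u2 : X →ₗ[ℝ] EuclideanSpace ℝ (Fin m2)) :
    WithLp 2 (X × X) →ₗ[ℝ] EuclideanSpace ℝ (Fin (m1 + m2)) where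
  toFun z := WithLp.toLp 2 (Fin.addCases (fun i => u1 z.fst i) (fun i => u2 z.snd i))
  map_add' x y := by
    ext i
    refine Fin.addCases (fun i => ?_) (fun i => ?_) i
    · have : (x + y).fst = x.fst + y.fst := rfl
      simp [this]
    · have : (x + y).snd = x.snd + y.snd := rfl
      simp [this]
  map_smul' c x := by
    ext i
    refine Fin.addCases (fun i => ?_) (fun i => ?_) i
    · have : (c • x).fst = c • x.fst := rfl
      simp [this]
    · have : (c • x).snd = c • x.snd := rfl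
      simp [this]

lemma spU_norm {X : Type} [NormedAddCommGroup X] [NormedSpace ℝ X] {m1 m2 : ℕ}
    (u1 : X →ₗ[ℝ] EuclideanSpace ℝ (Fin m1)) (u2 : X →ₗ[ℝ] EuclideanSpace ℝ (Fin m2))
    (z : WithLp 2 (X × X)) :
    ‖spU u1 u2 z‖ ^ 2 = ‖u1 z.fst‖ ^ 2 + ‖u2 z.snd‖ ^ 2 := by
  rw [EuclideanSpace.norm_sq_eq, EuclideanSpace.norm_sq_eq, EuclideanSpace.norm_sq_eq,
    Fin.sum_univ_add]
  simp [spU]

theorem slow_prod {X : Type} [NormedAddCommGroup X] [NormedSpace ℝ X] (R : ℕ → ℕ)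
    (h : IsSlow1 X R) : IsSlow (WithLp 2 (X × X)) R := by
  obtain ⟨⟨P, h1, h2, h3, h4, h5⟩, h6⟩ := h
  refine ⟨⟨fun K => spP (P K), ?_, ?_, ?_, ?_, ?_⟩, ?_⟩
  · intro K z
    have e : ‖spP (P K) z‖ ^ 2 ≤ ‖z‖ ^ 2 := by
      rw [sp_norm, sp_norm, spP_fst, spP_snd]
      have a1 := h1 K z.fst
      have a2 := h1 K z.snd
      gcongr
    exact (pow_le_pow_iff_left₀ (norm_nonneg _) (norm_nonneg _) two_ne_zero).1 e
  · intro K z hz
    have a1 := congrArg (fun w => w.fst) hz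
    have a2 := congrArg (fun w => w.snd) hz
    simp only [spP_fst, spP_snd] at a1 a2
    exact sp_ext (h2 K _ a1) (h2 K _ a2)
  · intro K z
    exact sp_ext (h3 K _) (h3 K _)
  · intro K
    obtain ⟨W, hW, hWr, hWx⟩ := h4 K
    refine ⟨LinearMap.range ((WithLp.linearEquiv 2 ℝ (X × X)).symm.toLinearMap ∘ₗ
      (W.subtype.prodMap W.subtype)), ?_, ?_, ?_⟩
    · infer_instance
    · refine (LinearMap.finrank_range_le _).trans ?_
      rw [Module.finrank_prod]
      omega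
    · intro z
      exact ⟨(⟨z.fst - P K z.fst, hWx _⟩, ⟨z.snd - P K z.snd, hWx _⟩), sp_ext rfl rfl⟩
  · intro K H hH hHP hHR
    have f1 : FiniteDimensional ℝ (H.map (spF X)) := inferInstance
    have f2 : FiniteDimensional ℝ (H.map (spS X)) := inferInstance
    obtain ⟨m1, u1, hu1, hv1⟩ := h5 K (H.map (spF X)) f1 (by
      rintro _ ⟨z, hz, rfl⟩
      have := congrArg (fun w => w.fst) (hHP z hz)
      exact this) ((Submodule.finrank_map_le _ _).trans hHR)
    obtain ⟨m2, u2, hu2, hv2⟩ := h5 K (H.map (spS X)) f2 (by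
      rintro _ ⟨z, hz, rfl⟩
      have := congrArg (fun w => w.snd) (hHP z hz)
      exact this) ((Submodule.finrank_map_le _ _).trans hHR)
    refine ⟨m1 + m2, spU u1 u2, ?_, ?_⟩
    · intro z
      have e : ‖spU u1 u2 z‖ ^ 2 ≤ ‖z‖ ^ 2 := by
        rw [sp_norm, spU_norm]
        have a1 := hu1 z.fst
        have a2 := hu2 z.snd
        gcongr
      exact (pow_le_pow_iff_left₀ (norm_nonneg _) (norm_nonneg _) two_ne_zero).1 e
    · intro z hz
      rw [sp_norm, spU_norm]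
      have a1 := hv1 z.fst ⟨z, hz, rfl⟩
      have a2 := hv2 z.snd ⟨z, hz, rfl⟩
      linarith
  · intro ι s x a ha
    have b1 := h6 ι s (fun j => (x j).fst) a ha
    have b2 := h6 ι s (fun j => (x j).snd) a ha
    have c1 : (∑ j ∈ s, a j • x j).fst = ∑ j ∈ s, a j • (x j).fst := by
      rw [← spF_apply, map_sum]
      simp only [map_smul, spF_apply]
    have c2 : (∑ j ∈ s, a j • x j).snd = ∑ j ∈ s, a j • (x j).snd := by
      rw [← spS_apply, map_sum]
      simp only [map_smul, spS_apply]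
    have d1 : ∀ j, (x j - a j • ∑ k ∈ s, a k • x k).fst
        = (x j).fst - a j • ∑ k ∈ s, a k • (x k).fst := by
      intro j
      rw [← c1]; rfl
    have d2 : ∀ j, (x j - a j • ∑ k ∈ s, a k • x k).snd
        = (x j).snd - a j • ∑ k ∈ s, a k • (x k).snd := by
      intro j
      rw [← c2]; rfl
    simp only [sp_norm, Finset.sum_add_distrib, c1, c2, d1, d2]
    linarith

end Pool.Agent.Helper579.Beps
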