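import Pool.Agent.Helper579.Beps.Norm
import Pool.Agent.Helper579.Beps.P_slow_prod
import Pool.Agent.Helper579.Beps.P_dense_prod
import Pool.Agent.Helper579.Beps.P_qstar_dense
import Pool.Agent.Helper579.Beps.Chain
import Pool.Agent.Helper579.Beps.Form

set_option maxHeartbeats 4000000

open Finset

noncomputable section

namespace Pool.Agent.Helper579.Beps

theorem far_completion {X : Type} [NormedAddCommGroup X] [NormedSpace ℝ X] (h : FarFromTwo X) :
    FarFromTwo (UniformSpace.Completion X) := by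
  intro C
  obtain ⟨s, x, hs, hx⟩ := h C
  refine ⟨s, fun i => (x i : UniformSpace.Completion X), ?_, ?_⟩
  · simpa only [UniformSpace.Completion.norm_coe] using hs
  · intro ε hε
    have h1 : ∑ i ∈ s, ε i • (x i : UniformSpace.Completion X)
        = ((∑ i ∈ s, ε i • x i : X) : UniformSpace.Completion X) := by
      have := map_sum (UniformSpace.Completion.toComplₗᵢ (𝕜 := ℝ) (E := X)) (fun i => ε i • x i) s
      simp only [map_smul] at this
      exact this.symm
    rw [h1, UniformSpace.Completion.norm_coe]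
    exact hx ε hε

/-- The example. -/
theorem main_space : ∃ (X : Type) (_ : NormedAddCommGroup X) (_ : NormedSpace ℝ X)
    (_ : CompleteSpace X), QStar X 861 ∧ QStar (WithLp 2 (X × X)) 861 ∧ FarFromTwo X := by
  obtain ⟨R, hR⟩ := abs_main
  let g : ℕ → ℕ := fun K => 5 ^ (R K)
  have h1 : IsSlow1 (X0 g) R := slow1_X0 g R (fun K => le_rfl)
  refine ⟨UniformSpace.Completion (X0 g), inferInstance, inferInstance, inferInstance, ?_, ?_, ?_⟩
  · have := qstar_dense (UniformSpace.Completion.toComplₗᵢ (𝕜 := ℝ) (E := X0 g))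
      UniformSpace.Completion.denseRange_coe 215 (by norm_num) (hR _ (slow_of_slow1 h1))
    norm_num at this
    exact this
  · obtain ⟨J, hJ⟩ := dense_prod (X0 g)
    have := qstar_dense J hJ 215 (by norm_num) (hR _ (slow_prod R h1))
    norm_num at this
    exact this
  · exact far_completion (far_X0 g)

/-- `FarFromTwo` contradicts type 2. -/
theorem far_not_type2 {X : Type} [NormedAddCommGroup X] [NormedSpace ℝ X] (h : FarFromTwo X) :
    ¬ ∃ C : ℝ, ∀ (n : ℕ) (x : Fin n → X),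
      √((∑ ε : Fin n → Bool, ‖∑ i, (if ε i then x i else -x i)‖ ^ 2) / 2 ^ n)
        ≤ C * √(∑ i, ‖x i‖ ^ 2) := by
  rintro ⟨C, hC⟩
  obtain ⟨s, x, hs, hx⟩ := h (C ^ 2 + 1)
  let e : s ≃ Fin s.card := s.equivFin
  have h1 := hC s.card (fun i => x (e.symm i))
  have h2 : ∑ i : Fin s.card, ‖x (e.symm i)‖ ^ 2 = ∑ i ∈ s, ‖x i‖ ^ 2 := by
    rw [← Finset.sum_coe_sort s (fun i => ‖x i‖ ^ 2)]
    exact Equiv.sum_comp e.symm (fun i : s => ‖x i‖ ^ 2)
  have h3 : ∀ ε : Fin s.card → Bool,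
      C ^ 2 + 1 ≤ ‖∑ i, (if ε i then x (e.symm i) else -x (e.symm i))‖ ^ 2 := by
    intro ε
    let η : ℕ → ℝ := fun i => if h : i ∈ s then (if ε (e ⟨i, h⟩) then 1 else -1) else 1
    have h4 := hx η (by
      intro i
      simp only [η]
      split_ifs <;> simp)
    have h5 : ∑ i ∈ s, η i • x i = ∑ i, (if ε i then x (e.symm i) else -x (e.symm i)) := by
      rw [← Finset.sum_coe_sort s (fun i => η i • x i),
        ← Equiv.sum_comp e.symm (fun i : s => η i • x i)]
      apply Finset.sum_congr rfl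
      intro i _
      have h6 : η (e.symm i : ℕ) = if ε i then 1 else -1 := by
        simp only [η]
        rw [dif_pos (e.symm i).2]
        simp
      rw [h6]
      split_ifs <;> simp
    rw [← h5]
    exact h4
  have h7 : C ^ 2 + 1 ≤ (∑ ε : Fin s.card → Bool,
      ‖∑ i, (if ε i then x (e.symm i) else -x (e.symm i))‖ ^ 2) / 2 ^ s.card := by
    rw [le_div_iff₀ (by positivity)]
    have := Finset.card_nsmul_le_sum (Finset.univ : Finset (Fin s.card → Bool)) _ _
      (fun ε _ => h3 ε)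
    simp only [Finset.card_univ, Fintype.card_fun, Fintype.card_bool, Fintype.card_fin,
      nsmul_eq_mul, Nat.cast_pow, Nat.cast_ofNat] at this
    linarith
  have h8 : √(C ^ 2 + 1) ≤ C * √(∑ i ∈ s, ‖x i‖ ^ 2) := by
    rw [← h2]
    exact (Real.sqrt_le_sqrt h7).trans h1
  have h9 : C * √(∑ i ∈ s, ‖x i‖ ^ 2) ≤ |C| := by
    have h10 : √(∑ i ∈ s, ‖x i‖ ^ 2) ≤ 1 := Real.sqrt_le_one.mpr hs
    have h11 := Real.sqrt_nonneg (∑ i ∈ s, ‖x i‖ ^ 2)
    calc C * √(∑ i ∈ s, ‖x i‖ ^ 2) ≤ |C| * √(∑ i ∈ s, ‖x i‖ ^ 2) :=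
          mul_le_mul_of_nonneg_right (le_abs_self C) h11
      _ ≤ |C| * 1 := mul_le_mul_of_nonneg_left h10 (abs_nonneg C)
      _ = |C| := mul_one _
  have h12 : |C| < √(C ^ 2 + 1) := by
    rw [← Real.sqrt_sq_eq_abs]
    exact Real.sqrt_lt_sqrt (sq_nonneg C) (by linarith)
  linarith

end Pool.Agent.Helper579.Beps
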