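import Pool.Agent.Helper579.Beps.Defs

set_option maxHeartbeats 4000000

open Finset

noncomputable section

namespace Pool.Agent.Helper579.Beps



theorem BG_good_box (g : ℕ → ℕ) : Good g {d : ℕ → ℝ | ∀ i, 0 ≤ d i ∧ d i ≤ 1} := by
  constructor
  · have : {d : ℕ → ℝ | ∀ i, 0 ≤ d i ∧ d i ≤ 1} = ⋂ i, {d : ℕ → ℝ | 0 ≤ d i ∧ d i ≤ 1} := by
      ext d; simp
    rw [this]
    refine isClosed_iInter fun i => ?_
    exact (isClosed_le continuous_const (continuous_apply i)).inter
      (isClosed_le (continuous_apply i) continuous_const)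
  · intro x hx y hy a b ha hb hab i
    have h1 := hx i
    have h2 := hy i
    simp only [Pi.add_apply, Pi.smul_apply, smul_eq_mul]
    constructor
    · have := mul_nonneg ha h1.1
      have := mul_nonneg hb h2.1
      linarith
    · have := mul_le_mul_of_nonneg_left h1.2 ha
      have := mul_le_mul_of_nonneg_left h2.2 hb
      linarith
  · intro d hd i; exact hd i
  · intro d hd e he i
    exact ⟨(he i).1, (he i).2.trans (hd i).2⟩
  · intro i j
    by_cases h : j = i
    · subst h; simp
    · simp [Pi.single_apply, h]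
  · intro N s _ hs e he i
    obtain ⟨h0, d, hd, h2⟩ := he i
    have := ((hs d hd).1 i).2
    exact ⟨h0, by linarith⟩

theorem BG_good (g : ℕ → ℕ) : Good g (BG g) := by
  have hBG : BG g = ⋂ (S : Set (ℕ → ℝ)) (_ : Good g S), S := by
    ext d; simp [BG]
  constructor
  · rw [hBG]
    exact isClosed_iInter fun S => isClosed_iInter fun hS => hS.closed
  · rw [hBG]
    exact convex_iInter fun S => convex_iInter fun hS => hS.conv
  · intro d hd
    exact hd _ (BG_good_box g)
  · intro d hd e he S hS
    exact hS.solid d (hd S hS) e he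
  · intro i S hS
    exact hS.unit i
  · intro N s hs h e he S hS
    exact hS.sup N s hs (fun d hd => ⟨(h d hd).1 S hS, (h d hd).2⟩) e he

end Pool.Agent.Helper579.Beps
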