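import Pool.Agent.Helper579.Beps.Defs

set_option maxHeartbeats 4000000

open Finset

noncomputable section

namespace Pool.Agent.Helper579.Beps



theorem Nsq_le {g : ℕ → ℕ} (x : X0 g) (d : ℕ → ℝ) (hd : d ∈ Adm x) : Nsq x ≤ phi d x := by
  have hb : BddBelow ((fun d => phi d x) '' Adm x) := by
    refine ⟨0, ?_⟩
    rintro _ ⟨e, _, rfl⟩
    exact Finset.sum_nonneg (fun i _ => div_nonneg (sq_nonneg _) (Real.sqrt_nonneg _))
  exact csInf_le hb ⟨d, hd, rfl⟩

end Pool.Agent.Helper579.Beps
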