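import Pool.Agent.Helper579.Beps.Defs
import Pool.Agent.Helper579.Beps.P_BG_good

set_option maxHeartbeats 4000000

open Finset

noncomputable section

namespace Pool.Agent.Helper579.Beps



theorem BG_compact (g : ℕ → ℕ) : IsCompact (BG g) := by
  have h1 : IsCompact (Set.univ.pi (fun _ : ℕ => Set.Icc (0:ℝ) 1)) :=
    isCompact_univ_pi fun _ => isCompact_Icc
  refine h1.of_isClosed_subset (BG_good g).closed ?_
  intro d hd i _
  exact (BG_good g).box d hd i

end Pool.Agent.Helper579.Beps
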