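import Pool.Agent.Helper579.Beps.Defs
import Pool.Agent.Helper579.Beps.P_BG_good

set_option maxHeartbeats 4000000

open Finset

noncomputable section

namespace Pool.Agent.Helper579.Beps

theorem BG_pos (g : ℕ → ℕ) (s : Finset ℕ) : ∃ d ∈ BG g, ∀ i ∈ s, 0 < d i := by
  rcases s.eq_empty_or_nonempty with rfl | hs
  · exact ⟨Pi.single 0 1, (BG_good g).unit 0, fun i hi => by simp at hi⟩
  · have hc : (0 : ℝ) < s.card := by exact_mod_cast hs.card_pos
    refine ⟨∑ i ∈ s, (1 / (s.card : ℝ)) • (Pi.single i 1 : ℕ → ℝ), ?_, ?_⟩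
    · refine (BG_good g).conv.sum_mem (fun i _ => by positivity) ?_ (fun i _ => (BG_good g).unit i)
      rw [Finset.sum_const, nsmul_eq_mul]
      field_simp
    · intro i hi
      rw [Finset.sum_apply]
      have h1 : ∀ j ∈ s, 0 ≤ ((1 / (s.card : ℝ)) • (Pi.single j 1 : ℕ → ℝ)) i := by
        intro j _
        rw [Pi.smul_apply, smul_eq_mul]
        refine mul_nonneg (by positivity) ?_
        by_cases h : i = j
        · subst h; simp
        · simp [Pi.single_apply, h]
      refine Finset.sum_pos' h1 ⟨i, hi, ?_⟩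
      rw [Pi.smul_apply, smul_eq_mul, Pi.single_eq_same]
      positivity

end Pool.Agent.Helper579.Beps
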