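import Pool.Agent.Helper579.Beps.Defs
import Pool.Agent.Helper579.Beps.P_BG_good
import Pool.Agent.Helper579.Beps.P_BG_compact
import Pool.Agent.Helper579.Beps.P_BG_pos

set_option maxHeartbeats 4000000

open Finset

noncomputable section

namespace Pool.Agent.Helper579.Beps



theorem exists_min {g : ℕ → ℕ} (x : X0 g) : ∃ d ∈ Adm x, Nsq x = phi d x := by
  obtain ⟨d0, hd0, hp0⟩ := BG_pos g (su x)
  have hco : ∀ i ∈ su x, 0 < co x i ^ 2 := by
    intro i hi
    have h1 : co x i ≠ 0 := Finsupp.mem_support_iff.1 hi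
    positivity
  set c := phi d0 x with hc
  have hc0 : 0 ≤ c := Finset.sum_nonneg fun i _ => div_nonneg (sq_nonneg _) (Real.sqrt_nonneg _)
  set K : Set (ℕ → ℝ) := BG g ∩ {d | ∀ i ∈ su x, (co x i ^ 2 / (c + 1)) ^ 2 ≤ d i} with hK
  have hcl : IsClosed {d : ℕ → ℝ | ∀ i ∈ su x, (co x i ^ 2 / (c + 1)) ^ 2 ≤ d i} := by
    simp only [Set.setOf_forall]
    exact isClosed_iInter fun i => isClosed_iInter fun _ =>
      isClosed_le continuous_const (continuous_apply i)
  have hKc : IsCompact K := (BG_compact g).inter_right hcl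
  have hKpos : ∀ d ∈ K, ∀ i ∈ su x, 0 < d i := by
    intro d hd i hi
    have h1 := hd.2 i hi
    have h2 := hco i hi
    have h3 : 0 < (co x i ^ 2 / (c + 1)) ^ 2 := by positivity
    linarith
  have hcont : ContinuousOn (fun d : ℕ → ℝ => phi d x) K := by
    unfold phi
    refine continuousOn_finset_sum _ fun i hi => ?_
    refine ContinuousOn.div continuousOn_const
      (Real.continuous_sqrt.comp (continuous_apply i)).continuousOn fun d hd => ?_
    exact (Real.sqrt_pos.2 (hKpos d hd i hi)).ne'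
  have hin : ∀ d ∈ Adm x, phi d x ≤ c → d ∈ K := by
    intro d hd hle
    refine ⟨hd.1, fun i hi => ?_⟩
    have h1 : co x i ^ 2 / Real.sqrt (d i) ≤ phi d x :=
      Finset.single_le_sum (f := fun i => co x i ^ 2 / Real.sqrt (d i))
        (fun j _ => div_nonneg (sq_nonneg _) (Real.sqrt_nonneg _)) hi
    have h2 : 0 < Real.sqrt (d i) := Real.sqrt_pos.2 (hd.2 i hi)
    have h3 : co x i ^ 2 / (c + 1) ≤ Real.sqrt (d i) := by
      rw [div_le_iff₀ (by linarith)]
      rw [div_le_iff₀ h2] at h1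
      nlinarith
    have h4 : 0 ≤ co x i ^ 2 / (c + 1) := by positivity
    calc (co x i ^ 2 / (c + 1)) ^ 2 ≤ (Real.sqrt (d i)) ^ 2 := pow_le_pow_left₀ h4 h3 2
      _ = d i := Real.sq_sqrt (hd.2 i hi).le
  have hd0K : d0 ∈ K := hin d0 ⟨hd0, hp0⟩ le_rfl
  obtain ⟨d, hdK, hmin⟩ := hKc.exists_isMinOn ⟨d0, hd0K⟩ hcont
  have hdA : d ∈ Adm x := ⟨hdK.1, hKpos d hdK⟩
  refine ⟨d, hdA, ?_⟩
  have hleast : IsLeast ((fun d => phi d x) '' Adm x) (phi d x) := by
    refine ⟨⟨d, hdA, rfl⟩, ?_⟩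
    rintro _ ⟨d', hd', rfl⟩
    by_cases h : phi d' x ≤ c
    · exact hmin (hin d' hd' h)
    · have h1 : phi d x ≤ phi d0 x := hmin hd0K
      simp only
      linarith
  exact hleast.csInf_eq

end Pool.Agent.Helper579.Beps
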