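import Pool.Agent.Helper579.Beps.Defs
import Pool.Agent.Helper579.Beps.P_BG_good
import Pool.Agent.Helper579.Beps.P_exists_min
import Pool.Agent.Helper579.Beps.P_Nsq_le

set_option maxHeartbeats 4000000

open Finset

noncomputable section

namespace Pool.Agent.Helper579.Beps



theorem phi_ee (g : ℕ → ℕ) (i : ℕ) (t : ℝ) (ht : t ≠ 0) (d : ℕ → ℝ) :
    phi d (ee g i t) = t ^ 2 / Real.sqrt (d i) := by
  unfold phi
  have h1 : su (ee g i t) = {i} := Finsupp.support_single_ne_zero i ht
  have h2 : co (ee g i t) i = t := Finsupp.single_eq_same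
  rw [h1, Finset.sum_singleton, h2]

theorem Nsq_ee (g : ℕ → ℕ) (i : ℕ) (t : ℝ) : Nsq (ee g i t) = t ^ 2 := by
  obtain ⟨d, hd, hN⟩ := exists_min (ee g i t)
  by_cases ht : t = 0
  · rw [hN]
    have h1 : su (ee g i t) = ∅ := by
      subst ht
      change (Finsupp.single i (0:ℝ)).support = ∅
      rw [Finsupp.single_zero, Finsupp.support_zero]
    unfold phi
    rw [h1, Finset.sum_empty, ht]
    norm_num
  · have hsu : su (ee g i t) = {i} := Finsupp.support_single_ne_zero i ht
    apply le_antisymm
    · have h := Nsq_le (ee g i t) (Pi.single i 1) ⟨(BG_good g).unit i, fun j hj => by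
        rw [hsu, Finset.mem_singleton] at hj
        rw [hj]; simp⟩
      rw [phi_ee g i t ht] at h
      simpa using h
    · rw [hN, phi_ee g i t ht]
      have hi0 : 0 < d i := hd.2 i (by rw [hsu]; exact Finset.mem_singleton_self i)
      have hi1 : d i ≤ 1 := ((BG_good g).box d hd.1 i).2
      have hs0 : 0 < Real.sqrt (d i) := Real.sqrt_pos.2 hi0
      have hs1 : Real.sqrt (d i) ≤ 1 := by
        rw [Real.sqrt_le_left (by norm_num)]
        linarith
      rw [le_div_iff₀ hs0]
      nlinarith [sq_nonneg t]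

end Pool.Agent.Helper579.Beps
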