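import Pool.Agent.Helper579.Beps.Defs
import Pool.Agent.Helper579.Beps.P_BG_good
import Pool.Agent.Helper579.Beps.P_exists_min

set_option maxHeartbeats 4000000

open Finset

noncomputable section

namespace Pool.Agent.Helper579.Beps



theorem sum_sq_le {g : ℕ → ℕ} (x : X0 g) : ∑ i ∈ su x, co x i ^ 2 ≤ Nsq x := by
  obtain ⟨d, hd, hN⟩ := exists_min x
  rw [hN]
  unfold phi
  apply Finset.sum_le_sum
  intro i hi
  have h0 : 0 < d i := hd.2 i hi
  have h1 : d i ≤ 1 := ((BG_good g).box d hd.1 i).2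
  have h2 : 0 < Real.sqrt (d i) := Real.sqrt_pos.2 h0
  have h3 : Real.sqrt (d i) ≤ 1 := Real.sqrt_le_one.2 h1
  rw [le_div_iff₀ h2]
  nlinarith [sq_nonneg (co x i)]

end Pool.Agent.Helper579.Beps
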