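import Pool.Agent.Helper579.Beps.Defs
import Pool.Agent.Helper579.Beps.P_sum_sq_le

set_option maxHeartbeats 4000000

open Finset

noncomputable section

namespace Pool.Agent.Helper579.Beps



theorem Nsq_eq_zero {g : ℕ → ℕ} (x : X0 g) (h : Nsq x = 0) : x = 0 := by
  have h1 := sum_sq_le x
  rw [h] at h1
  have h2 : ∑ i ∈ su x, co x i ^ 2 = 0 := le_antisymm h1 (Finset.sum_nonneg fun i _ => sq_nonneg _)
  rw [Finset.sum_eq_zero_iff_of_nonneg (fun i _ => sq_nonneg _)] at h2
  have h3 : ∀ i, (show ℕ →₀ ℝ from x) i = 0 := by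
    intro i
    by_cases hi : i ∈ (show ℕ →₀ ℝ from x).support
    · exact pow_eq_zero_iff (two_ne_zero) |>.1 (h2 i hi)
    · exact Finsupp.notMem_support_iff.1 hi
  exact Finsupp.ext h3

end Pool.Agent.Helper579.Beps
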