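import Pool.Agent.Helper579.Beps.Defs
import Pool.Agent.Helper579.Beps.P_Nsq_le

set_option maxHeartbeats 4000000

open Finset

noncomputable section

namespace Pool.Agent.Helper579.Beps



theorem Nsq_le_sum {g : ℕ → ℕ} (x : X0 g) (d : ℕ → ℝ) (hd : d ∈ BG g)
    (s : Finset ℕ) (hs : ∀ i, co x i ≠ 0 → i ∈ s ∧ 0 < d i) :
    Nsq x ≤ ∑ i ∈ s, co x i ^ 2 / √(d i) := by
  have hmem : ∀ i, i ∈ su x ↔ co x i ≠ 0 := fun i => Finsupp.mem_support_iff
  refine (Nsq_le x d ⟨hd, fun i hi => (hs i ((hmem i).1 hi)).2⟩).trans ?_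
  exact Finset.sum_le_sum_of_subset_of_nonneg (fun i hi => (hs i ((hmem i).1 hi)).1)
    (fun i _ _ => div_nonneg (sq_nonneg _) (Real.sqrt_nonneg _))

end Pool.Agent.Helper579.Beps
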