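import Pool.Agent.Helper579.Beps.Defs
import Pool.Agent.Helper579.Beps.P_exists_min
import Pool.Agent.Helper579.Beps.P_Nsq_le

set_option maxHeartbeats 4000000

open Finset

noncomputable section

namespace Pool.Agent.Helper579.Beps



theorem co_smul' {g : ℕ → ℕ} (c : ℝ) (x : X0 g) (i : ℕ) : co (c • x) i = c * co x i := rfl

theorem mem_su' {g : ℕ → ℕ} (x : X0 g) (i : ℕ) : i ∈ su x ↔ co x i ≠ 0 := Finsupp.mem_support_iff

theorem su_smul' {g : ℕ → ℕ} {c : ℝ} (hc : c ≠ 0) (x : X0 g) : su (c • x) = su x := by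
  ext i
  rw [mem_su', mem_su', co_smul']
  simp [hc]

theorem phi_smul' {g : ℕ → ℕ} {c : ℝ} (hc : c ≠ 0) (x : X0 g) (d : ℕ → ℝ) :
    phi d (c • x) = c ^ 2 * phi d x := by
  unfold phi
  rw [su_smul' hc, Finset.mul_sum]
  refine Finset.sum_congr rfl fun i _ => ?_
  rw [co_smul']; ring

theorem Adm_smul' {g : ℕ → ℕ} {c : ℝ} (hc : c ≠ 0) (x : X0 g) : Adm (c • x) = Adm x := by
  unfold Adm; rw [su_smul' hc]

theorem Nsq_smul {g : ℕ → ℕ} (c : ℝ) (x : X0 g) : Nsq (c • x) = c ^ 2 * Nsq x := by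
  by_cases hc : c = 0
  · subst hc
    have e0 : ((0 : ℝ) • x : X0 g) = 0 := zero_smul ℝ x
    rw [e0]
    obtain ⟨d, -, hd⟩ := exists_min (0 : X0 g)
    rw [hd]
    have : su (0 : X0 g) = ∅ := Finsupp.support_zero
    unfold phi
    rw [this]
    simp
  · obtain ⟨d, hdA, hd⟩ := exists_min x
    obtain ⟨d', hdA', hd'⟩ := exists_min (c • x)
    apply le_antisymm
    · rw [hd, ← phi_smul' hc]
      exact Nsq_le _ _ (by rw [Adm_smul' hc]; exact hdA)
    · rw [hd', phi_smul' hc]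
      have := Nsq_le x d' (by rw [← Adm_smul' hc]; exact hdA')
      exact mul_le_mul_of_nonneg_left this (sq_nonneg c)

end Pool.Agent.Helper579.Beps
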