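import Pool.Agent.Helper579.Beps.Defs
import Pool.Agent.Helper579.Beps.P_BG_good
import Pool.Agent.Helper579.Beps.P_Nsq_le

set_option maxHeartbeats 4000000

open Finset

noncomputable section

namespace Pool.Agent.Helper579.Beps



theorem fo_tang (a b : ℝ) (ha : 0 < a) (hb : 0 < b) :
    1 / √b - (a - b) / (2 * (b * √b)) ≤ 1 / √a := by
  have hs : 0 < √a := Real.sqrt_pos.mpr ha
  have ht : 0 < √b := Real.sqrt_pos.mpr hb
  have hs2 : √a ^ 2 = a := Real.sq_sqrt ha.le
  have ht2 : √b ^ 2 = b := Real.sq_sqrt hb.le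
  generalize √a = s at *
  generalize √b = t at *
  subst hs2 ht2
  have e : 1 / s - (1 / t - (s ^ 2 - t ^ 2) / (2 * (t ^ 2 * t))) =
      (s - t) ^ 2 * (s + 2 * t) / (2 * s * t ^ 3) := by
    field_simp
    ring
  have h : 0 ≤ (s - t) ^ 2 * (s + 2 * t) / (2 * s * t ^ 3) := by positivity
  linarith

theorem first_order {g : ℕ → ℕ} (x : X0 g) (d : ℕ → ℝ) (hd : d ∈ Adm x) (hm : Nsq x = phi d x)
    (e : ℕ → ℝ) (he : e ∈ BG g) :
    ∑ i ∈ su x, co x i ^ 2 * e i / (d i * √(d i)) ≤ Nsq x := by
  obtain ⟨hdB, hdpos⟩ := hd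
  have hG := BG_good g
  have hkey : ∀ θ : ℝ, 0 < θ → θ < 1 →
      ∑ i ∈ su x, co x i ^ 2 * (e i - d i) /
        (((1 - θ) * d i + θ * e i) * √((1 - θ) * d i + θ * e i)) ≤ 0 := by
    intro θ h0 h1
    have hmem : (1 - θ) • d + θ • e ∈ BG g :=
      hG.conv hdB he (by linarith) h0.le (by ring)
    have hpos : ∀ i ∈ su x, 0 < (1 - θ) * d i + θ * e i := by
      intro i hi
      have h2 := hdpos i hi
      have h3 := (hG.box e he i).1
      have h4 : 0 < (1 - θ) * d i := mul_pos (by linarith) h2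
      have h5 : 0 ≤ θ * e i := mul_nonneg h0.le h3
      linarith
    have hN := Nsq_le x ((1 - θ) • d + θ • e) ⟨hmem, fun i hi => by
      simpa using hpos i hi⟩
    rw [hm] at hN
    unfold phi at hN
    simp only [Pi.add_apply, Pi.smul_apply, smul_eq_mul] at hN
    have hterm : ∀ i ∈ su x, co x i ^ 2 / √((1 - θ) * d i + θ * e i) +
        θ / 2 * (co x i ^ 2 * (e i - d i) /
        (((1 - θ) * d i + θ * e i) * √((1 - θ) * d i + θ * e i))) ≤ co x i ^ 2 / √(d i) := by
      intro i hi
      have h6 := fo_tang (d i) ((1 - θ) * d i + θ * e i) (hdpos i hi) (hpos i hi)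
      have h7 := mul_le_mul_of_nonneg_left h6 (sq_nonneg (co x i))
      have e1 : co x i ^ 2 * (1 / √((1 - θ) * d i + θ * e i) -
          (d i - ((1 - θ) * d i + θ * e i)) /
            (2 * (((1 - θ) * d i + θ * e i) * √((1 - θ) * d i + θ * e i)))) =
          co x i ^ 2 / √((1 - θ) * d i + θ * e i) +
        θ / 2 * (co x i ^ 2 * (e i - d i) /
        (((1 - θ) * d i + θ * e i) * √((1 - θ) * d i + θ * e i))) := by
        have h8 := hpos i hi
        have h9 : 0 < √((1 - θ) * d i + θ * e i) := Real.sqrt_pos.mpr h8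
        generalize √((1 - θ) * d i + θ * e i) = s at *
        have h10 : d i - ((1 - θ) * d i + θ * e i) = θ * (d i - e i) := by ring
        rw [h10]
        generalize (1 - θ) * d i + θ * e i = D at *
        field_simp
        ring
      rw [e1] at h7
      rw [mul_one_div] at h7
      exact h7
    have hsum := Finset.sum_le_sum hterm
    rw [Finset.sum_add_distrib, ← Finset.mul_sum] at hsum
    have h11 : θ / 2 * ∑ i ∈ su x, co x i ^ 2 * (e i - d i) /
        (((1 - θ) * d i + θ * e i) * √((1 - θ) * d i + θ * e i)) ≤ 0 := by linarith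
    by_contra hcon
    push Not at hcon
    have h12 := mul_pos (half_pos h0) hcon
    linarith
  have hcont : ContinuousAt (fun θ : ℝ => ∑ i ∈ su x, co x i ^ 2 * (e i - d i) /
        (((1 - θ) * d i + θ * e i) * √((1 - θ) * d i + θ * e i))) 0 := by
    refine tendsto_finset_sum _ fun i hi => ?_
    have h2 := hdpos i hi
    have : ContinuousAt (fun θ : ℝ => co x i ^ 2 * (e i - d i) /
        (((1 - θ) * d i + θ * e i) * √((1 - θ) * d i + θ * e i))) 0 := by
      apply ContinuousAt.div
      · fun_prop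
      · fun_prop
      · have h3 : 0 < √(d i) := Real.sqrt_pos.mpr h2
        simp only [sub_zero, one_mul, zero_mul, add_zero]
        positivity
    exact this
  have hlim : ∑ i ∈ su x, co x i ^ 2 * (e i - d i) / (d i * √(d i)) ≤ 0 := by
    have ht := hcont.tendsto.mono_left (nhdsWithin_le_nhds (s := Set.Ioi (0 : ℝ)))
    simp only [sub_zero, one_mul, zero_mul, add_zero] at ht
    refine le_of_tendsto ht ?_
    have h1 : ∀ᶠ θ : ℝ in nhdsWithin 0 (Set.Ioi 0), θ < 1 :=
      (eventually_lt_nhds (by norm_num : (0 : ℝ) < 1)).filter_mono nhdsWithin_le_nhds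
    filter_upwards [h1, self_mem_nhdsWithin] with θ h1 h0
    exact hkey θ h0 h1
  rw [hm]
  unfold phi
  have e3 : ∑ i ∈ su x, co x i ^ 2 * e i / (d i * √(d i)) - ∑ i ∈ su x, co x i ^ 2 / √(d i) =
      ∑ i ∈ su x, co x i ^ 2 * (e i - d i) / (d i * √(d i)) := by
    rw [← Finset.sum_sub_distrib]
    refine Finset.sum_congr rfl fun i hi => ?_
    have h2 := hdpos i hi
    have h3 : 0 < √(d i) := Real.sqrt_pos.mpr h2
    generalize √(d i) = s at *
    field_simp
  linarith

end Pool.Agent.Helper579.Beps
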