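import Pool.Agent.Helper579.Beps.Defs

set_option maxHeartbeats 4000000

open Finset

noncomputable section

namespace Pool.Agent.Helper579.Beps



theorem scal1 (z z0 δ δ0 : ℝ) (hδ : 0 ≤ δ) (hδ0 : 0 ≤ δ0) (h : δ = 0 → z = 0)
    (h0 : δ0 = 0 → z0 = 0) :
    z0 ^ 2 / √δ0 + 2 * z0 * (z - z0) / √δ0 - z0 ^ 2 * (δ - δ0) / (2 * (δ0 * √δ0))
      + 3 / 10 * ((z - z0) ^ 2 / √((δ + δ0) / 2)) ≤ z ^ 2 / √δ := by
  have h2 : √(2:ℝ) ≤ 3 / 2 := by
    rw [Real.sqrt_le_left (by norm_num)]; norm_num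
  have h2p : 0 < √(2:ℝ) := by positivity
  rcases hδ0.eq_or_lt with e0 | p0
  · have hz0 := h0 e0.symm
    subst hz0
    rw [← e0]
    rcases hδ.eq_or_lt with e1 | p1
    · have hz := h e1.symm
      subst hz
      rw [← e1]; simp
    · have hs : √((δ + 0) / 2) = √δ / √2 := by
        rw [add_zero, Real.sqrt_div hδ]
      rw [hs]
      have hr : 0 < √δ := Real.sqrt_pos.mpr p1
      have : (z - 0) ^ 2 / (√δ / √2) = √2 * (z ^ 2 / √δ) := by
        field_simp; ring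
      rw [this]
      have hn : 0 ≤ z ^ 2 / √δ := by positivity
      have h3 : √2 * (z ^ 2 / √δ) ≤ 3 / 2 * (z ^ 2 / √δ) :=
        mul_le_mul_of_nonneg_right h2 hn
      simp only [Real.sqrt_zero, div_zero, mul_zero, sub_zero, zero_mul, add_zero, zero_add]
      linarith
  · have hp : 0 < √δ0 := Real.sqrt_pos.mpr p0
    rcases hδ.eq_or_lt with e1 | p1
    · have hz := h e1.symm
      subst hz
      rw [← e1]
      have hs : √((0 + δ0) / 2) = √δ0 / √2 := by
        rw [zero_add, Real.sqrt_div hδ0]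
      rw [hs]
      have e2 : (0 - z0) ^ 2 / (√δ0 / √2) = √2 * (z0 ^ 2 / √δ0) := by
        field_simp; ring
      have e3 : 2 * z0 * (0 - z0) / √δ0 = - 2 * (z0 ^ 2 / √δ0) := by
        field_simp; ring
      have e4 : z0 ^ 2 * (0 - δ0) / (2 * (δ0 * √δ0)) = - (1 / 2) * (z0 ^ 2 / √δ0) := by
        field_simp; ring
      rw [e2, e3, e4]
      have hn : 0 ≤ z0 ^ 2 / √δ0 := by positivity
      have h3 : √2 * (z0 ^ 2 / √δ0) ≤ 3 / 2 * (z0 ^ 2 / √δ0) :=
        mul_le_mul_of_nonneg_right h2 hn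
      simp only [Real.sqrt_zero, div_zero]
      linarith
    · have hr : 0 < √δ := Real.sqrt_pos.mpr p1
      have hq : 0 < √((δ + δ0) / 2) := Real.sqrt_pos.mpr (by positivity)
      have eδ : δ = √δ ^ 2 := (Real.sq_sqrt hδ).symm
      have eδ0 : δ0 = √δ0 ^ 2 := (Real.sq_sqrt hδ0).symm
      have eq2 : √((δ + δ0) / 2) ^ 2 = (√δ ^ 2 + √δ0 ^ 2) / 2 := by
        rw [Real.sq_sqrt (by positivity), ← eδ, ← eδ0]
      generalize √((δ + δ0) / 2) = q at *
      have key : ∀ p r : ℝ, 0 < p → 0 < r → q ^ 2 = (r ^ 2 + p ^ 2) / 2 →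
          z0 ^ 2 / p + 2 * z0 * (z - z0) / p - z0 ^ 2 * (r ^ 2 - p ^ 2) / (2 * (p ^ 2 * p))
      + 3 / 10 * ((z - z0) ^ 2 / q) ≤ z ^ 2 / r := by
        intro p r hp hr hq2
        have hA : 3 / 10 * (r + 2 * p) ≤ q := by
          apply le_of_sq_le_sq _ hq.le
          rw [hq2]
          nlinarith [sq_nonneg (2 * r - p), sq_nonneg r, sq_nonneg p]
        have hB : 3 / 10 * ((z - z0) ^ 2 / q) ≤ (z - z0) ^ 2 / (r + 2 * p) := by
          rw [← mul_div_assoc, div_le_div_iff₀ hq (by positivity)]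
          nlinarith [mul_le_mul_of_nonneg_left hA (sq_nonneg (z - z0))]
        have hC : z ^ 2 / r - (z0 ^ 2 / p + 2 * z0 * (z - z0) / p
            - z0 ^ 2 * (r ^ 2 - p ^ 2) / (2 * (p ^ 2 * p)) + (z - z0) ^ 2 / (r + 2 * p))
            = ((r - p) * (r + 2 * p) * z0 - 2 * p ^ 2 * (z - z0)) ^ 2
              / (2 * r * (r + 2 * p) * p ^ 3) := by
          have : r + 2 * p ≠ 0 := by positivity
          field_simp
          ring
        have hD : 0 ≤ ((r - p) * (r + 2 * p) * z0 - 2 * p ^ 2 * (z - z0)) ^ 2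
              / (2 * r * (r + 2 * p) * p ^ 3) := by positivity
        linarith
      have := key (√δ0) (√δ) hp hr eq2
      rw [← eδ, ← eδ0] at this
      exact this

end Pool.Agent.Helper579.Beps
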