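import Pool.Agent.Helper579.Beps.Defs
import Pool.Agent.Helper579.Beps.P_BG_good
import Pool.Agent.Helper579.Beps.P_scal1
import Pool.Agent.Helper579.Beps.P_exists_min
import Pool.Agent.Helper579.Beps.P_Nsq_le
import Pool.Agent.Helper579.Beps.P_Nsq_le_sum
import Pool.Agent.Helper579.Beps.P_first_order

set_option maxHeartbeats 4000000

open Finset

noncomputable section

namespace Pool.Agent.Helper579.Beps



theorem Nsq_multi_core {ι : Type} (s : Finset ι) (F : Finset ℕ) (a : ι → ℝ) (X : ℕ → ℝ)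
    (x : ι → ℕ → ℝ) (D0 : ℕ → ℝ) (D : ι → ℕ → ℝ) (ha : ∑ j ∈ s, a j ^ 2 = 1)
    (hX : ∀ i, ∑ j ∈ s, a j * x j i = X i) (hD0 : ∀ i, 0 ≤ D0 i) (hD : ∀ j i, 0 ≤ D j i)
    (h0 : ∀ i, D0 i = 0 → X i = 0) (h : ∀ j i, D j i = 0 → x j i = 0)
    (hfo : ∀ j ∈ s, ∑ i ∈ F, X i ^ 2 * D j i / (D0 i * √(D0 i)) ≤ ∑ i ∈ F, X i ^ 2 / √(D0 i)) :
    ∑ i ∈ F, X i ^ 2 / √(D0 i) +
      3 / 10 * ∑ j ∈ s, ∑ i ∈ F, (x j i - a j * X i) ^ 2 / √((D j i + D0 i) / 2)
      ≤ ∑ j ∈ s, ∑ i ∈ F, x j i ^ 2 / √(D j i) := by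
  have hj : ∀ j ∈ s, a j ^ 2 * ∑ i ∈ F, X i ^ 2 / √(D0 i) +
      ∑ i ∈ F, 2 * X i / √(D0 i) * (a j * x j i - a j ^ 2 * X i) +
      3 / 10 * ∑ i ∈ F, (x j i - a j * X i) ^ 2 / √((D j i + D0 i) / 2) ≤
      ∑ i ∈ F, x j i ^ 2 / √(D j i) := by
    intro j hj
    have h1 : ∑ i ∈ F, ((a j * X i) ^ 2 / √(D0 i) + 2 * (a j * X i) * (x j i - a j * X i) / √(D0 i)
        - (a j * X i) ^ 2 * (D j i - D0 i) / (2 * (D0 i * √(D0 i)))
        + 3 / 10 * ((x j i - a j * X i) ^ 2 / √((D j i + D0 i) / 2))) ≤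
        ∑ i ∈ F, x j i ^ 2 / √(D j i) := by
      apply Finset.sum_le_sum
      intro i _
      exact scal1 (x j i) (a j * X i) (D j i) (D0 i) (hD j i) (hD0 i) (h j i)
        (fun h => by rw [h0 i h, mul_zero])
    have h2 : ∑ i ∈ F, (a j * X i) ^ 2 * (D j i - D0 i) / (2 * (D0 i * √(D0 i))) =
        a j ^ 2 / 2 * (∑ i ∈ F, X i ^ 2 * D j i / (D0 i * √(D0 i)) - ∑ i ∈ F, X i ^ 2 / √(D0 i)) := by
      rw [← Finset.sum_sub_distrib, Finset.mul_sum]
      apply Finset.sum_congr rfl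
      intro i _
      rcases (hD0 i).eq_or_lt with h3 | h3
      · rw [h0 i h3.symm]
        simp
      · have h4 : √(D0 i) ≠ 0 := (Real.sqrt_pos.2 h3).ne'
        have h5 : D0 i ≠ 0 := h3.ne'
        field_simp
    rw [Finset.sum_add_distrib, Finset.sum_sub_distrib, Finset.sum_add_distrib, h2,
      ← Finset.mul_sum] at h1
    have h6 : ∑ i ∈ F, (a j * X i) ^ 2 / √(D0 i) = a j ^ 2 * ∑ i ∈ F, X i ^ 2 / √(D0 i) := by
      rw [Finset.mul_sum]
      apply Finset.sum_congr rfl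
      intro i _
      ring
    have h7 : ∑ i ∈ F, 2 * (a j * X i) * (x j i - a j * X i) / √(D0 i) =
        ∑ i ∈ F, 2 * X i / √(D0 i) * (a j * x j i - a j ^ 2 * X i) := by
      apply Finset.sum_congr rfl
      intro i _
      ring
    rw [h6, h7] at h1
    have h8 := mul_nonneg (div_nonneg (sq_nonneg (a j)) (by norm_num : (0 : ℝ) ≤ 2))
      (sub_nonneg.2 (hfo j hj))
    linarith
  have h9 := Finset.sum_le_sum hj
  rw [Finset.sum_add_distrib, Finset.sum_add_distrib, ← Finset.sum_mul, ha, one_mul,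
    ← Finset.mul_sum] at h9
  have h10 : ∑ j ∈ s, ∑ i ∈ F, 2 * X i / √(D0 i) * (a j * x j i - a j ^ 2 * X i) = 0 := by
    rw [Finset.sum_comm]
    apply Finset.sum_eq_zero
    intro i _
    rw [← Finset.mul_sum, Finset.sum_sub_distrib, hX, ← Finset.sum_mul, ha]
    ring
  rw [h10] at h9
  linarith

/-- coordinates, as a linear map -/
def coL (g : ℕ → ℕ) (i : ℕ) : X0 g →ₗ[ℝ] ℝ :=
  (Finsupp.lapply i : (ℕ →₀ ℝ) →ₗ[ℝ] ℝ)

theorem co_eq_coL {g : ℕ → ℕ} (x : X0 g) (i : ℕ) : co x i = coL g i x := rfl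

theorem mem_su_iff {g : ℕ → ℕ} (x : X0 g) (i : ℕ) : i ∈ su x ↔ co x i ≠ 0 :=
  Finsupp.mem_support_iff

theorem Nsq_multi {g : ℕ → ℕ} (ι : Type) (s : Finset ι) (x : ι → X0 g) (a : ι → ℝ)
    (ha : ∑ j ∈ s, a j ^ 2 = 1) :
    Nsq (∑ j ∈ s, a j • x j) + 3 / 10 * ∑ j ∈ s, Nsq (x j - a j • ∑ k ∈ s, a k • x k)
      ≤ ∑ j ∈ s, Nsq (x j) := by
  classical
  obtain ⟨Y, hY⟩ : ∃ Y : X0 g, Y = ∑ k ∈ s, a k • x k := ⟨_, rfl⟩
  rw [← hY]
  have hG := BG_good g
  -- restriction of a minimiser to the support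
  have hres : ∀ y : X0 g, ∃ d : ℕ → ℝ, d ∈ BG g ∧ (∀ i, 0 ≤ d i) ∧ (∀ i, d i = 0 → co y i = 0) ∧
      d ∈ Adm y ∧ Nsq y = phi d y := by
    intro y
    obtain ⟨d, hd, hm⟩ := exists_min y
    have hb := hG.box d hd.1
    have hd' : (fun i => if co y i = 0 then 0 else d i) ∈ BG g := by
      apply hG.solid d hd.1
      intro i
      by_cases hi : co y i = 0
      · simp only [hi, if_true]; exact ⟨le_refl _, (hb i).1⟩
      · simp only [hi, if_false]; exact ⟨(hb i).1, le_refl _⟩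
    refine ⟨fun i => if co y i = 0 then 0 else d i, hd', ?_, ?_, ⟨hd', ?_⟩, ?_⟩
    · intro i
      by_cases hi : co y i = 0
      · simp only [hi, if_true]; exact le_refl _
      · simp only [hi, if_false]; exact (hb i).1
    · intro i hi
      by_contra hne
      simp only [hne, if_false] at hi
      exact (hd.2 i ((mem_su_iff y i).2 hne)).ne' hi
    · intro i hi
      simp only [(mem_su_iff y i).1 hi, if_false]
      exact hd.2 i hi
    · rw [hm]
      unfold phi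
      apply Finset.sum_congr rfl
      intro i hi
      simp only [(mem_su_iff y i).1 hi, if_false]
  obtain ⟨D0, hD0b, hD0n, hD0z, hD0a, hD0m⟩ := hres Y
  have hchoose := fun j => hres (x j)
  choose D hDb hDn hDz hDa hDm using hchoose
  obtain ⟨F, hF⟩ : ∃ F : Finset ℕ, F = su Y ∪ s.biUnion (fun j => su (x j)) := ⟨_, rfl⟩
  have hFY : su Y ⊆ F := by rw [hF]; exact Finset.subset_union_left
  have hFx : ∀ j ∈ s, su (x j) ⊆ F := by
    intro j hj
    rw [hF]
    exact (Finset.subset_biUnion_of_mem (fun j => su (x j)) hj).trans Finset.subset_union_right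
  have hext : ∀ y : X0 g, su y ⊆ F → ∀ w : ℕ → ℝ,
      ∑ i ∈ su y, co y i ^ 2 * w i = ∑ i ∈ F, co y i ^ 2 * w i := by
    intro y hy w
    apply Finset.sum_subset hy
    intro i _ hi
    rw [mem_su_iff, not_not] at hi
    rw [hi]
    ring
  have hphi : ∀ y : X0 g, su y ⊆ F → ∀ d : ℕ → ℝ, phi d y = ∑ i ∈ F, co y i ^ 2 / √(d i) := by
    intro y hy d
    have := hext y hy (fun i => (√(d i))⁻¹)
    unfold phi
    simpa only [div_eq_mul_inv] using this
  have hcoY : ∀ i, ∑ j ∈ s, a j * co (x j) i = co Y i := by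
    intro i
    rw [co_eq_coL, hY, map_sum]
    apply Finset.sum_congr rfl
    intro j _
    rw [map_smul, smul_eq_mul, co_eq_coL]
  have hmain := Nsq_multi_core s F a (co Y) (fun j i => co (x j) i) D0 D ha hcoY hD0n hDn hD0z
    hDz (by
      intro j hj
      have h1 := first_order Y D0 hD0a hD0m (D j) (hDb j)
      rw [hD0m, hphi Y hFY] at h1
      have h2 := hext Y hFY (fun i => D j i * (D0 i * √(D0 i))⁻¹)
      simp only [div_eq_mul_inv, mul_assoc] at h1 h2 ⊢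
      rw [h2] at h1
      exact h1)
  rw [← hphi Y hFY, ← hD0m] at hmain
  have h3 : ∑ j ∈ s, ∑ i ∈ F, co (x j) i ^ 2 / √(D j i) = ∑ j ∈ s, Nsq (x j) := by
    apply Finset.sum_congr rfl
    intro j hj
    rw [← hphi (x j) (hFx j hj), ← hDm]
  rw [h3] at hmain
  have h4 : ∑ j ∈ s, Nsq (x j - a j • Y) ≤
      ∑ j ∈ s, ∑ i ∈ F, (co (x j) i - a j * co Y i) ^ 2 / √((D j i + D0 i) / 2) := by
    apply Finset.sum_le_sum
    intro j hj
    have hco : ∀ i, co (x j - a j • Y) i = co (x j) i - a j * co Y i := by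
      intro i
      rw [co_eq_coL, map_sub, map_smul, smul_eq_mul, co_eq_coL, co_eq_coL]
    have hmem : (fun i => (D j i + D0 i) / 2) ∈ BG g := by
      have := hG.conv (hDb j) hD0b (by norm_num : (0 : ℝ) ≤ 1 / 2) (by norm_num : (0 : ℝ) ≤ 1 / 2)
        (by norm_num)
      have he : (fun i => (D j i + D0 i) / 2) = (1 / 2 : ℝ) • D j + (1 / 2 : ℝ) • D0 := by
        funext i
        simp only [Pi.add_apply, Pi.smul_apply, smul_eq_mul]
        ring
      rw [he]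
      exact this
    have h5 := Nsq_le_sum (x j - a j • Y) (fun i => (D j i + D0 i) / 2) hmem F (by
      intro i hi
      rw [hco i] at hi
      by_cases h6 : co (x j) i = 0
      · have h7 : co Y i ≠ 0 := by
          intro h7
          apply hi
          rw [h6, h7]
          ring
        have h8 : D0 i ≠ 0 := fun h => h7 (hD0z i h)
        have h9 : 0 < D0 i := lt_of_le_of_ne (hD0n i) (Ne.symm h8)
        exact ⟨hFY ((mem_su_iff Y i).2 h7), by linarith [hDn j i]⟩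
      · have h8 : D j i ≠ 0 := fun h => h6 (hDz j i h)
        have h9 : 0 < D j i := lt_of_le_of_ne (hDn j i) (Ne.symm h8)
        exact ⟨hFx j hj ((mem_su_iff (x j) i).2 h6), by linarith [hD0n i]⟩)
    refine h5.trans (le_of_eq ?_)
    apply Finset.sum_congr rfl
    intro i _
    rw [hco i]
  linarith

end Pool.Agent.Helper579.Beps
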