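import Pool.Agent.Helper579.Beps.Defs
import Pool.Agent.Helper579.Beps.P_Nsq_smul
import Pool.Agent.Helper579.Beps.P_Nsq_multi
import Pool.Agent.Helper579.Beps.P_Nsq_eq_zero

set_option maxHeartbeats 4000000

open Finset

noncomputable section

namespace Pool.Agent.Helper579.Beps



theorem Nsq_nonneg_aux {g : ℕ → ℕ} (x : X0 g) : 0 ≤ Nsq x := by
  unfold Nsq
  apply Real.sInf_nonneg
  rintro _ ⟨d, -, rfl⟩
  exact Finset.sum_nonneg fun i _ => div_nonneg (sq_nonneg _) (Real.sqrt_nonneg _)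

theorem Nsq_triangle {g : ℕ → ℕ} (x y : X0 g) : √(Nsq (x + y)) ≤ √(Nsq x) + √(Nsq y) := by
  set p := √(Nsq x) with hp
  set q := √(Nsq y) with hq
  have hp0 : 0 ≤ p := Real.sqrt_nonneg _
  have hq0 : 0 ≤ q := Real.sqrt_nonneg _
  have hp2 : p ^ 2 = Nsq x := Real.sq_sqrt (Nsq_nonneg_aux x)
  have hq2 : q ^ 2 = Nsq y := Real.sq_sqrt (Nsq_nonneg_aux y)
  rcases hp0.eq_or_lt with h | hp0
  · have hx : x = 0 := Nsq_eq_zero x (by rw [← hp2, ← h]; ring)
    rw [hx, zero_add, ← h, zero_add]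
  rcases hq0.eq_or_lt with h | hq0
  · have hy : y = 0 := Nsq_eq_zero y (by rw [← hq2, ← h]; ring)
    rw [hy, add_zero, ← h, add_zero]
  have hpq : 0 < p + q := by linarith
  set a1 := √(p / (p + q)) with ha1
  set a2 := √(q / (p + q)) with ha2
  have h1 : a1 ^ 2 = p / (p + q) := Real.sq_sqrt (by positivity)
  have h2 : a2 ^ 2 = q / (p + q) := Real.sq_sqrt (by positivity)
  have h10 : a1 ≠ 0 := by
    intro h
    rw [h] at h1
    have : 0 < p / (p + q) := by positivity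
    rw [← h1] at this
    norm_num at this
  have h20 : a2 ≠ 0 := by
    intro h
    rw [h] at h2
    have : 0 < q / (p + q) := by positivity
    rw [← h2] at this
    norm_num at this
  have hm := Nsq_multi (g := g) (Fin 2) Finset.univ ![a1⁻¹ • x, a2⁻¹ • y] ![a1, a2] (by
    rw [Fin.sum_univ_two]
    simp only [Matrix.cons_val_zero, Matrix.cons_val_one]
    rw [h1, h2]
    field_simp)
  rw [Fin.sum_univ_two (f := fun j => (![a1, a2] : Fin 2 → ℝ) j • (![a1⁻¹ • x, a2⁻¹ • y] : Fin 2 → X0 g) j)] at hm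
  simp only [Matrix.cons_val_zero, Matrix.cons_val_one] at hm
  rw [smul_inv_smul₀ h10, smul_inv_smul₀ h20, Fin.sum_univ_two (f := fun j => Nsq ((![a1⁻¹ • x, a2⁻¹ • y] : Fin 2 → X0 g) j))] at hm
  simp only [Matrix.cons_val_zero, Matrix.cons_val_one] at hm
  rw [Nsq_smul, Nsq_smul, inv_pow, inv_pow, h1, h2, ← hp2, ← hq2] at hm
  have h3 : (0:ℝ) ≤ ∑ j : Fin 2, Nsq ((![a1⁻¹ • x, a2⁻¹ • y] : Fin 2 → X0 g) j
      - (![a1, a2] : Fin 2 → ℝ) j • (x + y)) := Finset.sum_nonneg fun i _ => Nsq_nonneg_aux _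
  have h4 : (p / (p + q))⁻¹ * p ^ 2 + (q / (p + q))⁻¹ * q ^ 2 = (p + q) ^ 2 := by
    field_simp
  rw [h4] at hm
  apply Real.sqrt_le_iff.2
  refine ⟨hpq.le, ?_⟩
  linarith

end Pool.Agent.Helper579.Beps
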