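import Pool.Agent.Helper579.Beps.Defs

set_option maxHeartbeats 4000000

open Finset

noncomputable section

namespace Pool.Agent.Helper579.Beps



theorem j20700_max {E : Type} [NormedAddCommGroup E] [NormedSpace ℝ E] [FiniteDimensional ℝ E] :
    ∃ s : Finset E, s.card ≤ 5 ^ (Module.finrank ℝ E) ∧ (∀ h ∈ s, ‖h‖ ≤ 2) ∧
      ∀ h : E, ‖h‖ ≤ 2 → ∃ a ∈ s, ‖h - a‖ < 1 := by
  classical
  let Q : Set ℕ := {k | ∃ s : Finset E, ((∀ c ∈ s, ‖c‖ ≤ 2) ∧
    (∀ c ∈ s, ∀ d ∈ s, c ≠ d → 1 ≤ ‖c - d‖)) ∧ s.card = k}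
  have hne : Q.Nonempty := ⟨0, ∅, ⟨by simp, by simp⟩, rfl⟩
  have hbd : BddAbove Q := by
    refine ⟨5 ^ (Module.finrank ℝ E), ?_⟩
    rintro k ⟨s, ⟨h1, h2⟩, rfl⟩
    exact Besicovitch.card_le_of_separated s h1 h2
  obtain ⟨s, ⟨h1, h2⟩, h3⟩ := Nat.sSup_mem hne hbd
  refine ⟨s, Besicovitch.card_le_of_separated s h1 h2, h1, fun h hh => ?_⟩
  by_contra hcon
  push Not at hcon
  have hnot : h ∉ s := by
    intro hs
    have := hcon h hs
    rw [sub_self, norm_zero] at this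
    linarith
  have h4 : (insert h s).card ∈ Q := by
    refine ⟨insert h s, ⟨?_, ?_⟩, rfl⟩
    · intro c hc
      rcases Finset.mem_insert.1 hc with rfl | hc
      · exact hh
      · exact h1 c hc
    · intro c hc d hd hcd
      rcases Finset.mem_insert.1 hc with hc1 | hc1
      · rcases Finset.mem_insert.1 hd with hd1 | hd1
        · exact absurd (hc1.trans hd1.symm) hcd
        · rw [hc1]
          exact hcon d hd1
      · rcases Finset.mem_insert.1 hd with hd1 | hd1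
        · rw [norm_sub_rev, hd1]
          exact hcon c hc1
        · exact h2 c hc1 d hd1 hcd
  have h5 := le_csSup hbd h4
  rw [← h3, Finset.card_insert_of_notMem hnot] at h5
  omega

theorem net {E : Type} [NormedAddCommGroup E] [NormedSpace ℝ E] [FiniteDimensional ℝ E] :
    ∃ s : Finset E, s.card ≤ 5 ^ (Module.finrank ℝ E) ∧ (∀ h ∈ s, ‖h‖ ≤ 1) ∧
      ∀ (ξ : E →ₗ[ℝ] ℝ) (c : ℝ), (∀ h ∈ s, |ξ h| ≤ c) → ∀ h, |ξ h| ≤ 2 * c * ‖h‖ := by
  classical
  obtain ⟨s, hs1, hs2, hs3⟩ := j20700_max (E := E)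
  refine ⟨s.image (fun a => (1 / 2 : ℝ) • a), Finset.card_image_le.trans hs1, ?_, ?_⟩
  · intro h hh
    obtain ⟨a, ha, rfl⟩ := Finset.mem_image.1 hh
    rw [norm_smul, Real.norm_of_nonneg (by norm_num)]
    have := hs2 a ha
    linarith
  · intro ξ c hc h
    have hc' : ∀ a ∈ s, |ξ ((1 / 2 : ℝ) • a)| ≤ c := fun a ha =>
      hc _ (Finset.mem_image.2 ⟨a, ha, rfl⟩)
    have hc0 : 0 ≤ c := by
      obtain ⟨a, ha, _⟩ := hs3 0 (by simp)
      exact (abs_nonneg _).trans (hc' a ha)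
    have hval : ∀ x, LinearMap.toContinuousLinearMap ξ x = ξ x := fun x => rfl
    have hκ : ‖LinearMap.toContinuousLinearMap ξ‖ ≤
        ‖LinearMap.toContinuousLinearMap ξ‖ / 2 + c := by
      apply ContinuousLinearMap.opNorm_le_of_unit_norm (by positivity)
      intro x hx
      obtain ⟨a, ha, hxa⟩ := hs3 ((2 : ℝ) • x) (by
        rw [norm_smul, hx]
        norm_num)
      have h1 : ‖x - (1 / 2 : ℝ) • a‖ ≤ 1 / 2 := by
        have e : x - (1 / 2 : ℝ) • a = (1 / 2 : ℝ) • ((2 : ℝ) • x - a) := by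
          rw [smul_sub, smul_smul]
          norm_num
        rw [e, norm_smul, Real.norm_of_nonneg (by norm_num)]
        linarith
      have h2 := ContinuousLinearMap.le_opNorm (LinearMap.toContinuousLinearMap ξ)
        (x - (1 / 2 : ℝ) • a)
      have h3 : LinearMap.toContinuousLinearMap ξ x =
          LinearMap.toContinuousLinearMap ξ (x - (1 / 2 : ℝ) • a) + ξ ((1 / 2 : ℝ) • a) := by
        rw [hval, hval, ← map_add, sub_add_cancel]
      rw [h3]
      refine (norm_add_le _ _).trans ?_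
      have h4 := hc' a ha
      rw [← Real.norm_eq_abs] at h4
      have h5 : ‖LinearMap.toContinuousLinearMap ξ‖ * ‖x - (1 / 2 : ℝ) • a‖ ≤
          ‖LinearMap.toContinuousLinearMap ξ‖ * (1 / 2) :=
        mul_le_mul_of_nonneg_left h1 (norm_nonneg _)
      linarith
    have h1 := ContinuousLinearMap.le_opNorm (LinearMap.toContinuousLinearMap ξ) h
    rw [hval, Real.norm_eq_abs] at h1
    refine h1.trans ?_
    apply mul_le_mul_of_nonneg_right _ (norm_nonneg _)
    linarith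

end Pool.Agent.Helper579.Beps
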