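import Pool.Agent.Helper579.Beps.Defs
import Pool.Agent.Helper579.Beps.P_BG_good
import Pool.Agent.Helper579.Beps.P_exists_min
import Pool.Agent.Helper579.Beps.P_Nsq_le
import Pool.Agent.Helper579.Beps.P_first_order

set_option maxHeartbeats 4000000

open Finset

noncomputable section

namespace Pool.Agent.Helper579.Beps



theorem mem_su {g : ℕ → ℕ} (x : X0 g) (i : ℕ) : i ∈ su x ↔ co x i ≠ 0 := by
  unfold su co
  exact Finsupp.mem_support_iff

theorem phi_nonneg' {g : ℕ → ℕ} (d : ℕ → ℝ) (x : X0 g) : 0 ≤ phi d x := by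
  unfold phi
  exact Finset.sum_nonneg (fun i _ => by positivity)

theorem exists_min' {g : ℕ → ℕ} (x : X0 g) : ∃ d ∈ Adm x, Nsq x = phi d x ∧
    ∀ i, i ∉ su x → d i = 0 := by
  obtain ⟨d, hd, hm⟩ := exists_min x
  have hbox := (BG_good g).box d hd.1
  refine ⟨fun i => if i ∈ su x then d i else 0, ⟨?_, ?_⟩, ?_, ?_⟩
  · apply (BG_good g).solid d hd.1
    intro i
    show 0 ≤ (if i ∈ su x then d i else 0) ∧ (if i ∈ su x then d i else 0) ≤ d i
    split_ifs
    · exact ⟨(hbox i).1, le_rfl⟩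
    · exact ⟨le_rfl, (hbox i).1⟩
  · intro i hi
    show 0 < (if i ∈ su x then d i else 0)
    rw [if_pos hi]
    exact hd.2 i hi
  · rw [hm]
    unfold phi
    apply Finset.sum_congr rfl
    intro i hi
    simp only [if_pos hi]
  · intro i hi
    simp only [if_neg hi]

theorem pair_aux {g : ℕ → ℕ} (h x : X0 g) (d : ℕ → ℝ) (hd : d ∈ Adm h) (hm : Nsq h = phi d h)
    (D : ℕ → ℝ) (hD : ∀ i ∈ su h, d i ≤ D i) :
    (∑ i ∈ su h, co x i * co h i / √(D i)) ^ 2 ≤ Nsq x * Nsq h := by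
  classical
  obtain ⟨e, he, hex⟩ := exists_min x
  have hebox := (BG_good g).box e he.1
  have hNh : 0 ≤ Nsq h := by rw [hm]; exact phi_nonneg' d h
  have hNx : 0 ≤ Nsq x := by rw [hex]; exact phi_nonneg' e x
  have hT : ∑ i ∈ su h, co x i * co h i / √(D i) =
      ∑ i ∈ su h ∩ su x, co x i * co h i / √(D i) := by
    symm
    apply Finset.sum_subset Finset.inter_subset_left
    intro i hi1 hi2
    have : co x i = 0 := by
      by_contra hc
      exact hi2 (Finset.mem_inter.2 ⟨hi1, (mem_su x i).2 hc⟩)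
    rw [this]; simp
  have hcs : (∑ i ∈ su h ∩ su x, co x i * co h i / √(D i)) ^ 2 ≤
      (∑ i ∈ su h ∩ su x, co x i ^ 2 / √(e i)) * (∑ i ∈ su h ∩ su x, co h i ^ 2 * √(e i) / D i) := by
    have h1 := Finset.sum_mul_sq_le_sq_mul_sq (su h ∩ su x) (fun i => co x i / √(√(e i)))
      (fun i => co h i * √(√(e i)) / √(D i))
    have e1 : ∑ i ∈ su h ∩ su x, (co x i / √(√(e i))) * (co h i * √(√(e i)) / √(D i)) =
        ∑ i ∈ su h ∩ su x, co x i * co h i / √(D i) := by
      apply Finset.sum_congr rfl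
      intro i hi
      have hi2 := (Finset.mem_inter.1 hi).2
      have p1 : 0 < e i := he.2 i hi2
      have p2 : √(√(e i)) ≠ 0 := (Real.sqrt_pos.2 (Real.sqrt_pos.2 p1)).ne'
      field_simp
    have e2 : ∑ i ∈ su h ∩ su x, (co x i / √(√(e i))) ^ 2 =
        ∑ i ∈ su h ∩ su x, co x i ^ 2 / √(e i) := by
      apply Finset.sum_congr rfl
      intro i hi
      rw [div_pow, Real.sq_sqrt (Real.sqrt_nonneg _)]
    have e3 : ∑ i ∈ su h ∩ su x, (co h i * √(√(e i)) / √(D i)) ^ 2 =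
        ∑ i ∈ su h ∩ su x, co h i ^ 2 * √(e i) / D i := by
      apply Finset.sum_congr rfl
      intro i hi
      have hi1 := (Finset.mem_inter.1 hi).1
      have p1 : 0 < D i := lt_of_lt_of_le (hd.2 i hi1) (hD i hi1)
      rw [div_pow, mul_pow, Real.sq_sqrt (Real.sqrt_nonneg _), Real.sq_sqrt p1.le]
    rw [e1, e2, e3] at h1
    exact h1
  have hA : ∑ i ∈ su h ∩ su x, co x i ^ 2 / √(e i) ≤ Nsq x := by
    rw [hex]
    unfold phi
    apply Finset.sum_le_sum_of_subset_of_nonneg Finset.inter_subset_right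
    intro i _ _
    positivity
  have hB1 : ∑ i ∈ su h ∩ su x, co h i ^ 2 * √(e i) / D i ≤
      ∑ i ∈ su h, co h i ^ 2 * √(e i) / d i := by
    refine le_trans ?_ (Finset.sum_le_sum_of_subset_of_nonneg (Finset.inter_subset_left :
      su h ∩ su x ⊆ su h) ?_)
    · apply Finset.sum_le_sum
      intro i hi
      have hi1 := (Finset.mem_inter.1 hi).1
      exact div_le_div_of_nonneg_left (by positivity) (hd.2 i hi1) (hD i hi1)
    · intro i hi _
      have := (hd.2 i hi)
      positivity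
  have hB2 : ∑ i ∈ su h, co h i ^ 2 * √(e i) / d i ≤ Nsq h := by
    have h1 := Finset.sum_mul_sq_le_sq_mul_sq (su h) (fun i => co h i / √(√(d i)))
      (fun i => co h i * √(e i) / (√(√(d i)) * √(d i)))
    have e1 : ∑ i ∈ su h, (co h i / √(√(d i))) * (co h i * √(e i) / (√(√(d i)) * √(d i))) =
        ∑ i ∈ su h, co h i ^ 2 * √(e i) / d i := by
      apply Finset.sum_congr rfl
      intro i hi
      have p1 : 0 < d i := hd.2 i hi
      have p2 : 0 < √(d i) := Real.sqrt_pos.2 p1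
      have p3 : √(√(d i)) * √(√(d i)) = √(d i) := Real.mul_self_sqrt p2.le
      have p4 : √(d i) * √(d i) = d i := Real.mul_self_sqrt p1.le
      rw [div_mul_div_comm, ← mul_assoc (√(√(d i))), p3, p4]
      ring
    have e2 : ∑ i ∈ su h, (co h i / √(√(d i))) ^ 2 = Nsq h := by
      rw [hm]
      unfold phi
      apply Finset.sum_congr rfl
      intro i hi
      rw [div_pow, Real.sq_sqrt (Real.sqrt_nonneg _)]
    have e3 : ∑ i ∈ su h, (co h i * √(e i) / (√(√(d i)) * √(d i))) ^ 2 =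
        ∑ i ∈ su h, co h i ^ 2 * e i / (d i * √(d i)) := by
      apply Finset.sum_congr rfl
      intro i hi
      have p1 : 0 < d i := hd.2 i hi
      rw [div_pow, mul_pow, mul_pow, Real.sq_sqrt (hebox i).1, Real.sq_sqrt (Real.sqrt_nonneg _),
        Real.sq_sqrt p1.le, mul_comm (√(d i)) (d i)]
    rw [e1, e2, e3] at h1
    have h2 := first_order h d hd hm e he.1
    have h3 : (∑ i ∈ su h, co h i ^ 2 * √(e i) / d i) ^ 2 ≤ Nsq h ^ 2 := by
      refine h1.trans ?_
      rw [sq]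
      exact mul_le_mul_of_nonneg_left h2 hNh
    exact (abs_le_of_sq_le_sq' h3 hNh).2
  rw [hT]
  refine hcs.trans ?_
  exact mul_le_mul hA (hB1.trans hB2) (Finset.sum_nonneg (fun i hi => by
    have hi1 := (Finset.mem_inter.1 hi).1
    have p1 : 0 < D i := lt_of_lt_of_le (hd.2 i hi1) (hD i hi1)
    positivity)) hNx

theorem pair_bound {g : ℕ → ℕ} (K : ℕ) (s : Finset (X0 g)) (hs : s.card ≤ g K)
    (hK : ∀ h ∈ s, ∀ i < K, co h i = 0) :
    ∃ D : ℕ → ℝ, (∀ i, 0 ≤ D i) ∧ (fun i => D i / 2) ∈ BG g ∧ (∀ h ∈ s, ∀ i ∈ su h, 0 < D i) ∧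
      ∀ h ∈ s, ∀ x : X0 g, (∑ i ∈ su h, co x i * co h i / √(D i)) ^ 2 ≤ Nsq x * Nsq h := by
  classical
  choose d hd hm hz using (fun h : X0 g => exists_min' h)
  have hbox : ∀ h i, 0 ≤ d h i := fun h i => ((BG_good g).box _ (hd h).1 i).1
  let D : ℕ → ℝ := fun i => (insert (0:ℝ) (s.image (fun h => d h i))).max'
    (Finset.insert_nonempty _ _)
  have hD0 : ∀ i, 0 ≤ D i := fun i => Finset.le_max' _ _ (Finset.mem_insert_self _ _)
  have hDd : ∀ h ∈ s, ∀ i, d h i ≤ D i := fun h hh i =>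
    Finset.le_max' (insert (0:ℝ) (s.image (fun h => d h i))) (d h i)
      (Finset.mem_insert_of_mem (Finset.mem_image.2 ⟨h, hh, rfl⟩))
  have hDm : ∀ i, D i = 0 ∨ ∃ h ∈ s, d h i = D i := by
    intro i
    have := Finset.max'_mem (insert (0:ℝ) (s.image (fun h => d h i))) (Finset.insert_nonempty _ _)
    rcases Finset.mem_insert.1 this with h | h
    · exact Or.inl h
    · exact Or.inr (Finset.mem_image.1 h)
  refine ⟨D, hD0, ?_, fun h hh i hi => lt_of_lt_of_le ((hd h).2 i hi) (hDd h hh i),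
    fun h hh x => pair_aux h x (d h) (hd h) (hm h) D (fun i _ => hDd h hh i)⟩
  rcases s.eq_empty_or_nonempty with rfl | ⟨h0, hh0⟩
  · apply (BG_good g).solid _ ((BG_good g).unit 0)
    intro i
    have : D i = 0 := by
      rcases hDm i with h | ⟨h, hh, _⟩
      · exact h
      · exact absurd hh (Finset.notMem_empty _)
    show 0 ≤ D i / 2 ∧ D i / 2 ≤ _
    rw [this, zero_div]
    refine ⟨le_rfl, ?_⟩
    exact ((BG_good g).box _ ((BG_good g).unit 0) i).1
  · apply (BG_good g).sup K (s.image d) (Finset.card_image_le.trans hs)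
    · intro f hf
      obtain ⟨h, hh, rfl⟩ := Finset.mem_image.1 hf
      refine ⟨(hd h).1, fun i hi => hz h i ?_⟩
      rw [mem_su]
      exact not_not.2 (hK h hh i hi)
    · intro i
      refine ⟨by show 0 ≤ D i / 2; linarith [hD0 i], ?_⟩
      rcases hDm i with h | ⟨h, hh, he⟩
      · refine ⟨d h0, Finset.mem_image.2 ⟨h0, hh0, rfl⟩, ?_⟩
        show 2 * (D i / 2) ≤ d h0 i
        rw [h]
        simpa using hbox h0 i
      · refine ⟨d h, Finset.mem_image.2 ⟨h, hh, rfl⟩, ?_⟩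
        show 2 * (D i / 2) ≤ d h i
        rw [he]
        linarith

end Pool.Agent.Helper579.Beps
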