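import Pool.Agent.Helper579.Beps.Defs

set_option maxHeartbeats 4000000

open Finset

noncomputable section

namespace Pool.Agent.Helper579.Beps



theorem proj_aux_basis {H : Type} [AddCommGroup H] [Module ℝ H] [FiniteDimensional ℝ H]
    (q : H →ₗ[ℝ] H →ₗ[ℝ] ℝ) (hs : ∀ x y, q x y = q y x) (hpos : ∀ h, h ≠ 0 → 0 < q h h) :
    ∃ (m : ℕ) (b : Fin m → H), (∀ i j, q (b i) (b j) = if i = j then 1 else 0) ∧
      ∀ h, h = ∑ k, q h (b k) • b k := by
  letI : Invertible (2 : ℝ) := invertibleOfNonzero two_ne_zero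
  obtain ⟨v, hv⟩ := LinearMap.BilinForm.exists_orthogonal_basis (K := ℝ) (V := H)
    (B := q) ⟨fun x y => by simpa using hs x y⟩
  have hv' : ∀ i j, i ≠ j → q (v i) (v j) = 0 := fun i j hij => hv hij
  have hvp : ∀ i, 0 < q (v i) (v i) := fun i => hpos _ (v.ne_zero i)
  refine ⟨_, fun k => (Real.sqrt (q (v k) (v k)))⁻¹ • v k, ?_, ?_⟩
  · intro i j
    simp only [map_smul, LinearMap.smul_apply, smul_eq_mul]
    by_cases hij : i = j
    · subst hij
      rw [if_pos rfl]
      have h1 := Real.sqrt_pos.mpr (hvp i)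
      have h2 := Real.mul_self_sqrt (hvp i).le
      field_simp
      nlinarith
    · rw [if_neg hij, hv' i j hij]
      simp
  · intro h
    have h3 : ∀ k, q h ((Real.sqrt (q (v k) (v k)))⁻¹ • v k) • ((Real.sqrt (q (v k) (v k)))⁻¹ • v k)
        = (v.repr h k) • v k := by
      intro k
      have h1 := Real.sqrt_pos.mpr (hvp k)
      have h2 := Real.mul_self_sqrt (hvp k).le
      have h4 : q h (v k) = v.repr h k * q (v k) (v k) := by
        conv_lhs => rw [← v.sum_repr h]
        rw [map_sum, LinearMap.sum_apply, Finset.sum_eq_single k]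
        · simp
        · intro j _ hj
          rw [map_smul, LinearMap.smul_apply, hv' j k hj, smul_zero]
        · intro hk; exact absurd (Finset.mem_univ k) hk
      rw [map_smul, smul_smul, smul_eq_mul, h4]
      congr 1
      field_simp
      rw [Real.sq_sqrt (hvp k).le, mul_comm]
    rw [Finset.sum_congr rfl fun k _ => h3 k]
    exact (v.sum_repr h).symm

theorem proj_lemma {X : Type} [AddCommGroup X] [Module ℝ X] (q : X →ₗ[ℝ] X →ₗ[ℝ] ℝ)
    (hs : ∀ x y, q x y = q y x) (hp : ∀ x, 0 ≤ q x x) (H : Submodule ℝ X)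
    (hfin : FiniteDimensional ℝ H) (hpos : ∀ h ∈ H, h ≠ 0 → 0 < q h h) (N : X → ℝ)
    (hN : ∀ x, 0 ≤ N x) (hA : ∀ x, ∀ h ∈ H, (q x h) ^ 2 ≤ 4 * N x * N h)
    (hB : ∀ h ∈ H, N h ≤ √2 * q h h) :
    ∃ (m : ℕ) (u : X →ₗ[ℝ] EuclideanSpace ℝ (Fin m)), (∀ x, ‖u x‖ ^ 2 ≤ N x) ∧
      ∀ h ∈ H, N h ≤ 8 * ‖u h‖ ^ 2 := by
  classical
  set qH : H →ₗ[ℝ] H →ₗ[ℝ] ℝ := (q.domRestrict₁₂ H H) with hqH
  have hqH' : ∀ a b : H, qH a b = q a b := fun a b => rfl
  obtain ⟨m, b, hb1, hb2⟩ := proj_aux_basis qH (fun x y => hs _ _)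
    (fun h hh => hpos h h.2 (by simpa using hh))
  have hc : (0 : ℝ) < 4 * √2 := by positivity
  set lam : ℝ := Real.sqrt (4 * √2) with hlam
  have hlam0 : 0 < lam := Real.sqrt_pos.mpr hc
  have hlam2 : lam ^ 2 = 4 * √2 := Real.sq_sqrt hc.le
  have h22 : √2 * √2 = 2 := Real.mul_self_sqrt (by norm_num)
  set u : X →ₗ[ℝ] EuclideanSpace ℝ (Fin m) :=
    (WithLp.linearEquiv 2 ℝ (Fin m → ℝ)).symm.toLinearMap ∘ₗ
      LinearMap.pi (fun k => lam⁻¹ • (q.flip (b k))) with hu
  have hu1 : ∀ x k, u x k = lam⁻¹ * q x (b k) := fun x k => rfl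
  have hu2 : ∀ x, ‖u x‖ ^ 2 = (4 * √2)⁻¹ * ∑ k, q x (b k) ^ 2 := by
    intro x
    rw [EuclideanSpace.real_norm_sq_eq, Finset.mul_sum]
    refine Finset.sum_congr rfl fun k _ => ?_
    rw [hu1, mul_pow, inv_pow, hlam2]
  refine ⟨m, u, ?_, ?_⟩
  · intro x
    rw [hu2]
    set S : ℝ := ∑ k, q x (b k) ^ 2 with hS
    set p : H := ∑ k, q x (b k) • b k with hp'
    have h1 : q x (p : X) = S := by
      rw [hp', hS]
      push_cast
      rw [map_sum]
      refine Finset.sum_congr rfl fun k _ => ?_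
      rw [map_smul, smul_eq_mul]; ring
    have h2 : q (p : X) (p : X) = S := by
      have h3 : ∀ k, q (p : X) (b k) = q x (b k) := by
        intro k
        have : qH p (b k) = q x (b k) := by
          rw [hp', map_sum, LinearMap.sum_apply, Finset.sum_eq_single k]
          · rw [map_smul, LinearMap.smul_apply, hb1, if_pos rfl, smul_eq_mul, mul_one]
          · intro j _ hj
            rw [map_smul, LinearMap.smul_apply, hb1, if_neg hj, smul_zero]
          · intro hk; exact absurd (Finset.mem_univ k) hk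
        exact this
      have h4 : q (p : X) (p : X) = ∑ k, q x (b k) * q (p : X) (b k) := by
        conv_lhs => 
          arg 2
          rw [hp']
        push_cast
        rw [map_sum]
        refine Finset.sum_congr rfl fun k _ => ?_
        rw [map_smul, smul_eq_mul]
      rw [h4, hS]
      refine Finset.sum_congr rfl fun k _ => ?_
      rw [h3]; ring
    have hS0 : 0 ≤ S := Finset.sum_nonneg fun k _ => sq_nonneg _
    have h5 := hA x p p.2
    have h6 := hB p p.2
    rw [h1] at h5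
    rw [h2] at h6
    rcases hS0.eq_or_lt with h7 | h7
    · rw [← h7, mul_zero]; exact hN x
    · have h8 : S ^ 2 ≤ (4 * √2 * N x) * S := by
        calc S ^ 2 ≤ 4 * N x * N p := h5
          _ ≤ 4 * N x * (√2 * S) := by
            apply mul_le_mul_of_nonneg_left h6
            have := hN x; positivity
          _ = _ := by ring
      have h9 : S ≤ 4 * √2 * N x := by
        by_contra hcon
        push Not at hcon
        nlinarith
      rw [inv_mul_le_iff₀ hc]
      exact h9
  · intro h hh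
    rw [hu2]
    have h1 := hb2 ⟨h, hh⟩
    have h2 : q h h = ∑ k, q h (b k) ^ 2 := by
      have h3 : qH ⟨h, hh⟩ ⟨h, hh⟩ = ∑ k, qH ⟨h, hh⟩ (b k) ^ 2 := by
        conv_lhs => 
          arg 2
          rw [h1]
        rw [map_sum]
        refine Finset.sum_congr rfl fun k _ => ?_
        rw [map_smul, smul_eq_mul]; ring
      exact h3
    have h4 := hB h hh
    rw [← h2]
    have h5 : 8 * ((4 * √2)⁻¹ * q h h) = √2 * q h h := by
      have : (4 * √2)⁻¹ = √2 / 8 := by
        field_simp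
        nlinarith
      rw [this]; ring
    rw [h5]
    exact h4

end Pool.Agent.Helper579.Beps
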