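import Pool.Agent.Helper579.Beps.Defs
import Pool.Agent.Helper579.Beps.P_BG_good
import Pool.Agent.Helper579.Beps.P_exists_min
import Pool.Agent.Helper579.Beps.P_Nsq_le_sum
import Pool.Agent.Helper579.Beps.P_Nsq_smul
import Pool.Agent.Helper579.Beps.P_Nsq_eq_zero
import Pool.Agent.Helper579.Beps.P_Nsq_triangle
import Pool.Agent.Helper579.Beps.P_net
import Pool.Agent.Helper579.Beps.P_pair_bound
import Pool.Agent.Helper579.Beps.P_proj_lemma

set_option maxHeartbeats 4000000

open Finset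

noncomputable section

namespace Pool.Agent.Helper579.Beps



theorem net_aux {E : Type} [AddCommGroup E] [Module ℝ E] [hfd : FiniteDimensional ℝ E]
    (nn : E → ℝ) (h0 : ∀ x, 0 ≤ nn x) (hsm : ∀ (c : ℝ) (x : E), nn (c • x) = |c| * nn x)
    (htri : ∀ x y, nn (x + y) ≤ nn x + nn y) (hz : ∀ x, nn x = 0 → x = 0) :
    ∃ s : Finset E, s.card ≤ 5 ^ (Module.finrank ℝ E) ∧ (∀ h ∈ s, nn h ≤ 1) ∧
      ∀ (ξ : E →ₗ[ℝ] ℝ) (c : ℝ), (∀ h ∈ s, |ξ h| ≤ c) → ∀ h, |ξ h| ≤ 2 * c * nn h := by
  letI : Norm E := ⟨nn⟩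
  have core : NormedSpace.Core ℝ E :=
    { norm_nonneg := h0
      norm_smul := fun c x => by
        show nn (c • x) = ‖c‖ * nn x
        rw [hsm, Real.norm_eq_abs]
      norm_triangle := htri
      norm_eq_zero_iff := fun x => by
        constructor
        · exact hz x
        · intro hx
          show nn x = 0
          rw [hx]
          have := hsm 0 (0 : E)
          simpa using this }
  letI i1 : NormedAddCommGroup E := NormedAddCommGroup.ofCore core
  letI i2 : NormedSpace ℝ E := NormedSpace.ofCore core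
  exact @net E i1 i2 hfd

theorem Nsq_nonneg_auxh {g : ℕ → ℕ} (x : X0 g) : 0 ≤ Nsq x := by
  obtain ⟨d, _, h⟩ := exists_min x
  rw [h]
  unfold phi
  exact Finset.sum_nonneg (fun i _ => by positivity)

/-- the bilinear form -/
def qf {g : ℕ → ℕ} (D : ℕ → ℝ) : X0 g →ₗ[ℝ] X0 g →ₗ[ℝ] ℝ :=
  LinearMap.mk₂ ℝ (fun x y => Finsupp.sum (show ℕ →₀ ℝ from x) (fun i a => a * (co y i / √(D i))))
    (by
      intro x x' y
      exact Finsupp.sum_add_index' (fun i => by simp) (fun i a b => by ring))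
    (by
      intro c x y
      have := Finsupp.sum_smul_index' (g := (show ℕ →₀ ℝ from x)) (b := c)
        (h := fun i a => a * (co y i / √(D i))) (fun i => by simp)
      refine this.trans ?_
      rw [smul_eq_mul, Finsupp.mul_sum]
      apply Finsupp.sum_congr
      intro i _
      simp only [smul_eq_mul]
      ring)
    (by
      intro x y y'
      rw [← Finsupp.sum_add]
      apply Finsupp.sum_congr
      intro i _
      have : co (y + y') i = co y i + co y' i := rfl
      rw [this]; ring)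
    (by
      intro c x y
      rw [smul_eq_mul, Finsupp.mul_sum]
      apply Finsupp.sum_congr
      intro i _
      have : co (c • y) i = c * co y i := rfl
      rw [this]; ring)

theorem qf_su {g : ℕ → ℕ} (D : ℕ → ℝ) (x y : X0 g) :
    qf D x y = ∑ i ∈ su x, co x i * (co y i / √(D i)) := rfl

theorem not_mem_su {g : ℕ → ℕ} (x : X0 g) (i : ℕ) (h : i ∉ su x) : co x i = 0 := by
  unfold su at h
  exact Finsupp.notMem_support_iff.mp h

theorem qf_left {g : ℕ → ℕ} (D : ℕ → ℝ) (x y : X0 g) (t : Finset ℕ) (ht : su x ⊆ t) :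
    qf D x y = ∑ i ∈ t, co x i * (co y i / √(D i)) := by
  rw [qf_su]
  apply Finset.sum_subset ht
  intro i _ hi
  rw [not_mem_su x i hi, zero_mul]

theorem qf_right {g : ℕ → ℕ} (D : ℕ → ℝ) (x y : X0 g) (t : Finset ℕ) (ht : su y ⊆ t) :
    qf D x y = ∑ i ∈ t, co x i * (co y i / √(D i)) := by
  rw [qf_left D x y (su x ∪ t) Finset.subset_union_left]
  symm
  apply Finset.sum_subset Finset.subset_union_right
  intro i _ hi
  have : co y i = 0 := not_mem_su y i (fun h => hi (ht h))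
  rw [this, zero_div, mul_zero]

theorem qf_symm {g : ℕ → ℕ} (D : ℕ → ℝ) (x y : X0 g) : qf D x y = qf D y x := by
  rw [qf_left D x y (su x ∪ su y) Finset.subset_union_left,
    qf_right D y x (su x ∪ su y) Finset.subset_union_left]
  apply Finset.sum_congr rfl
  intro i _
  ring

theorem qf_self {g : ℕ → ℕ} (D : ℕ → ℝ) (x : X0 g) :
    qf D x x = ∑ i ∈ su x, co x i ^ 2 / √(D i) := by
  rw [qf_su]
  apply Finset.sum_congr rfl
  intro i _
  ring

theorem Nsq_hilb {g : ℕ → ℕ} (K : ℕ) (H : Submodule ℝ (X0 g)) (hfin : FiniteDimensional ℝ H)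
    (hK : ∀ h ∈ H, ∀ i < K, co h i = 0) (hg : 5 ^ (Module.finrank ℝ H) ≤ g K) :
    ∃ (m : ℕ) (u : X0 g →ₗ[ℝ] EuclideanSpace ℝ (Fin m)), (∀ x, ‖u x‖ ^ 2 ≤ Nsq x) ∧
      ∀ h ∈ H, Nsq h ≤ 8 * ‖u h‖ ^ 2 := by
  classical
  obtain ⟨s0, hcard, hle, hnet⟩ := net_aux (E := H) (fun h => √(Nsq (h : X0 g)))
    (fun h => Real.sqrt_nonneg _)
    (fun c h => by
      show √(Nsq (c • (h : X0 g))) = |c| * √(Nsq (h : X0 g))
      rw [Nsq_smul, Real.sqrt_mul (sq_nonneg c), Real.sqrt_sq_eq_abs])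
    (fun x y => Nsq_triangle (x : X0 g) (y : X0 g))
    (fun x hx => by
      have h1 : Nsq (x : X0 g) = 0 := by
        have := Real.sqrt_eq_zero (Nsq_nonneg_auxh (x : X0 g))
        exact this.mp hx
      exact Subtype.ext (Nsq_eq_zero _ h1))
  set s : Finset (X0 g) := s0.image (fun h : H => (h : X0 g)) with hs
  have hscard : s.card ≤ g K := (Finset.card_image_le.trans hcard).trans hg
  have hsH : ∀ k ∈ s, k ∈ H := by
    intro k hk
    obtain ⟨h, _, rfl⟩ := Finset.mem_image.mp hk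
    exact h.2
  obtain ⟨D, hD0, hDBG, hDpos, hDpair⟩ := pair_bound K s hscard (fun h hh => hK h (hsH h hh))
  -- positivity of D on supports of elements of H
  have hDH : ∀ h ∈ H, ∀ i, co h i ≠ 0 → 0 < D i := by
    intro h hh i hi
    by_contra hcon
    have hzero : ∀ k ∈ s0, co (k : X0 g) i = 0 := by
      intro k hk
      by_contra hne
      apply hcon
      apply hDpos (k : X0 g) (Finset.mem_image.mpr ⟨k, hk, rfl⟩) i
      unfold su
      exact Finsupp.mem_support_iff.mpr hne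
    let ξ : H →ₗ[ℝ] ℝ :=
      { toFun := fun k => co (k : X0 g) i
        map_add' := fun a b => rfl
        map_smul' := fun c a => rfl }
    have h1 := hnet ξ 0 (fun k hk => by
      have : ξ k = 0 := hzero k hk
      rw [this, abs_zero]) ⟨h, hh⟩
    have h2 : ξ ⟨h, hh⟩ = co h i := rfl
    rw [h2] at h1
    simp only [mul_zero, zero_mul] at h1
    exact hi (abs_nonpos_iff.mp h1)
  have hB : ∀ h ∈ H, Nsq h ≤ √2 * qf D h h := by
    intro h hh
    have h1 := Nsq_le_sum h (fun i => D i / 2) hDBG (su h) (fun i hi => by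
      refine ⟨?_, half_pos (hDH h hh i hi)⟩
      by_contra hcon
      exact hi (not_mem_su h i hcon))
    refine h1.trans (le_of_eq ?_)
    rw [qf_self, Finset.mul_sum]
    apply Finset.sum_congr rfl
    intro i hi
    have hi' : co h i ≠ 0 := by
      unfold su at hi
      exact Finsupp.mem_support_iff.mp hi
    have hDi := hDH h hh i hi'
    have h2 : √(D i / 2) = √(D i) / √2 := Real.sqrt_div hDi.le 2
    have h3 : 0 < √(D i) := Real.sqrt_pos.mpr hDi
    have h4 : 0 < √(2 : ℝ) := Real.sqrt_pos.mpr (by norm_num)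
    show co h i ^ 2 / √(D i / 2) = √2 * (co h i ^ 2 / √(D i))
    rw [h2]
    field_simp
  have hpos : ∀ h ∈ H, h ≠ 0 → 0 < qf D h h := by
    intro h hh hne
    have h1 := hB h hh
    have h2 : 0 < Nsq h := lt_of_le_of_ne (Nsq_nonneg_auxh h) (fun h0 => hne (Nsq_eq_zero h h0.symm))
    have h4 : 0 < √(2 : ℝ) := Real.sqrt_pos.mpr (by norm_num)
    by_contra hcon
    push Not at hcon
    nlinarith
  have hA : ∀ x, ∀ h ∈ H, (qf D x h) ^ 2 ≤ 4 * Nsq x * Nsq h := by
    intro x h hh
    have hNx := Nsq_nonneg_auxh x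
    have h1 := hnet ((qf D x).comp H.subtype) (√(Nsq x)) (fun k hk => by
      have hkN : Nsq (k : X0 g) ≤ 1 := by
        have h5 := hle k hk
        have h6 : Nsq (k : X0 g) = (√(Nsq (k : X0 g))) ^ 2 :=
          (Real.sq_sqrt (Nsq_nonneg_auxh _)).symm
        rw [h6]
        have h7 := Real.sqrt_nonneg (Nsq (k : X0 g))
        have h8 : √(Nsq (k : X0 g)) ≤ 1 := h5
        nlinarith
      have h2 := hDpair (k : X0 g) (Finset.mem_image.mpr ⟨k, hk, rfl⟩) x
      have h3 : ((qf D x).comp H.subtype) k = ∑ i ∈ su (k : X0 g), co x i * co (k : X0 g) i / √(D i) := by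
        show qf D x (k : X0 g) = _
        rw [qf_right D x (k : X0 g) (su (k : X0 g)) (Finset.Subset.refl _)]
        apply Finset.sum_congr rfl
        intro i _
        ring
      rw [h3]
      apply Real.abs_le_sqrt
      refine h2.trans ?_
      nlinarith [Nsq_nonneg_auxh (k : X0 g)]) ⟨h, hh⟩
    have h2 : ((qf D x).comp H.subtype) ⟨h, hh⟩ = qf D x h := rfl
    rw [h2] at h1
    have h1' : |qf D x h| ≤ 2 * √(Nsq x) * √(Nsq h) := h1
    have h3 : (qf D x h) ^ 2 = |qf D x h| ^ 2 := (sq_abs _).symm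
    rw [h3]
    calc |qf D x h| ^ 2 ≤ (2 * √(Nsq x) * √(Nsq h)) ^ 2 :=
          pow_le_pow_left₀ (abs_nonneg _) h1' 2
      _ = 4 * (√(Nsq x)) ^ 2 * (√(Nsq h)) ^ 2 := by ring
      _ = 4 * Nsq x * Nsq h := by
          rw [Real.sq_sqrt hNx, Real.sq_sqrt (Nsq_nonneg_auxh h)]
  exact proj_lemma (qf D) (qf_symm D) (fun x => by
    rw [qf_self]; exact Finset.sum_nonneg (fun i _ => by positivity)) H hfin hpos Nsq
    Nsq_nonneg_auxh hA hB

end Pool.Agent.Helper579.Beps
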