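import Pool.Agent.Helper579.Beps.Defs
import Pool.Agent.Helper579.Beps.P_exists_min
import Pool.Agent.Helper579.Beps.P_Nsq_le

set_option maxHeartbeats 4000000

open Finset

noncomputable section

namespace Pool.Agent.Helper579.Beps



theorem Nsq_mono {g : ℕ → ℕ} (x y : X0 g) (h : ∀ i, |co y i| ≤ |co x i|) : Nsq y ≤ Nsq x := by
  obtain ⟨d, hd, hx⟩ := exists_min x
  have hsub : su y ⊆ su x := by
    intro i hi
    have h1 : co y i ≠ 0 := Finsupp.mem_support_iff.1 hi
    refine Finsupp.mem_support_iff.2 ?_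
    intro h2
    have h3 := h i
    have h4 : co x i = 0 := h2
    rw [h4, abs_zero] at h3
    exact h1 (abs_eq_zero.1 (le_antisymm h3 (abs_nonneg _)))
  have hdy : d ∈ Adm y := ⟨hd.1, fun i hi => hd.2 i (hsub hi)⟩
  rw [hx]
  refine (Nsq_le y d hdy).trans ?_
  unfold phi
  calc ∑ i ∈ su y, co y i ^ 2 / Real.sqrt (d i) ≤ ∑ i ∈ su y, co x i ^ 2 / Real.sqrt (d i) := by
        refine Finset.sum_le_sum fun i _ => ?_
        refine div_le_div_of_nonneg_right ?_ (Real.sqrt_nonneg _)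
        exact sq_le_sq.2 (h i)
    _ ≤ ∑ i ∈ su x, co x i ^ 2 / Real.sqrt (d i) :=
        Finset.sum_le_sum_of_subset_of_nonneg hsub fun i _ _ =>
          div_nonneg (sq_nonneg _) (Real.sqrt_nonneg _)
end Pool.Agent.Helper579.Beps
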