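import Pool.Agent.Helper579.Beps.Defs
import Pool.Agent.Helper579.Beps.P_BG_good

set_option maxHeartbeats 4000000

open Finset

noncomputable section

namespace Pool.Agent.Helper579.Beps



theorem block_bound_gen (g : ℕ → ℕ) (e : ℕ → ℝ) (he : IsGen g e) :
    ∃ (p : ℕ) (s : Finset (ℕ → ℝ)), s.card ≤ g p ∧ (∀ d ∈ s, d ∈ BG g) ∧ (∀ i < p, e i ≤ 0) ∧
      (∀ i, p < i → e i ≤ 0 ∨ ∃ d ∈ s, 2 * e i ≤ d i) ∧ ∀ i, e i ≤ 1 := by
  rcases he with ⟨i0, rfl⟩ | ⟨N, s, hcard, hs, h⟩
  · refine ⟨i0, ∅, by simp, by simp, ?_, ?_, ?_⟩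
    · intro i hi
      rw [Pi.single_eq_of_ne (by omega)]
    · intro i hi
      left
      rw [Pi.single_eq_of_ne (by omega)]
    · intro i
      by_cases h : i = i0
      · subst h; simp
      · rw [Pi.single_eq_of_ne h]; norm_num
  · refine ⟨N, s, hcard, fun d hd => (hs d hd).1, ?_, ?_, ?_⟩
    · intro i hi
      obtain ⟨_, d, hd, h2⟩ := h i
      have := (hs d hd).2 i hi
      linarith
    · intro i hi
      obtain ⟨_, d, hd, h2⟩ := h i
      exact Or.inr ⟨d, hd, h2⟩
    · intro i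
      obtain ⟨h0, d, hd, h2⟩ := h i
      have := ((BG_good g).box d (hs d hd).1 i).2
      linarith

theorem block_bound_one (g : ℕ → ℕ) (a ε : ℝ) (ha : 0 ≤ a) (hε : 0 < ε) (m : ℕ) (lo hi : ℕ)
    (c : ℕ →₀ ℝ) (hc : ∀ i, 0 ≤ c i) (hlo : ∀ i < lo, c i = 0) (hhi : ∀ i, hi ≤ i → c i = 0)
    (hsum : ∑ i ∈ c.support, c i = 1)
    (hsmall : ∀ (s : Finset (ℕ → ℝ)), s.card ≤ (m + 1) * ((Finset.range (lo + 1)).sup g) →
      (∀ d ∈ s, d ∈ BG g) → ∀ e : ℕ → ℝ, (∀ i, ∃ d ∈ s, e i ≤ d i) →
      ∑ i ∈ c.support, c i * e i ≤ a + ε)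
    (D : Fin (m + 1) → ℕ → ℝ) (e : ℕ → ℝ)
    (he : ∀ i, ∃ j, e i ≤ D j i)
    (p : Fin (m+1) → ℕ) (s : Fin (m+1) → Finset (ℕ → ℝ))
    (h1 : ∀ j, (s j).card ≤ g (p j)) (h2 : ∀ j, ∀ d ∈ s j, d ∈ BG g)
    (h3 : ∀ j, ∀ i < p j, D j i ≤ 0)
    (h4 : ∀ j, ∀ i, p j < i → D j i ≤ 0 ∨ ∃ d ∈ s j, 2 * D j i ≤ d i) (h5 : ∀ j i, D j i ≤ 1) :
    ∑ i ∈ c.support, c i * e i ≤ (a + ε) / 2 +
      ((Finset.univ.filter (fun j : Fin (m+1) => lo ≤ p j ∧ p j < hi)).card : ℝ) := by
  classical
  by_cases hbad : ∃ j, lo ≤ p j ∧ p j < hi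
  · have hcard : 1 ≤ (Finset.univ.filter (fun j : Fin (m+1) => lo ≤ p j ∧ p j < hi)).card := by
      obtain ⟨j, hj⟩ := hbad
      exact Finset.card_pos.mpr ⟨j, by simp [hj]⟩
    have hle : ∑ i ∈ c.support, c i * e i ≤ ∑ i ∈ c.support, c i := by
      apply Finset.sum_le_sum
      intro i _
      obtain ⟨j, hj⟩ := he i
      have := h5 j i
      have := hc i
      nlinarith
    have h1' : (1:ℝ) ≤ ((Finset.univ.filter (fun j : Fin (m+1) => lo ≤ p j ∧ p j < hi)).card : ℝ) := by
      exact_mod_cast hcard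
    linarith
  · push Not at hbad
    have hnn : (0:ℝ) ≤ ((Finset.univ.filter (fun j : Fin (m+1) => lo ≤ p j ∧ p j < hi)).card : ℝ) :=
      Nat.cast_nonneg _
    set S : Finset (ℕ → ℝ) := (Finset.univ.filter (fun j : Fin (m+1) => p j < lo)).biUnion s with hSdef
    have hScard : S.card ≤ (m+1) * ((Finset.range (lo + 1)).sup g) := by
      calc S.card ≤ (Finset.univ.filter (fun j : Fin (m+1) => p j < lo)).card *
              ((Finset.range (lo + 1)).sup g) := by
            apply Finset.card_biUnion_le_card_mul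
            intro j hj
            refine (h1 j).trans (Finset.le_sup ?_)
            simp only [Finset.mem_filter, Finset.mem_univ, true_and] at hj
            simp only [Finset.mem_range]
            omega
        _ ≤ _ := by
            apply Nat.mul_le_mul_right
            exact (Finset.card_filter_le _ _).trans (by simp)
    have hSB : ∀ d ∈ S, d ∈ BG g := by
      intro d hd
      rw [hSdef, Finset.mem_biUnion] at hd
      obtain ⟨j, _, hj⟩ := hd
      exact h2 j d hj
    have key : ∀ i, c i ≠ 0 → e i ≤ 0 ∨ ∃ d ∈ S, 2 * e i ≤ d i := by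
      intro i hi0
      have hlo' : lo ≤ i := by
        by_contra h
        exact hi0 (hlo i (by omega))
      have hhi' : i < hi := by
        by_contra h
        exact hi0 (hhi i (by omega))
      obtain ⟨j, hj⟩ := he i
      by_cases hp : p j < lo
      · rcases h4 j i (by omega) with h | ⟨d, hd, h⟩
        · left; linarith
        · right
          refine ⟨d, ?_, by linarith⟩
          rw [hSdef, Finset.mem_biUnion]
          exact ⟨j, by simp [hp], hd⟩
      · left
        have := hbad j (by omega)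
        have := h3 j i (by omega)
        linarith
    rcases S.eq_empty_or_nonempty with hS | hS
    · have : ∑ i ∈ c.support, c i * e i ≤ 0 := by
        apply Finset.sum_nonpos
        intro i hi0
        have hi1 := Finsupp.mem_support_iff.mp hi0
        rcases key i hi1 with h | ⟨d, hd, _⟩
        · exact mul_nonpos_of_nonneg_of_nonpos (hc i) h
        · rw [hS] at hd; simp at hd
      linarith
    · obtain ⟨d0, hd0⟩ := hS
      have := hsmall S hScard hSB (fun i => if c i ≠ 0 then 2 * e i else 0) (by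
        intro i
        by_cases hi0 : c i ≠ 0
        · simp only [if_pos hi0]
          rcases key i hi0 with h | ⟨d, hd, h⟩
          · exact ⟨d0, hd0, by
              have := ((BG_good g).box d0 (hSB d0 hd0) i).1
              linarith⟩
          · exact ⟨d, hd, h⟩
        · simp only [if_neg hi0]
          exact ⟨d0, hd0, ((BG_good g).box d0 (hSB d0 hd0) i).1⟩)
      have heq : ∑ i ∈ c.support, c i * (if c i ≠ 0 then 2 * e i else 0)
          = 2 * ∑ i ∈ c.support, c i * e i := by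
        rw [Finset.mul_sum]
        apply Finset.sum_congr rfl
        intro i hi0
        rw [if_pos (Finsupp.mem_support_iff.mp hi0)]
        ring
      simp only [heq] at this
      linarith

theorem block_bound (g : ℕ → ℕ) (a ε : ℝ) (ha : 0 ≤ a) (hε : 0 < ε) (m K : ℕ) (hK : 0 < K)
    (c : Fin K → ℕ →₀ ℝ) (N : Fin (K + 1) → ℕ) (hN : StrictMono N)
    (hc : ∀ k i, 0 ≤ c k i) (hlo : ∀ (k : Fin K) (i : ℕ), i < N k.castSucc → c k i = 0)
    (hhi : ∀ (k : Fin K) (i : ℕ), N k.succ ≤ i → c k i = 0)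
    (hsum : ∀ k, ∑ i ∈ (c k).support, c k i = 1)
    (hsmall : ∀ (k : Fin K) (s : Finset (ℕ → ℝ)),
      s.card ≤ (m + 1) * ((Finset.range (N k.castSucc + 1)).sup g) →
      (∀ d ∈ s, d ∈ BG g) → ∀ e : ℕ → ℝ, (∀ i, ∃ d ∈ s, e i ≤ d i) →
      ∑ i ∈ (c k).support, c k i * e i ≤ a + ε)
    (D : Fin (m + 1) → ℕ → ℝ) (hD : ∀ j, IsGen g (D j)) (e : ℕ → ℝ)
    (he : ∀ i, ∃ j, e i ≤ D j i) :
    ∑ k : Fin K, ∑ i ∈ (c k).support, c k i * e i ≤ K * ((a + ε) / 2) + (m + 1) := by
  classical
  choose p s h1 h2 h3 h4 h5 using fun j => block_bound_gen g (D j) (hD j)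
  have hb : ∀ k : Fin K, ∑ i ∈ (c k).support, c k i * e i ≤ (a + ε) / 2 +
      ((Finset.univ.filter (fun j : Fin (m+1) => N k.castSucc ≤ p j ∧ p j < N k.succ)).card : ℝ) :=
    fun k => block_bound_one g a ε ha hε m (N k.castSucc) (N k.succ) (c k) (hc k) (hlo k) (hhi k)
      (hsum k) (hsmall k) D e he p s h1 h2 h3 h4 h5
  have hcount : ∑ k : Fin K,
      (Finset.univ.filter (fun j : Fin (m+1) => N k.castSucc ≤ p j ∧ p j < N k.succ)).card
      ≤ m + 1 := by
    have hswap : ∑ k : Fin K,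
      (Finset.univ.filter (fun j : Fin (m+1) => N k.castSucc ≤ p j ∧ p j < N k.succ)).card
      = ∑ j : Fin (m+1),
      (Finset.univ.filter (fun k : Fin K => N k.castSucc ≤ p j ∧ p j < N k.succ)).card := by
      simp only [Finset.card_filter]
      exact Finset.sum_comm
    rw [hswap]
    calc ∑ j : Fin (m+1),
      (Finset.univ.filter (fun k : Fin K => N k.castSucc ≤ p j ∧ p j < N k.succ)).card
        ≤ ∑ _j : Fin (m+1), 1 := by
          apply Finset.sum_le_sum
          intro j _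
          rw [Finset.card_le_one]
          intro k hk k' hk'
          simp only [Finset.mem_filter, Finset.mem_univ, true_and] at hk hk'
          have h6 : k.castSucc < k'.succ := hN.lt_iff_lt.mp (lt_of_le_of_lt hk.1 hk'.2)
          have h7 : k'.castSucc < k.succ := hN.lt_iff_lt.mp (lt_of_le_of_lt hk'.1 hk.2)
          rw [Fin.lt_def] at h6 h7
          simp only [Fin.val_castSucc, Fin.val_succ] at h6 h7
          apply Fin.ext
          omega
      _ = m + 1 := by simp
  calc ∑ k : Fin K, ∑ i ∈ (c k).support, c k i * e i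
      ≤ ∑ k : Fin K, ((a + ε) / 2 +
      ((Finset.univ.filter (fun j : Fin (m+1) => N k.castSucc ≤ p j ∧ p j < N k.succ)).card : ℝ)) :=
        Finset.sum_le_sum (fun k _ => hb k)
    _ = K * ((a + ε) / 2) + ((∑ k : Fin K,
      (Finset.univ.filter (fun j : Fin (m+1) => N k.castSucc ≤ p j ∧ p j < N k.succ)).card : ℕ) : ℝ) := by
        rw [Finset.sum_add_distrib]
        push_cast
        simp
    _ ≤ K * ((a + ε) / 2) + (m + 1) := by
        have : ((∑ k : Fin K,
      (Finset.univ.filter (fun j : Fin (m+1) => N k.castSucc ≤ p j ∧ p j < N k.succ)).card : ℕ) : ℝ)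
          ≤ ((m + 1 : ℕ) : ℝ) := by exact_mod_cast hcount
        push_cast at this ⊢
        linarith

end Pool.Agent.Helper579.Beps
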