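import Pool.Agent.Helper579.Beps.Defs
import Pool.Agent.Helper579.Beps.P_BG_good

set_option maxHeartbeats 4000000

open Finset

noncomputable section

namespace Pool.Agent.Helper579.Beps



theorem BG_gen (g : ℕ → ℕ) (Φ : (ℕ → ℝ) → ℝ) (C : ℝ)
    (hcl : IsClosed {d | Φ d ≤ C}) (hcv : Convex ℝ {d | Φ d ≤ C})
    (hmono : ∀ d e : ℕ → ℝ, (∀ i, 0 ≤ e i ∧ e i ≤ d i) → Φ e ≤ Φ d)
    (hunit : ∀ i, Φ (Pi.single i 1) ≤ C)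
    (hgen : ∀ (N : ℕ) (s : Finset (ℕ → ℝ)), s.card ≤ g N →
      (∀ d ∈ s, d ∈ BG g ∧ ∀ i < N, d i = 0) →
      ∀ e : ℕ → ℝ, (∀ i, 0 ≤ e i ∧ ∃ d ∈ s, 2 * e i ≤ d i) → Φ e ≤ C) :
    ∀ d ∈ BG g, Φ d ≤ C := by
  have hB := BG_good g
  have hS : Good g (BG g ∩ {d | Φ d ≤ C}) := by
    refine ⟨hB.closed.inter hcl, hB.conv.inter hcv, fun d hd => hB.box d hd.1,
      fun d hd e he => ⟨hB.solid d hd.1 e he, (hmono d e he).trans hd.2⟩,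
      fun i => ⟨hB.unit i, hunit i⟩, fun N s hs hd e he => ?_⟩
    have hd' : ∀ d ∈ s, d ∈ BG g ∧ ∀ i < N, d i = 0 := fun d h => ⟨(hd d h).1.1, (hd d h).2⟩
    exact ⟨hB.sup N s hs hd' e he, hgen N s hs hd' e he⟩
  intro d hd
  exact (hd _ hS).2

end Pool.Agent.Helper579.Beps
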