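import Pool.Agent.Helper579.Beps.Defs
import Pool.Agent.Helper579.Beps.P_BG_good
import Pool.Agent.Helper579.Beps.P_BG_gen

set_option maxHeartbeats 4000000

open Finset

noncomputable section

namespace Pool.Agent.Helper579.Beps



theorem gs_gen_mem (g : ℕ → ℕ) (e : ℕ → ℝ) (he : IsGen g e) : e ∈ BG g := by
  rcases he with ⟨i, rfl⟩ | ⟨N, s, h1, h2, h3⟩
  · exact (BG_good g).unit i
  · exact (BG_good g).sup N s h1 h2 e h3

theorem gs_step (g : ℕ → ℕ) (c : ℕ →₀ ℝ) (hc : ∀ i, 0 ≤ c i) (m : ℕ) (C : ℝ) (k : Fin (m + 1))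
    (D : Fin (m + 1) → ℕ → ℝ) (hD : ∀ j, D j ∈ BG g)
    (h : ∀ e' : ℕ → ℝ, IsGen g e' → ∀ e : ℕ → ℝ,
      (∀ i, ∃ j, e i ≤ Function.update D k e' j i) → ∑ i ∈ c.support, c i * e i ≤ C)
    (e : ℕ → ℝ) (he : ∀ i, ∃ j, e i ≤ D j i) : ∑ i ∈ c.support, c i * e i ≤ C := by
  have hbox := (BG_good g).box
  obtain ⟨M, hM⟩ : ∃ M : ℕ → ℝ, ∀ i, M i = Finset.univ.sup' (⟨k, Finset.mem_univ k⟩ :
      (Finset.univ : Finset (Fin (m + 1))).Nonempty) (fun j => if j = k then 0 else D j i) :=
    ⟨_, fun i => rfl⟩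
  have hM2 : ∀ i j, j ≠ k → D j i ≤ M i := by
    intro i j hj
    rw [hM]
    have h1 := Finset.le_sup' (fun j => if j = k then 0 else D j i) (Finset.mem_univ j)
    simp only [if_neg hj] at h1
    exact h1
  have hM3 : ∀ i, M i = 0 ∨ ∃ j, j ≠ k ∧ M i = D j i := by
    intro i
    obtain ⟨j, -, hj⟩ := Finset.exists_mem_eq_sup' (⟨k, Finset.mem_univ k⟩ :
      (Finset.univ : Finset (Fin (m + 1))).Nonempty) (fun j => if j = k then 0 else D j i)
    rw [← hM] at hj
    by_cases hjk : j = k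
    · left
      rw [hj, if_pos hjk]
    · right
      exact ⟨j, hjk, by rw [hj, if_neg hjk]⟩
  obtain ⟨Φ, hΦ⟩ : ∃ Φ : (ℕ → ℝ) → ℝ, ∀ d, Φ d = ∑ i ∈ c.support, c i * max (d i) (M i) :=
    ⟨_, fun d => rfl⟩
  have hgenΦ : ∀ e' : ℕ → ℝ, IsGen g e' → Φ e' ≤ C := by
    intro e' he'
    rw [hΦ]
    apply h e' he'
    intro i
    have h0 : 0 ≤ e' i := (hbox e' (gs_gen_mem g e' he') i).1
    rcases le_total (M i) (e' i) with h1 | h1
    · exact ⟨k, by rw [max_eq_left h1, Function.update_self]⟩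
    · rw [max_eq_right h1]
      rcases hM3 i with h2 | ⟨j, hj, h2⟩
      · exact ⟨k, by rw [h2, Function.update_self]; exact h0⟩
      · exact ⟨j, by rw [h2, Function.update_of_ne hj]⟩
  have key : ∀ d ∈ BG g, Φ d ≤ C := by
    apply BG_gen g Φ C
    · have hcont : Continuous Φ := by
        have h1 : Φ = fun d => ∑ i ∈ c.support, c i * max (d i) (M i) := funext hΦ
        rw [h1]
        exact continuous_finsetSum _ fun i _ =>
          continuous_const.mul ((continuous_apply i).max continuous_const)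
      exact isClosed_le hcont continuous_const
    · intro x hx y hy a b ha hb hab
      have hx' : Φ x ≤ C := hx
      have hy' : Φ y ≤ C := hy
      show Φ (a • x + b • y) ≤ C
      have h1 : Φ (a • x + b • y) ≤ a * Φ x + b * Φ y := by
        rw [hΦ, hΦ, hΦ, Finset.mul_sum, Finset.mul_sum, ← Finset.sum_add_distrib]
        refine Finset.sum_le_sum fun i _ => ?_
        have h2 : max ((a • x + b • y) i) (M i) ≤ a * max (x i) (M i) + b * max (y i) (M i) := by
          have e1 : a * x i ≤ a * max (x i) (M i) := mul_le_mul_of_nonneg_left (le_max_left _ _) ha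
          have e2 : b * y i ≤ b * max (y i) (M i) := mul_le_mul_of_nonneg_left (le_max_left _ _) hb
          have e3 : a * M i ≤ a * max (x i) (M i) := mul_le_mul_of_nonneg_left (le_max_right _ _) ha
          have e4 : b * M i ≤ b * max (y i) (M i) := mul_le_mul_of_nonneg_left (le_max_right _ _) hb
          apply max_le
          · show a * x i + b * y i ≤ _
            linarith
          · have e5 : M i = a * M i + b * M i := by rw [← add_mul, hab, one_mul]
            linarith
        have h3 := mul_le_mul_of_nonneg_left h2 (hc i)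
        linarith
      have h2 : a * Φ x ≤ a * C := mul_le_mul_of_nonneg_left hx' ha
      have h3 : b * Φ y ≤ b * C := mul_le_mul_of_nonneg_left hy' hb
      have h4 : a * C + b * C = C := by rw [← add_mul, hab, one_mul]
      linarith
    · intro d e hde
      rw [hΦ, hΦ]
      refine Finset.sum_le_sum fun i _ => mul_le_mul_of_nonneg_left ?_ (hc i)
      exact max_le_max (hde i).2 le_rfl
    · intro i
      exact hgenΦ _ (Or.inl ⟨i, rfl⟩)
    · intro N s hs1 hs2 e' he'
      exact hgenΦ _ (Or.inr ⟨N, s, hs1, hs2, he'⟩)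
  refine le_trans ?_ (key (D k) (hD k))
  rw [hΦ]
  refine Finset.sum_le_sum fun i _ => mul_le_mul_of_nonneg_left ?_ (hc i)
  obtain ⟨j, hj⟩ := he i
  by_cases hjk : j = k
  · rw [hjk] at hj
    exact hj.trans (le_max_left _ _)
  · exact hj.trans ((hM2 i j hjk).trans (le_max_right _ _))

theorem gens_suffice (g : ℕ → ℕ) (c : ℕ →₀ ℝ) (hc : ∀ i, 0 ≤ c i) (m : ℕ) (C : ℝ)
    (h : ∀ D : Fin (m + 1) → ℕ → ℝ, (∀ j, IsGen g (D j)) → ∀ e : ℕ → ℝ,
      (∀ i, ∃ j, e i ≤ D j i) → ∑ i ∈ c.support, c i * e i ≤ C) :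
    ∀ D : Fin (m + 1) → ℕ → ℝ, (∀ j, D j ∈ BG g) → ∀ e : ℕ → ℝ,
      (∀ i, ∃ j, e i ≤ D j i) → ∑ i ∈ c.support, c i * e i ≤ C := by
  have key : ∀ k : ℕ, k ≤ m + 1 → ∀ D : Fin (m + 1) → ℕ → ℝ, (∀ j, D j ∈ BG g) →
      (∀ j : Fin (m + 1), k ≤ (j : ℕ) → IsGen g (D j)) → ∀ e : ℕ → ℝ,
      (∀ i, ∃ j, e i ≤ D j i) → ∑ i ∈ c.support, c i * e i ≤ C := by
    intro k
    induction k with
    | zero =>
      intro _ D _ hgen e he
      exact h D (fun j => hgen j (Nat.zero_le _)) e he
    | succ k ih =>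
      intro hk D hD hgen e he
      refine gs_step g c hc m C ⟨k, by omega⟩ D hD ?_ e he
      intro e' he' e2 he2
      refine ih (by omega) (Function.update D ⟨k, by omega⟩ e') ?_ ?_ e2 he2
      · intro j
        by_cases hj : j = ⟨k, by omega⟩
        · rw [hj, Function.update_self]
          exact gs_gen_mem g e' he'
        · rw [Function.update_of_ne hj]
          exact hD j
      · intro j hkj
        by_cases hj : j = ⟨k, by omega⟩
        · rw [hj, Function.update_self]
          exact he'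
        · rw [Function.update_of_ne hj]
          apply hgen
          have h1 : (j : ℕ) ≠ k := fun h2 => hj (Fin.ext h2)
          omega
  intro D hD e he
  exact key (m + 1) le_rfl D hD (fun j hj => absurd j.2 (by omega)) e he

end Pool.Agent.Helper579.Beps
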