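import Pool.Agent.Helper579.Beps.Defs
import Pool.Agent.Helper579.Beps.P_BG_good
import Pool.Agent.Helper579.Beps.P_gens_suffice
import Pool.Agent.Helper579.Beps.P_block_bound

set_option maxHeartbeats 4000000

open Finset

noncomputable section

namespace Pool.Agent.Helper579.Beps



theorem claim_step (g : ℕ → ℕ) (a : ℝ) (ha : 0 ≤ a) (IH : ClaimAt g a) : ClaimAt g (a / 2) := by
  intro m ε hε N
  obtain ⟨K, hK⟩ := exists_nat_gt (2 * ((m : ℝ) + 1) / ε)
  have hKr : (0:ℝ) < K := lt_of_le_of_lt (by positivity) hK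
  have hK0 : 0 < K := by exact_mod_cast hKr
  have hK2 : ((m : ℝ) + 1) / K ≤ ε / 2 := by
    rw [div_lt_iff₀ hε] at hK
    rw [div_le_iff₀ hKr]
    linarith
  let mk : ℕ → ℕ := fun n => (m + 1) * ((Finset.range (n + 1)).sup g)
  choose blk hb0 hbN hb1 hbD using fun n => IH (mk n) ε hε n
  let nxt : ℕ → ℕ := fun n => max (n + 1) ((blk n).support.sup id + 1)
  let Ns : ℕ → ℕ := fun k => nxt^[k] N
  have hNs_succ : ∀ k, Ns (k + 1) = nxt (Ns k) := fun k => Function.iterate_succ_apply' nxt k N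
  have hmono : StrictMono Ns := strictMono_nat_of_lt_succ (fun k => by
    rw [hNs_succ]
    exact lt_of_lt_of_le (Nat.lt_succ_self _) (le_max_left _ _))
  have hN0 : ∀ k, N ≤ Ns k := fun k => hmono.monotone (Nat.zero_le k)
  have hhi : ∀ k i, Ns (k + 1) ≤ i → blk (Ns k) i = 0 := by
    intro k i hi
    by_contra hne
    have h1 : i ∈ (blk (Ns k)).support := Finsupp.mem_support_iff.2 hne
    have h2 : id i ≤ (blk (Ns k)).support.sup id := Finset.le_sup h1
    have h3 : (blk (Ns k)).support.sup id + 1 ≤ Ns (k + 1) := by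
      rw [hNs_succ]; exact le_max_right _ _
    simp only [id] at h2
    omega
  have hL : ∀ (w : ℕ → ℝ) (c : ℕ →₀ ℝ), Finsupp.linearCombination ℝ w c
      = ∑ i ∈ c.support, c i * w i := by
    intro w c
    rw [Finsupp.linearCombination_apply, Finsupp.sum]
    simp only [smul_eq_mul]
  have hL1 : ∀ (c : ℕ →₀ ℝ), Finsupp.linearCombination ℝ (fun _ => (1:ℝ)) c
      = ∑ i ∈ c.support, c i := by
    intro c
    rw [hL]
    simp
  refine ⟨((K:ℝ)⁻¹) • ∑ k : Fin K, blk (Ns k), ?_, ?_, ?_, ?_⟩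
  · intro i
    rw [Finsupp.smul_apply, Finsupp.finsetSum_apply, smul_eq_mul]
    exact mul_nonneg (by positivity) (Finset.sum_nonneg fun k _ => hb0 _ i)
  · intro i hi
    rw [Finsupp.smul_apply, Finsupp.finsetSum_apply, smul_eq_mul]
    rw [Finset.sum_eq_zero (fun (k : Fin K) _ => hbN (Ns k) i (lt_of_lt_of_le hi (hN0 _))), mul_zero]
  · rw [← hL1, map_smul, map_sum, Finset.sum_congr rfl (fun (k : Fin K) _ => (hL1 _).trans (hb1 (Ns k)))]
    simp
    field_simp
  · refine gens_suffice g _ ?_ m _ ?_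
    · intro i
      rw [Finsupp.smul_apply, Finsupp.finsetSum_apply, smul_eq_mul]
      exact mul_nonneg (by positivity) (Finset.sum_nonneg fun k _ => hb0 _ i)
    · intro D hD e he
      rw [← hL, map_smul, map_sum, Finset.sum_congr rfl (fun (k : Fin K) _ => hL e (blk (Ns k)))]
      have hbb := block_bound g a ε ha hε m K hK0 (fun k => blk (Ns k)) (fun j => Ns j)
        (fun x y hxy => hmono hxy) (fun k i => hb0 _ i) (fun k i hi => hbN _ i hi)
        (fun k i hi => hhi k i hi) (fun k => hb1 _) ?_ D hD e he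
      · rw [smul_eq_mul]
        have h1 : (K:ℝ)⁻¹ * ∑ k : Fin K, ∑ i ∈ (blk (Ns k)).support, (blk (Ns k)) i * e i
            ≤ (K:ℝ)⁻¹ * (K * ((a + ε) / 2) + (m + 1)) :=
          mul_le_mul_of_nonneg_left hbb (by positivity)
        have h2 : (K:ℝ)⁻¹ * (K * ((a + ε) / 2) + (m + 1)) = (a + ε) / 2 + (m + 1) / K := by
          field_simp
        rw [h2] at h1
        linarith
      · intro k s hs hsB e' he'
        obtain ⟨d0, hd0, -⟩ := he' 0
        let D' : Fin (mk (Ns k) + 1) → ℕ → ℝ := fun j =>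
          if h : (j : ℕ) < s.card then (s.equivFin.symm ⟨j, h⟩ : ℕ → ℝ) else d0
        have hD'1 : ∀ j, D' j ∈ BG g := by
          intro j
          by_cases h : (j : ℕ) < s.card
          · simp only [D', dif_pos h]
            exact hsB _ (s.equivFin.symm ⟨j, h⟩).2
          · simp only [D', dif_neg h]
            exact hsB _ hd0
        have hD'2 : ∀ d ∈ s, ∃ j, D' j = d := by
          intro d hd
          have h1 : ((s.equivFin ⟨d, hd⟩ : Fin s.card) : ℕ) < s.card := (s.equivFin ⟨d, hd⟩).2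
          have h2 : ((s.equivFin ⟨d, hd⟩ : Fin s.card) : ℕ) < mk (Ns k) + 1 := by
            have : s.card ≤ mk (Ns k) := hs
            omega
          refine ⟨⟨_, h2⟩, ?_⟩
          simp only [D', dif_pos h1, Fin.eta, Equiv.symm_apply_apply]
        refine hbD (Ns k) D' hD'1 e' ?_
        intro i
        obtain ⟨d, hd, hle⟩ := he' i
        obtain ⟨j, hj⟩ := hD'2 d hd
        exact ⟨j, by rw [hj]; exact hle⟩

end Pool.Agent.Helper579.Beps
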