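import Pool.Agent.Helper579.Beps.Defs
import Pool.Agent.Helper579.Beps.P_BG_good

set_option maxHeartbeats 4000000

open Finset

noncomputable section

namespace Pool.Agent.Helper579.Beps



theorem claim_zero (g : ℕ → ℕ) : ClaimAt g 1 := by
  intro m ε hε N
  have hsupp : (Finsupp.single N (1 : ℝ)).support = {N} :=
    Finsupp.support_single_ne_zero N one_ne_zero
  refine ⟨Finsupp.single N 1, ?_, ?_, ?_, ?_⟩
  · intro i
    rw [Finsupp.single_apply]
    split_ifs <;> norm_num
  · intro i hi
    rw [Finsupp.single_apply, if_neg (by omega)]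
  · rw [hsupp, Finset.sum_singleton, Finsupp.single_eq_same]
  · intro D hD e he
    rw [hsupp, Finset.sum_singleton, Finsupp.single_eq_same]
    obtain ⟨j, hj⟩ := he N
    have := ((BG_good g).box (D j) (hD j) N).2
    linarith

end Pool.Agent.Helper579.Beps
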