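import Pool.Agent.Helper579.Beps.Defs
import Pool.Agent.Helper579.Beps.P_claim_zero
import Pool.Agent.Helper579.Beps.P_claim_step

set_option maxHeartbeats 4000000

open Finset

noncomputable section

namespace Pool.Agent.Helper579.Beps



theorem claim_all (g : ℕ → ℕ) (l : ℕ) : ClaimAt g ((1 / 2 : ℝ) ^ l) := by
  induction l with
  | zero =>
    rw [pow_zero]
    exact claim_zero g
  | succ l ih =>
    have h := claim_step g ((1 / 2 : ℝ) ^ l) (by positivity) ih
    have e : ((1 / 2 : ℝ) ^ (l + 1)) = (1 / 2 : ℝ) ^ l / 2 := by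
      rw [pow_succ]; ring
    rw [e]
    exact h

end Pool.Agent.Helper579.Beps
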