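import Pool.Agent.Helper579.Beps.Defs
import Pool.Agent.Helper579.Beps.P_BG_good
import Pool.Agent.Helper579.Beps.P_exists_min
import Pool.Agent.Helper579.Beps.P_claim_all

set_option maxHeartbeats 4000000

open Finset

noncomputable section

namespace Pool.Agent.Helper579.Beps



/-- coordinate functional -/
def fvCo (g : ℕ → ℕ) (i : ℕ) : X0 g →+ ℝ where
  toFun := fun x => co x i
  map_zero' := rfl
  map_add' := fun _ _ => rfl

theorem fv_co_ee (g : ℕ → ℕ) (j : ℕ) (a t : ℝ) (i : ℕ) :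
    co (a • ee g j t) i = if j = i then a * t else 0 := by
  have h : co (a • ee g j t) i = a * ((Finsupp.single j t : ℕ →₀ ℝ) i) := rfl
  rw [h, Finsupp.single_apply]
  split_ifs <;> simp

theorem fv_tangent (u v : ℝ) (hu : 0 < u) (hv : 0 < v) :
    1 / Real.sqrt v - (u - v) / (2 * Real.sqrt v ^ 3) ≤ 1 / Real.sqrt u := by
  have ha : 0 < Real.sqrt u := Real.sqrt_pos.2 hu
  have hb : 0 < Real.sqrt v := Real.sqrt_pos.2 hv
  have hua : Real.sqrt u ^ 2 = u := Real.sq_sqrt hu.le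
  have hvb : Real.sqrt v ^ 2 = v := Real.sq_sqrt hv.le
  set a := Real.sqrt u with hadef
  set b := Real.sqrt v with hbdef
  rw [← hua, ← hvb]
  have key : 1 / a - (1 / b - (a ^ 2 - b ^ 2) / (2 * b ^ 3)) =
      (a - b) ^ 2 * (a + 2 * b) / (2 * a * b ^ 3) := by
    field_simp
    ring
  have h2 : 0 ≤ (a - b) ^ 2 * (a + 2 * b) / (2 * a * b ^ 3) := by positivity
  linarith

theorem far_vec (g : ℕ → ℕ) (C : ℝ) : ∃ (s : Finset ℕ) (t : ℕ → ℝ), ∑ i ∈ s, t i ^ 2 = 1 ∧
    ∀ ε : ℕ → ℝ, (∀ i, ε i = 1 ∨ ε i = -1) → C ≤ Nsq (∑ i ∈ s, ε i • ee g i (t i)) := by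
  classical
  have hC : 0 < 1 / (2 * (|C| + 1) ^ 2) := by positivity
  obtain ⟨l, hl⟩ := exists_pow_lt_of_lt_one hC (by norm_num : (1 / 2 : ℝ) < 1)
  set τ : ℝ := (1 / 2 : ℝ) ^ l + (1 / 2 : ℝ) ^ l with hτ
  have hτ0 : 0 < τ := by positivity
  have hτC : τ * (|C| + 1) ^ 2 < 1 := by
    have h1 : (1 / 2 : ℝ) ^ l * (2 * (|C| + 1) ^ 2) < 1 := by
      rwa [lt_div_iff₀ (by positivity)] at hl
    have h2 : τ * (|C| + 1) ^ 2 = (1 / 2 : ℝ) ^ l * (2 * (|C| + 1) ^ 2) := by
      rw [hτ]; ring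
    rw [h2]; exact h1
  have hb : 0 < Real.sqrt τ := Real.sqrt_pos.2 hτ0
  have hCb : C ≤ 1 / Real.sqrt τ := by
    rw [le_div_iff₀ hb]
    have h1 : (Real.sqrt τ * (|C| + 1)) ^ 2 < 1 := by
      rw [mul_pow, Real.sq_sqrt hτ0.le]; exact hτC
    have h2 : Real.sqrt τ * (|C| + 1) < 1 := by
      by_contra h
      push Not at h
      have : 1 ≤ (Real.sqrt τ * (|C| + 1)) ^ 2 := by nlinarith
      linarith
    have h3 : C ≤ |C| + 1 := by linarith [le_abs_self C]
    nlinarith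
  obtain ⟨c, hc0, -, hc1, hcD⟩ := claim_all g l 0 ((1 / 2 : ℝ) ^ l) (by positivity) 0
  refine ⟨c.support, fun i => Real.sqrt (c i), ?_, ?_⟩
  · rw [← hc1]
    exact Finset.sum_congr rfl fun i _ => Real.sq_sqrt (hc0 i)
  · intro ε hε
    set x : X0 g := ∑ i ∈ c.support, ε i • ee g i (Real.sqrt (c i)) with hx
    have hcox : ∀ i, co x i = if i ∈ c.support then ε i * Real.sqrt (c i) else 0 := by
      intro i
      have h1 : co x i = ∑ j ∈ c.support, co (ε j • ee g j (Real.sqrt (c j))) i :=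
        map_sum (fvCo g i) _ _
      rw [h1]
      simp only [fv_co_ee]
      rw [Finset.sum_ite_eq']
    have hcpos : ∀ i ∈ c.support, 0 < c i := fun i hi =>
      lt_of_le_of_ne (hc0 i) (Ne.symm (Finsupp.mem_support_iff.1 hi))
    have hsu : su x = c.support := by
      ext i
      have h1 : i ∈ su x ↔ co x i ≠ 0 := Finsupp.mem_support_iff
      rw [h1, hcox]
      constructor
      · intro h
        by_contra h'
        rw [if_neg h'] at h
        exact h rfl
      · intro h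
        rw [if_pos h]
        have h2 := Real.sqrt_pos.2 (hcpos i h)
        rcases hε i with h3 | h3 <;> rw [h3] <;> intro h4 <;> linarith
    obtain ⟨d, ⟨hdB, hdpos⟩, hdN⟩ := exists_min x
    rw [hdN]
    have hsum : ∑ i ∈ c.support, c i * d i ≤ τ :=
      hcD (fun _ => d) (fun _ => hdB) d (fun i => ⟨0, le_rfl⟩)
    rw [hsu] at hdpos
    have hphi : phi d x = ∑ i ∈ c.support, c i / Real.sqrt (d i) := by
      unfold phi
      rw [hsu]
      refine Finset.sum_congr rfl fun i hi => ?_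
      rw [hcox, if_pos hi, mul_pow, Real.sq_sqrt (hc0 i)]
      rcases hε i with h3 | h3 <;> rw [h3] <;> ring
    rw [hphi]
    have hterm : ∀ i ∈ c.support,
        c i * (1 / Real.sqrt τ + τ / (2 * Real.sqrt τ ^ 3)) -
          c i * d i * (1 / (2 * Real.sqrt τ ^ 3)) ≤ c i / Real.sqrt (d i) := by
      intro i hi
      have h1 := fv_tangent (d i) τ (hdpos i hi) hτ0
      have h2 := mul_le_mul_of_nonneg_left h1 (hc0 i)
      have h3 : c i * (1 / Real.sqrt τ + τ / (2 * Real.sqrt τ ^ 3)) -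
          c i * d i * (1 / (2 * Real.sqrt τ ^ 3)) =
          c i * (1 / Real.sqrt τ - (d i - τ) / (2 * Real.sqrt τ ^ 3)) := by
        ring
      have h4 : c i / Real.sqrt (d i) = c i * (1 / Real.sqrt (d i)) := by ring
      rw [h3, h4]
      exact h2
    have hS := Finset.sum_le_sum hterm
    rw [Finset.sum_sub_distrib, ← Finset.sum_mul, ← Finset.sum_mul, hc1] at hS
    have hk : 0 < 1 / (2 * Real.sqrt τ ^ 3) := by positivity
    have h5 : (∑ i ∈ c.support, c i * d i) * (1 / (2 * Real.sqrt τ ^ 3)) ≤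
        τ * (1 / (2 * Real.sqrt τ ^ 3)) := mul_le_mul_of_nonneg_right hsum hk.le
    have h6 : τ / (2 * Real.sqrt τ ^ 3) = τ * (1 / (2 * Real.sqrt τ ^ 3)) := by ring
    rw [h6] at hS
    linarith

end Pool.Agent.Helper579.Beps
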