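import Pool.Agent.Helper579.Beps.Defs
import Pool.Agent.Helper579.Beps.P_exists_min
import Pool.Agent.Helper579.Beps.P_Nsq_multi
import Pool.Agent.Helper579.Beps.P_Nsq_triangle
import Pool.Agent.Helper579.Beps.P_Nsq_smul
import Pool.Agent.Helper579.Beps.P_Nsq_eq_zero
import Pool.Agent.Helper579.Beps.P_Nsq_mono
import Pool.Agent.Helper579.Beps.P_Nsq_ee
import Pool.Agent.Helper579.Beps.P_Nsq_hilb
import Pool.Agent.Helper579.Beps.P_far_vec

set_option maxHeartbeats 4000000

open Finset

noncomputable section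

namespace Pool.Agent.Helper579.Beps

theorem Nsq_nonneg' {g : ℕ → ℕ} (x : X0 g) : 0 ≤ Nsq x := by
  obtain ⟨d, hd, h⟩ := exists_min x
  rw [h]
  exact Finset.sum_nonneg (fun i _ => by positivity)

/-- the norm on `X0 g` -/
def nn (g : ℕ → ℕ) : AddGroupNorm (X0 g) where
  toFun x := √(Nsq x)
  map_zero' := by
    have : Nsq (0 : X0 g) = 0 := by simpa using Nsq_smul (0 : ℝ) (0 : X0 g)
    simp [this]
  add_le' := Nsq_triangle
  neg' x := by
    have h := Nsq_smul (-1 : ℝ) x
    have h2 : ((-1 : ℝ) • x) = -x := by simp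
    rw [h2] at h
    simp [h]
  eq_zero_of_map_eq_zero' x hx := by
    apply Nsq_eq_zero
    exact (Real.sqrt_eq_zero (Nsq_nonneg' x)).mp hx

instance instNX0 (g : ℕ → ℕ) : NormedAddCommGroup (X0 g) := (nn g).toNormedAddCommGroup

theorem norm_X0 {g : ℕ → ℕ} (x : X0 g) : ‖x‖ = √(Nsq x) := rfl

theorem norm_sq_X0 {g : ℕ → ℕ} (x : X0 g) : ‖x‖ ^ 2 = Nsq x := by
  rw [norm_X0, Real.sq_sqrt (Nsq_nonneg' x)]

instance instSX0 (g : ℕ → ℕ) : NormedSpace ℝ (X0 g) :=
  { (inferInstance : Module ℝ (X0 g)) with
    norm_smul_le := by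
      intro c x
      show √(Nsq (c • x)) ≤ ‖c‖ * √(Nsq x)
      rw [Nsq_smul, Real.sqrt_mul (sq_nonneg c), Real.sqrt_sq_eq_abs, Real.norm_eq_abs] }

/-- tail projections as linear maps -/
def tlL (g : ℕ → ℕ) (K : ℕ) : X0 g →ₗ[ℝ] X0 g where
  toFun x := tl K x
  map_add' x y := by
    show (Finsupp.filter (fun i => K ≤ i) _ : ℕ →₀ ℝ) = _
    exact Finsupp.filter_add
  map_smul' c x := by
    show (Finsupp.filter (fun i => K ≤ i) _ : ℕ →₀ ℝ) = _
    exact Finsupp.filter_smul

theorem co_tl {g : ℕ → ℕ} (K : ℕ) (x : X0 g) (i : ℕ) :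
    co (tl K x) i = if K ≤ i then co x i else 0 := by
  unfold co tl
  exact Finsupp.filter_apply _ _ _

theorem ext_co {g : ℕ → ℕ} {x y : X0 g} (h : ∀ i, co x i = co y i) : x = y :=
  Finsupp.ext h

theorem slow1_X0 (g R : ℕ → ℕ) (hR : ∀ K, 5 ^ (R K) ≤ g K) : IsSlow1 (X0 g) R := by
  refine ⟨⟨tlL g, ?_, ?_, ?_, ?_, ?_⟩, ?_⟩
  · intro K x
    rw [norm_X0, norm_X0]
    apply Real.sqrt_le_sqrt
    apply Nsq_mono
    intro i
    show |co (tl K x) i| ≤ _
    rw [co_tl]
    split_ifs <;> simp
  · intro K x h
    apply ext_co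
    intro i
    have hi : co (tl (K + 1) x) i = co x i := by
      have : tl (K + 1) x = x := h
      rw [this]
    show co (tl K x) i = _
    rw [co_tl] at hi ⊢
    by_cases h1 : K ≤ i
    · rw [if_pos h1]
    · rw [if_neg h1]
      rw [if_neg (by omega)] at hi
      exact hi
  · intro K x
    apply ext_co
    intro i
    show co (tl K (tl K x)) i = co (tl K x) i
    rw [co_tl, co_tl]
    split_ifs <;> rfl
  · intro K
    classical
    refine ⟨Submodule.span ℝ ((Finset.image (fun i => ee g i 1) (Finset.range K) :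
      Finset (X0 g)) : Set (X0 g)), inferInstance, ?_, ?_⟩
    · refine (finrank_span_finset_le_card _).trans ?_
      exact Finset.card_image_le.trans (le_of_eq (Finset.card_range K))
    · intro x
      have hx : x - tlL g K x = ∑ i ∈ Finset.range K, co x i • ee g i 1 := by
        apply ext_co
        intro i
        have h1 : co (x - tlL g K x) i = co x i - co (tl K x) i := rfl
        have h2 : co (∑ j ∈ Finset.range K, co x j • ee g j 1) i
            = ∑ j ∈ Finset.range K, co x j * (if j = i then 1 else 0) := by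
          have : ∀ s : Finset ℕ, co (∑ j ∈ s, co x j • ee g j 1) i
              = ∑ j ∈ s, co x j * (if j = i then 1 else 0) := by
            intro s
            induction s using Finset.induction_on with
            | empty => rfl
            | insert a s ha ih =>
              rw [Finset.sum_insert ha, Finset.sum_insert ha, ← ih]
              show co x a * (Finsupp.single a (1 : ℝ)) i + _ = _
              rw [Finsupp.single_apply]
              rfl
          exact this _
        rw [h1, h2, co_tl]
        by_cases hi : K ≤ i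
        · rw [if_pos hi, sub_self]
          symm
          apply Finset.sum_eq_zero
          intro j hj
          rw [Finset.mem_range] at hj
          rw [if_neg (by omega), mul_zero]
        · rw [if_neg hi, sub_zero]
          rw [Finset.sum_eq_single i]
          · simp
          · intro j _ hj
            rw [if_neg hj, mul_zero]
          · intro hh
            exact absurd (Finset.mem_range.mpr (by omega)) hh
      rw [hx]
      apply Submodule.sum_mem
      intro i hi
      apply Submodule.smul_mem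
      apply Submodule.subset_span
      simp only [Finset.coe_image, Set.mem_image, Finset.mem_coe]
      exact ⟨i, hi, rfl⟩
  · intro K H hfin hH hr
    obtain ⟨m, u, hu1, hu2⟩ := Nsq_hilb K H hfin (by
      intro h hh i hi
      have h1 : tl K h = h := hH h hh
      have h2 := co_tl K h i
      rw [h1, if_neg (by omega)] at h2
      exact h2) ((Nat.pow_le_pow_right (by norm_num) hr).trans (hR K))
    refine ⟨m, u, ?_, ?_⟩
    · intro x
      rw [norm_X0]
      exact Real.le_sqrt_of_sq_le (hu1 x)
    · intro h hh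
      rw [norm_sq_X0]
      exact hu2 h hh
  · intro ι s x a ha
    simp only [norm_sq_X0]
    exact Nsq_multi ι s x a ha

theorem far_X0 (g : ℕ → ℕ) : FarFromTwo (X0 g) := by
  intro C
  obtain ⟨s, t, hs, h⟩ := far_vec g C
  refine ⟨s, fun i => ee g i (t i), ?_, ?_⟩
  · simp only [norm_sq_X0, Nsq_ee]
    exact hs.le
  · intro ε hε
    rw [norm_sq_X0]
    exact h ε hε

theorem slow_of_slow1 {X : Type} [NormedAddCommGroup X] [NormedSpace ℝ X] {R : ℕ → ℕ}
    (h : IsSlow1 X R) : IsSlow X R := by
  obtain ⟨⟨P, h1, h2, h3, h4, h5⟩, h6⟩ := h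
  refine ⟨⟨P, h1, h2, h3, ?_, h5⟩, h6⟩
  intro K
  obtain ⟨W, hW, hr, hx⟩ := h4 K
  exact ⟨W, hW, by omega, hx⟩

end Pool.Agent.Helper579.Beps
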